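import Mathlib
import Pool.Agent.Lib.MP_44a246_ntS.SB2c

/-!
Subspaces of a direct sum: the filtration by the blocks.
-/

namespace Pool.Agent.Lib.MP_44a246_ntK

open Pool.Agent.Lib.MP_44a246_nt
open Pool.Agent.Lib.MP_44a246_ntL
open Pool.Agent.Lib.MP_44a246_ntS
open WithZero Module

section

variable {κ L : Type*} [Field κ] [Field L] [Algebra κ L] {p : ℕ} {ι : Fin p → Type*}
  [∀ j, Fintype (ι j)]

open Classical in
/-- the projection to a block, as a constant matrix -/
noncomputable def prj (κ : Type*) [Field κ] {p : ℕ} {ι : Fin p → Type*} (j : Fin p) :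
    Matrix (ι j) (Σ j, ι j) κ :=
  Matrix.of fun i s => if s = ⟨j, i⟩ then 1 else 0

theorem prj_mulVec (j : Fin p) (u : (Σ j, ι j) → L) :
    ((prj κ j).map (algebraMap κ L)).mulVec u = fun i : ι j => u ⟨j, i⟩ := by
  classical
  funext i
  rw [Matrix.mulVec, dotProduct, Finset.sum_eq_single (⟨j, i⟩ : Σ j, ι j)]
  · simp [prj]
  · intro s _ hs
    simp [prj, hs]
  · intro h
    exact absurd (Finset.mem_univ _) h

/-- the vectors of `U` whose blocks with index less than `m` vanish -/
def flag (U : Submodule L ((Σ j, ι j) → L)) (m : ℕ) : Submodule L ((Σ j, ι j) → L) where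
  carrier := {u | u ∈ U ∧ ∀ s, s.1.val < m → u s = 0}
  add_mem' := fun {u v} hu hv => ⟨U.add_mem hu.1 hv.1, fun s hs => by
    rw [Pi.add_apply, hu.2 s hs, hv.2 s hs, add_zero]⟩
  zero_mem' := ⟨U.zero_mem, fun _ _ => rfl⟩
  smul_mem' := fun c {u} hu => ⟨U.smul_mem c hu.1, fun s hs => by
    rw [Pi.smul_apply, hu.2 s hs, smul_zero]⟩

theorem mem_flag {U : Submodule L ((Σ j, ι j) → L)} {m : ℕ} {u : (Σ j, ι j) → L} :
    u ∈ flag U m ↔ u ∈ U ∧ ∀ s, s.1.val < m → u s = 0 := Iff.rfl

theorem flag_zero (U : Submodule L ((Σ j, ι j) → L)) : flag U 0 = U := by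
  ext u
  rw [mem_flag]
  exact ⟨fun h => h.1, fun h => ⟨h, fun s hs => absurd hs (Nat.not_lt_zero _)⟩⟩

theorem flag_succ_le (U : Submodule L ((Σ j, ι j) → L)) (m : ℕ) : flag U (m + 1) ≤ flag U m :=
  fun _ hu => ⟨hu.1, fun s hs => hu.2 s (by omega)⟩

/-- the graded pieces -/
noncomputable def piece (κ : Type*) {L : Type*} [Field κ] [Field L] [Algebra κ L] {p : ℕ}
    {ι : Fin p → Type*} [∀ j, Fintype (ι j)] (U : Submodule L ((Σ j, ι j) → L)) (j : Fin p) :
    Submodule L (ι j → L) :=
  (flag U j.val).map ((prj κ j).map (algebraMap κ L)).mulVecLin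

/-- the piece contains the vectors of `U` in the block -/
theorem mem_piece {U : Submodule L ((Σ j, ι j) → L)} {j : Fin p} {u : (Σ j, ι j) → L}
    (hu : u ∈ U) (h0 : ∀ s, s.1 ≠ j → u s = 0) : (fun i : ι j => u ⟨j, i⟩) ∈ piece κ U j := by
  refine ⟨u, ⟨hu, fun s hs => h0 s fun h => ?_⟩, ?_⟩
  · rw [h] at hs
    exact absurd hs (lt_irrefl _)
  · rw [Matrix.mulVecLin_apply, prj_mulVec]

end

section

variable {κ L : Type*} [Field κ] [IsAlgClosed κ] [CharZero κ] [Field L] [Algebra κ L] {p : ℕ}
  {ι : Fin p → Type*} [∀ j, Fintype (ι j)]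

private theorem step_inj (U : Submodule L ((Σ j, ι j) → L)) (j : Fin p) :
    ∀ b ∈ flag U j.val, ((prj κ j).map (algebraMap κ L)).mulVec b ∈ (⊥ : Submodule L (ι j → L)) →
      b ∈ flag U (j.val + 1) := by
  intro b hb hb'
  rw [Submodule.mem_bot, prj_mulVec] at hb'
  refine ⟨hb.1, fun s hs => ?_⟩
  rcases Nat.lt_or_ge s.1.val j.val with h1 | h1
  · exact hb.2 s h1
  · obtain ⟨j', i⟩ := s
    have h2 : j' = j := Fin.ext (by
      have : j'.val < j.val + 1 := hs
      have : j.val ≤ j'.val := h1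
      omega)
    subst h2
    exact congrFun hb' i

private theorem step_map (U : Submodule L ((Σ j, ι j) → L)) (j : Fin p) :
    (flag U (j.val + 1)).map ((prj κ j).map (algebraMap κ L)).mulVecLin ≤ ⊥ := by
  rintro _ ⟨b, hb, rfl⟩
  rw [Submodule.mem_bot, Matrix.mulVecLin_apply, prj_mulVec]
  funext i
  exact hb.2 ⟨j, i⟩ (Nat.lt_succ_self _)

/-- **The filtration by the blocks**: heights and dimensions. -/
theorem ht_piece_aux (h : IsFF κ L) (U : Submodule L ((Σ j, ι j) → L)) (m : ℕ) (hm : m ≤ p) :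
    (∑ j : Fin p with j.val < m, ht κ (piece κ U j)) + ht κ (flag U m) ≤ ht κ U ∧
      (∑ j : Fin p with j.val < m, finrank L (piece κ U j)) + finrank L (flag U m) =
        finrank L U := by
  classical
  induction m with
  | zero =>
    have h1 : (Finset.univ.filter fun j : Fin p => j.val < 0) = ∅ :=
      Finset.filter_false_of_mem fun j _ => Nat.not_lt_zero _
    rw [h1, Finset.sum_empty, Finset.sum_empty, flag_zero, zero_add, zero_add]
    exact ⟨le_rfl, rfl⟩
  | succ m ih =>
    obtain ⟨ih1, ih2⟩ := ih (by omega)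
    set j : Fin p := ⟨m, by omega⟩ with hj
    have h1 : (Finset.univ.filter fun i : Fin p => i.val < m + 1) =
        insert j (Finset.univ.filter fun i : Fin p => i.val < m) := by
      ext i
      rw [Finset.mem_filter, Finset.mem_insert, Finset.mem_filter]
      constructor
      · intro hi
        rcases Nat.lt_or_ge i.val m with h2 | h2
        · exact Or.inr ⟨Finset.mem_univ _, h2⟩
        · left
          refine Fin.ext ?_
          show i.val = m
          omega
      · rintro (rfl | hi)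
        · exact ⟨Finset.mem_univ _, Nat.lt_succ_self _⟩
        · exact ⟨Finset.mem_univ _, by omega⟩
    have h2 : j ∉ (Finset.univ.filter fun i : Fin p => i.val < m) := by
      rw [Finset.mem_filter]
      rintro ⟨-, h3⟩
      exact absurd h3 (lt_irrefl _)
    rw [h1, Finset.sum_insert h2, Finset.sum_insert h2]
    have h3 := ht_map_const h (prj κ j) (flag_succ_le U m) (step_map (κ := κ) U j)
      (step_inj (κ := κ) U j)
    have h4 := finrank_sup_map (flag_succ_le U m) ((prj κ j).map (algebraMap κ L)).mulVecLin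
      (step_map (κ := κ) U j) (step_inj (κ := κ) U j)
    rw [bot_sup_eq, ht_bot h] at h3
    rw [bot_sup_eq, finrank_bot] at h4
    constructor
    · change ht κ (piece κ U j) + _ ≤ _ at h3
      linarith
    · change finrank L (piece κ U j) + _ = _ at h4
      omega

/-- **The filtration by the blocks**: heights and dimensions. -/
theorem ht_piece (h : IsFF κ L) (U : Submodule L ((Σ j, ι j) → L)) :
    ∑ j : Fin p, ht κ (piece κ U j) ≤ ht κ U ∧
      ∑ j : Fin p, finrank L (piece κ U j) ≤ finrank L U := by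
  obtain ⟨h1, h2⟩ := ht_piece_aux h U p le_rfl
  have h3 : (Finset.univ.filter fun j : Fin p => j.val < p) = Finset.univ :=
    Finset.filter_true_of_mem fun j _ => j.2
  rw [h3] at h1 h2
  have h4 := ht_nonneg h (flag U p)
  exact ⟨by linarith, by omega⟩

end

end Pool.Agent.Lib.MP_44a246_ntK
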