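import Mathlib
import Pool.Agent.Lib.MP_44a246_ntX.X0
import Pool.Agent.Lib.MP_44a246_ntS.SH2c
import Pool.Agent.Lib.MP_44a246_ntG.G6

/-!
The rows of elements with respect to a finite family of derivations, and the height of the space
spanned by them.
-/

namespace Pool.Agent.Lib.MP_44a246_ntK

open Pool.Agent.Lib.MP_44a246_nt
open Pool.Agent.Lib.MP_44a246_ntL
open Pool.Agent.Lib.MP_44a246_ntS
open Pool.Agent.Lib.MP_44a246_ntX
open Pool.Agent.Lib.MP_44a246_ntG
open Pool.Agent.Lib.MP_e52354_nt
open WithZero Module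

section

variable {L : Type*} [Field L] {σ : Type*} (F : σ → Derivation ℤ L L)

/-- the row of an element with respect to a family of derivations -/
def grow (c : L) : σ → L := fun s => F s c

theorem grow_add (c c' : L) : grow F (c + c') = grow F c + grow F c' := by
  funext s
  exact map_add (F s) c c'

theorem grow_mul (c c' : L) : grow F (c * c') = c • grow F c' + c' • grow F c := by
  funext s
  exact Derivation.leibniz (F s) c c'

theorem grow_natCast (c : ℕ) : grow F (c : L) = 0 := by
  funext s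
  exact Derivation.map_natCast (F s) c

theorem grow_one : grow F (1 : L) = 0 := by
  have := grow_natCast F 1
  rwa [Nat.cast_one] at this

theorem grow_zero : grow F (0 : L) = 0 := by
  have := grow_natCast F 0
  rwa [Nat.cast_zero] at this

theorem grow_neg (c : L) : grow F (-c) = - grow F c := by
  funext s
  exact map_neg (F s) c

theorem grow_sum {ι : Type*} (S : Finset ι) (c : ι → L) :
    grow F (∑ i ∈ S, c i) = ∑ i ∈ S, grow F (c i) := by
  funext s
  rw [Finset.sum_apply]
  exact map_sum (F s) c S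

/-- the row of the inverse -/
theorem grow_inv {c : L} (hc : c ≠ 0) : grow F c = (- c ^ 2) • grow F c⁻¹ := by
  funext s
  have h4 : grow F (c * c⁻¹) s = 0 := by
    rw [mul_inv_cancel₀ hc, grow_one]
    rfl
  rw [grow_mul] at h4
  simp only [Pi.add_apply, Pi.smul_apply, smul_eq_mul] at h4 ⊢
  have h5 : c⁻¹ * grow F c s = - (c * grow F c⁻¹ s) := eq_neg_of_add_eq_zero_right h4
  calc grow F c s = c * (c⁻¹ * grow F c s) := by
        rw [← mul_assoc, mul_inv_cancel₀ hc, one_mul]
    _ = - c ^ 2 * grow F c⁻¹ s := by rw [h5]; ring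

/-- the elements whose row is in a given space -/
noncomputable def growRing (V : Submodule L (σ → L)) : Subring L where
  carrier := {c | grow F c ∈ V}
  mul_mem' := fun {c c'} h h' => by
    show grow F (c * c') ∈ V
    rw [grow_mul]
    exact V.add_mem (V.smul_mem _ h') (V.smul_mem _ h)
  one_mem' := by
    show grow F 1 ∈ V
    rw [grow_one]
    exact V.zero_mem
  add_mem' := fun {c c'} h h' => by
    show grow F (c + c') ∈ V
    rw [grow_add]
    exact V.add_mem h h'
  zero_mem' := by
    show grow F 0 ∈ V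
    rw [grow_zero]
    exact V.zero_mem
  neg_mem' := fun {c} h => by
    show grow F (-c) ∈ V
    rw [grow_neg]
    exact V.neg_mem h

theorem mem_growRing {V : Submodule L (σ → L)} {c : L} : c ∈ growRing F V ↔ grow F c ∈ V :=
  Iff.rfl

/-- the space spanned by the rows of the elements `z t` -/
noncomputable def gspan {γ : Type*} (z : γ → L) : Submodule L (σ → L) :=
  Submodule.span L (Set.range fun t => grow F (z t))

theorem grow_mem_gspan {γ : Type*} (z : γ → L) (t : γ) : grow F (z t) ∈ gspan F z :=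
  Submodule.subset_span ⟨t, rfl⟩

end

section

variable {κ L : Type*} [Field κ] [Field L] [Algebra κ L] {σ : Type*} [Fintype σ]
  {F : σ → Derivation ℤ L L} {δ ρ : Place κ L → ℕ}

/-- the local bound for the minors of the rows of elements which are at most as large as `l` -/
theorem pl_grow (hF : MinorBound κ F Set.univ δ ρ) (w : Place κ L) {l : L} (hl0 : l ≠ 0)
    (hone : 1 ≤ w.1 l) {e : ℕ} (z : Fin e → L) (hz' : ∀ i, w.1 (z i) ≤ w.1 l) :
    pl w.1 (fun i => grow F (z i)) ≤ w.1 l ^ (e + 1) * exp ((e * δ w + ρ w : ℕ) : ℤ) := by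
  classical
  have hvl0 : w.1 l ≠ 0 := (Valuation.ne_zero_iff _).2 hl0
  have hy' : w.1 l⁻¹ ≤ 1 := by
    rw [map_inv₀]
    exact inv_le_one_of_one_le₀ hone
  have hyi : ∀ i, w.1 (z i * l⁻¹) ≤ 1 := by
    intro i
    rw [map_mul, map_inv₀]
    calc w.1 (z i) * (w.1 l)⁻¹ ≤ w.1 l * (w.1 l)⁻¹ := mul_le_mul_left (hz' i) _
      _ = 1 := mul_inv_cancel₀ hvl0
  have hp : l⁻¹ ≠ 0 := inv_ne_zero hl0
  -- the relation between the rows
  have hrel : ∀ i K, grow F (z i) K = l * (grow F (z i * l⁻¹) K -
      (z i * l⁻¹) / l⁻¹ * grow F l⁻¹ K) := by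
    intro i K
    have h1 : z i = (z i * l⁻¹) * l := by
      rw [mul_assoc, inv_mul_cancel₀ hl0, mul_one]
    have h2 : grow F (z i) K = (z i * l⁻¹) * grow F l K + l * grow F (z i * l⁻¹) K := by
      conv_lhs => rw [h1]
      rw [grow_mul]
      simp [Pi.add_apply, Pi.smul_apply, smul_eq_mul]
    have h3 : grow F l K = - l ^ 2 * grow F l⁻¹ K := congrFun (grow_inv F hl0) K
    rw [h2, h3, div_inv_eq_mul]
    ring
  unfold pl
  refine vmax_le w.1 fun K => ?_
  set q : Fin e → L := fun i => z i * l⁻¹ with hq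
  set y : Fin (e + 1) → L := Fin.cons l⁻¹ q with hy
  have hyle : ∀ i, w.1 (y i) ≤ 1 := by
    intro i
    refine Fin.cases ?_ (fun i => ?_) i
    · exact hy'
    · exact hyi i
  set M : Matrix (Fin (e + 1)) (Fin (e + 1)) L := Matrix.of (Fin.cons
    (Fin.cons l⁻¹ (fun j => grow F l⁻¹ (K j)))
    (fun i => (Fin.cons (q i) (fun j => grow F (q i) (K j)) : Fin (e + 1) → L))) with hM
  have hdet := det_border hp q (fun j => grow F l⁻¹ (K j)) (fun i j => grow F (q i) (K j))
  have hM0 : ∀ i, M i 0 = y i := by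
    intro i
    refine Fin.cases ?_ (fun i => ?_) i
    · simp [hM, hy]
    · simp [hM, hy]
  have hMs : ∀ i j, M i (Fin.succ j) = grow F (y i) (K j) := by
    intro i j
    refine Fin.cases ?_ (fun i => ?_) i
    · simp [hM, hy]
    · simp [hM, hy]
  have hbound : w.1 M.det ≤ 1 * exp ((e * δ w + ρ w : ℕ) : ℤ) := by
    refine det_column_le w.1 M (fun i => ?_) (fun i => ?_)
    · rw [hM0]
      exact hyle i
    · have h1 : M.submatrix i.succAbove Fin.succ =
          Matrix.of fun i' j => grow F (y (i.succAbove i')) (K j) := by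
        ext i' j
        rw [Matrix.submatrix_apply, hMs, Matrix.of_apply]
      rw [h1, ← Matrix.det_transpose]
      exact hF w e K (fun i' => y (i.succAbove i')) (fun _ => Set.mem_univ _) fun j => hyle _
  have hfinal : (Matrix.of fun i j => grow F (z i) (K j)).det = l ^ (e + 1) * M.det := by
    have h1 : (Matrix.of fun i j => grow F (z i) (K j)) = l •
        (Matrix.of fun i j => grow F (q i) (K j) - q i / l⁻¹ * grow F l⁻¹ (K j)) := by
      ext i j
      rw [Matrix.of_apply, Matrix.smul_apply, Matrix.of_apply, smul_eq_mul]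
      exact hrel i (K j)
    rw [h1, Matrix.det_smul, Fintype.card_fin]
    have h2 : M.det = l⁻¹ *
        (Matrix.of fun i j => grow F (q i) (K j) - q i / l⁻¹ * grow F l⁻¹ (K j)).det := hdet
    rw [h2, pow_succ, mul_assoc, ← mul_assoc l l⁻¹ _, mul_inv_cancel₀ hl0, one_mul]
  rw [one_mul] at hbound
  rw [hfinal, map_mul, map_pow]
  exact mul_le_mul_right hbound _

end

section

variable {κ L : Type*} [Field κ] [IsAlgClosed κ] [CharZero κ] [Field L] [Algebra κ L]
  {σ : Type*} [Fintype σ] {F : σ → Derivation ℤ L L} {δ ρ : Place κ L → ℕ}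

/-- **The height of the space spanned by the rows.** -/
theorem ht_gspan (h : IsFF κ L) (hF : MinorBound κ F Set.univ δ ρ)
    (hδ : (Function.support δ).Finite) (hρ : (Function.support ρ).Finite) {n : ℕ}
    {x : Fin (n + 1) → L} (hx : ∀ w : Place κ L, 1 ≤ vmax w.1 x) (hx0 : x ≠ 0)
    {γ : Type*} [Finite γ] {z : γ → L} (hz : ∀ t, ∀ w : Place κ L, w.1 (z t) ≤ vmax w.1 x) {r : ℕ}
    (hr : finrank L (gspan F z) ≤ r) :
    ht κ (gspan F z) ≤ (r + 1) * height κ x + r * ∑ᶠ w, (δ w : ℤ) + ∑ᶠ w, (ρ w : ℤ) := by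
  classical
  have := Fintype.ofFinite γ
  obtain ⟨τ, σ', hσ', hsp, hli⟩ := exists_linearIndependent' L (fun j => grow F (z j))
  have : Finite τ := Finite.of_injective σ' hσ'
  have : Fintype τ := Fintype.ofFinite τ
  set e := Fintype.card τ with he
  set σ₁ : Fin e → γ := fun i => σ' ((Fintype.equivFin τ).symm i) with hσ
  set a : Fin e → σ → L := fun i => grow F (z (σ₁ i)) with ha
  have hai : LinearIndependent L a := hli.comp _ (Fintype.equivFin τ).symm.injective
  have has : Submodule.span L (Set.range a) = gspan F z := by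
    have h1 : Set.range a = Set.range ((fun j => grow F (z j)) ∘ σ') := by
      ext y
      constructor
      · rintro ⟨i, rfl⟩
        exact ⟨_, rfl⟩
      · rintro ⟨t, rfl⟩
        refine ⟨Fintype.equivFin τ t, ?_⟩
        simp [ha, hσ]
    rw [h1, hsp]
    rfl
  have hen : e ≤ r := by
    have h1 := finrank_span_eq_card hai
    rw [has, Fintype.card_fin] at h1
    rw [← h1]
    exact hr
  have hloc : ∀ w : Place κ L, log (pl w.1 a) ≤
      ((e : ℤ) + 1) * log (vmax w.1 x) + (e : ℤ) * (δ w : ℤ) + (ρ w : ℤ) := by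
    intro w
    obtain ⟨l, hl0, hlmax, -⟩ := exists_vmax w.1 hx0
    have h1 := pl_grow hF w hl0 (by rw [← hlmax]; exact hx w) (fun i => z (σ₁ i))
      (fun i => by rw [← hlmax]; exact hz _ w)
    rw [← hlmax] at h1
    have n1 : pl w.1 a ≠ 0 := pl_ne_zero w.1 hai
    have n2 : vmax w.1 x ≠ 0 := by
      rw [Ne, vmax_eq_zero_iff]
      exact hx0
    have n3 : vmax w.1 x ^ (e + 1) ≠ 0 := pow_ne_zero _ n2
    have n4 : (exp ((e * δ w + ρ w : ℕ) : ℤ) : ℤᵐ⁰) ≠ 0 := exp_ne_zero
    have h2 := (log_le_log n1 (mul_ne_zero n3 n4)).mpr h1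
    rw [log_mul n3 n4, log_pow, log_exp] at h2
    refine h2.trans (le_of_eq ?_)
    rw [nsmul_eq_mul]
    push_cast
    ring
  have s1 := pl_support h hai
  have s2 : (Function.support fun w : Place κ L =>
      ((e : ℤ) + 1) * log (vmax w.1 x)).Finite := by
    refine (h.vmax_support hx0).subset fun w hw h1 => hw ?_
    simp only at h1 ⊢
    rw [h1, mul_zero]
  have s3 : (Function.support fun w : Place κ L => (e : ℤ) * (δ w : ℤ)).Finite := by
    refine hδ.subset fun w hw h1 => hw ?_
    simp only at h1 ⊢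
    rw [h1, Nat.cast_zero, mul_zero]
  have s4 : (Function.support fun w : Place κ L => (ρ w : ℤ)).Finite := by
    refine hρ.subset fun w hw h1 => hw ?_
    simp only at h1 ⊢
    rw [h1, Nat.cast_zero]
  have s23 : (Function.support fun w : Place κ L => ((e : ℤ) + 1) * log (vmax w.1 x) +
      (e : ℤ) * (δ w : ℤ)).Finite := (s2.union s3).subset (Function.support_add _ _)
  have hmain := finsum_mono s1 ((s23.union s4).subset (Function.support_add _ _)) hloc
  rw [finsum_add_distrib s23 s4, finsum_add_distrib s2 s3] at hmain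
  have e1 : ∑ᶠ w : Place κ L, log (pl w.1 a) = ht κ (gspan F z) := by
    rw [← ht_span h hai, has]
  have e2 : ∑ᶠ w : Place κ L, ((e : ℤ) + 1) * log (vmax w.1 x) =
      ((e : ℤ) + 1) * height κ x := (mul_finsum _ _).symm
  have e3 : ∑ᶠ w : Place κ L, (e : ℤ) * (δ w : ℤ) = (e : ℤ) * ∑ᶠ w, (δ w : ℤ) :=
    (mul_finsum _ _).symm
  rw [e1, e2, e3] at hmain
  have h1 := h.height_nonneg hx0
  have h2 : 0 ≤ ∑ᶠ w, (δ w : ℤ) := finsum_nonneg fun w => Int.natCast_nonneg _
  have h3 : (e : ℤ) ≤ r := by exact_mod_cast hen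
  nlinarith [mul_le_mul_of_nonneg_right h3 h1, mul_le_mul_of_nonneg_right h3 h2]

end

end Pool.Agent.Lib.MP_44a246_ntK
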