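import Mathlib
import Pool.Agent.Lib.MP_44a246_ntK.K01
import Pool.Agent.Lib.MP_44a246_ntK.K02
import Pool.Agent.Lib.MP_44a246_ntD.D01

/-!
The data of the height theorem for several forms: the joint rows and the blocks.
-/

namespace Pool.Agent.Lib.MP_44a246_ntK

open Pool.Agent.Lib.MP_44a246_nt
open Pool.Agent.Lib.MP_44a246_ntL
open Pool.Agent.Lib.MP_44a246_ntS
open Pool.Agent.Lib.MP_44a246_ntX
open Pool.Agent.Lib.MP_44a246_ntG
open Pool.Agent.Lib.MP_44a246_ntD
open Pool.Agent.Lib.MP_e52354_nt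
open WithZero Module

/-- A point `x` (normalised by `∑ ξ₀ j x j = 1`), forms of degrees `d j` with coefficients `a j`,
derivations `D (j, I)` dual to all the coefficients, constants `z` and derivations `E` dual to `z`
which kill `x`. -/
structure DatC (κ : Type*) {L : Type*} [Field κ] [Field L] [Algebra κ L] (n : ℕ) {p : ℕ}
    (d : Fin p → ℕ) where
  a : Fin p → (Fin (n + 1) →₀ ℕ) → L
  D : Fin p × (Fin (n + 1) →₀ ℕ) → Derivation ℤ L L
  δ : Place κ L → ℕ
  ρ : Place κ L → ℕ
  x : Fin (n + 1) → L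
  z : Fin (n + 1) → κ
  E : Fin (n + 1) → Derivation ℤ L L
  ξ₀ : Fin (n + 1) → ℕ
  ξ₁ : Fin (n + 1) → ℕ
  hDa : ∀ s, s.2 ∈ expo (Fin (n + 1)) (d s.1) → ∀ s', s'.2 ∈ expo (Fin (n + 1)) (d s'.1) →
    D s (a s'.1 s'.2) = if s = s' then 1 else 0
  hδ : (Function.support δ).Finite
  hρ : (Function.support ρ).Finite
  hD : MinorBound κ D {s | s.2 ∈ expo (Fin (n + 1)) (d s.1)} δ ρ
  hE : ∀ j, PoleBound κ (E j) δ
  hEz : ∀ i j, E i (algebraMap κ L (z j)) = if i = j then 1 else 0
  hEx : ∀ i j, E i (x j) = 0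
  h0 : ∑ j, (ξ₀ j : L) * x j = 1
  hmax : ∀ w : Place κ L, vmax w.1 x ≤ max 1 (w.1 (∑ j, (ξ₁ j : L) * x j))

namespace DatC

section

variable {κ L : Type*} [Field κ] [Field L] [Algebra κ L] {n p : ℕ} {d : Fin p → ℕ}
  (X : DatC κ (L := L) n d)

/-- the data of a block -/
noncomputable def blk (j : Fin p) : DatG κ (L := L) n (d j) where
  a := X.a j
  D := fun I => X.D (j, I)
  δ := X.δ
  ρ := X.ρ
  x := X.x
  z := X.z
  E := X.E
  ξ₀ := X.ξ₀
  ξ₁ := X.ξ₁
  hDa := fun I hI J hJ => by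
    rw [X.hDa (j, I) hI (j, J) hJ]
    refine if_congr ?_ rfl rfl
    rw [Prod.mk.injEq]
    exact ⟨fun h => h.2, fun h => ⟨rfl, h⟩⟩
  hδ := X.hδ
  hρ := X.hρ
  hD := fun w m K c hK hc => X.hD w m (fun i => (j, K i)) c hK hc
  hE := X.hE
  hEz := X.hEz
  hEx := X.hEx
  h0 := X.h0
  hmax := X.hmax

/-- the size of the poles -/
noncomputable def Δ : ℤ := ∑ᶠ w, (X.δ w : ℤ)

/-- the size of the ramification -/
noncomputable def R : ℤ := ∑ᶠ w, (X.ρ w : ℤ)

theorem Δ_nonneg : 0 ≤ X.Δ := by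
  unfold Δ
  exact finsum_nonneg fun w => Int.natCast_nonneg _

theorem R_nonneg : 0 ≤ X.R := by
  unfold R
  exact finsum_nonneg fun w => Int.natCast_nonneg _

/-- the value of the `j`-th form at the point -/
noncomputable def v (j : Fin p) : L := Fval (d j) (X.a j) X.x

/-- the point of the plane -/
noncomputable def pt : Fin 3 → L := ![1, ∑ j, (X.ξ₁ j : L) * X.x j,
  ∑ j, algebraMap κ L (X.z j) * X.x j]

theorem blk_p (j : Fin p) : (X.blk j).p = X.pt := rfl

theorem blk_v (j : Fin p) : (X.blk j).v = X.v j := rfl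

theorem blk_x (j : Fin p) : (X.blk j).x = X.x := rfl

/-- the combinations of the derivations, for all blocks -/
noncomputable def jF : (Σ j : Fin p, M3 (d j)) → Derivation ℤ L L := fun s => (X.blk s.1).DK s.2

/-- the minors of the combinations of the derivations -/
theorem jF_minor : MinorBound κ X.jF Set.univ X.δ X.ρ := by
  classical
  intro w m K c _ hc
  have h1 : (Matrix.of fun i j => X.jF (K i) (c j)).det =
      (Matrix.detRowAlternating (R := L) (n := Fin m)).toMultilinearMap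
        (fun i => ∑ I ∈ expo (Fin (n + 1)) (d (K i).1),
          algebraMap κ L (((X.blk (K i).1).Kf (K i).2).coeff I) •
            (fun j => X.D ((K i).1, I) (c j))) := by
    change Matrix.det _ = Matrix.det _
    congr 1
    ext i j
    rw [Matrix.of_apply, jF, DatG.DK_apply, Finset.sum_apply]
    rfl
  rw [h1, MultilinearMap.map_sum_finset]
  refine Valuation.map_sum_le w.1 fun r hr => ?_
  rw [Fintype.mem_piFinset] at hr
  rw [MultilinearMap.map_smul_univ, smul_eq_mul, map_mul, map_prod]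
  have h2 : ∏ i, w.1 (algebraMap κ L (((X.blk (K i).1).Kf (K i).2).coeff (r i))) ≤ 1 := by
    refine Finset.prod_le_one' fun i _ => ?_
    by_cases h : ((X.blk (K i).1).Kf (K i).2).coeff (r i) = 0
    · rw [h, map_zero, map_zero]; exact zero_le
    · exact (w.2.2 _ h).le
  have h3 : w.1 ((Matrix.detRowAlternating (R := L) (n := Fin m)).toMultilinearMap
      (fun i => fun j => X.D ((K i).1, r i) (c j))) ≤ exp ((m * X.δ w + X.ρ w : ℕ) : ℤ) :=
    X.hD w m (fun i => ((K i).1, r i)) c (fun i => hr i) hc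
  calc _ ≤ 1 * exp ((m * X.δ w + X.ρ w : ℕ) : ℤ) := mul_le_mul' h2 h3
    _ = _ := one_mul _

open Classical in
/-- the vector of the monomials in a block -/
noncomputable def xiB (j : Fin p) : (Σ j : Fin p, M3 (d j)) → L :=
  fun s => if s.1 = j then xi (d s.1) X.pt s.2 else 0

/-- the basic relation -/
theorem xiB_eq (j : Fin p) : X.xiB j = grow X.jF (X.v j) -
    ∑ l, grad (d j) (X.a j) X.x l • grow X.jF (X.x l) := by
  classical
  funext s
  obtain ⟨i, K⟩ := s
  rw [Pi.sub_apply, Finset.sum_apply]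
  simp only [Pi.smul_apply, smul_eq_mul]
  have h1 := D_Fval (d j) (X.a j) (X.jF ⟨i, K⟩) X.x
  have h2 : ∑ J ∈ expo (Fin (n + 1)) (d j), X.jF ⟨i, K⟩ (X.a j J) * mon X.x J =
      X.xiB j ⟨i, K⟩ := by
    have h3 : ∀ J ∈ expo (Fin (n + 1)) (d j), X.jF ⟨i, K⟩ (X.a j J) =
        if i = j then algebraMap κ L (((X.blk i).Kf K).coeff J) else 0 := by
      intro J hJ
      rw [jF, DatG.DK_apply]
      rcases eq_or_ne i j with rfl | hij
      · rw [if_pos rfl, Finset.sum_eq_single J]
        · have h4 : (X.blk i).D J (X.a i J) = 1 := by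
            have h5 := X.hDa (i, J) hJ (i, J) hJ
            rw [if_pos rfl] at h5
            exact h5
          rw [h4, mul_one]
        · intro I hI hIJ
          have h4 : (X.blk i).D I (X.a i J) = 0 := by
            have h5 := X.hDa (i, I) hI (i, J) hJ
            rw [if_neg (fun h => hIJ (Prod.mk.injEq _ _ _ _ ▸ h).2)] at h5
            exact h5
          rw [h4, mul_zero]
        · intro h
          exact absurd hJ h
      · rw [if_neg hij]
        refine Finset.sum_eq_zero fun I hI => ?_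
        have h4 : (X.blk i).D I (X.a j J) = 0 := by
          have h5 := X.hDa (i, I) hI (j, J) hJ
          rw [if_neg (fun h => hij (Prod.mk.injEq _ _ _ _ ▸ h).1)] at h5
          exact h5
        rw [h4, mul_zero]
    rw [Finset.sum_congr rfl fun J hJ => by rw [h3 J hJ]]
    unfold xiB
    rcases eq_or_ne i j with rfl | hij
    · simp only [if_true]
      exact (X.blk i).Kf_eval' K
    · simp only [if_neg hij, zero_mul, Finset.sum_const_zero]
  rw [h2] at h1
  change X.xiB j ⟨i, K⟩ = X.jF ⟨i, K⟩ (Fval (d j) (X.a j) X.x) - _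
  rw [h1]
  unfold grow
  ring

theorem xiB_mem {V : Submodule L ((Σ j : Fin p, M3 (d j)) → L)} {j : Fin p}
    (hx : ∀ l, grow X.jF (X.x l) ∈ V) (hv : grow X.jF (X.v j) ∈ V) : X.xiB j ∈ V := by
  rw [X.xiB_eq j]
  exact V.sub_mem hv (V.sum_mem fun l _ => V.smul_mem _ (hx l))

theorem xi_mem_piece {V : Submodule L ((Σ j : Fin p, M3 (d j)) → L)} {j : Fin p}
    (h : X.xiB j ∈ V) : xi (d j) X.pt ∈ piece κ V j := by
  have h1 := mem_piece (κ := κ) (j := j) h fun s hs => by
    unfold xiB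
    rw [if_neg hs]
  have h2 : (fun i : M3 (d j) => X.xiB j ⟨j, i⟩) = xi (d j) X.pt := by
    funext i
    unfold xiB
    rw [if_pos rfl]
  rwa [h2] at h1

/-- the restriction to a block -/
noncomputable def res (L : Type*) [Field L] {p : ℕ} {d : Fin p → ℕ} (j : Fin p) :
    ((Σ j : Fin p, M3 (d j)) → L) →ₗ[L] (M3 (d j) → L) :=
  LinearMap.funLeft L L (fun K => (⟨j, K⟩ : Σ j : Fin p, M3 (d j)))

theorem res_grow (j : Fin p) (c : L) : res L j (grow X.jF c) = (X.blk j).row c := rfl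

theorem map_gspan {γ : Type*} (z : γ → L) (j : Fin p) :
    (gspan X.jF z).map (res L j) = Submodule.span L (Set.range fun t => (X.blk j).row (z t)) := by
  unfold gspan
  rw [Submodule.map_span, ← Set.range_comp]
  rfl

theorem gspan_sum {γ : Type*} (β : γ → L) :
    gspan X.jF (Sum.elim X.x β) = gspan X.jF X.x ⊔ gspan X.jF β := by
  unfold gspan
  rw [← Submodule.span_union]
  congr 1
  ext y
  constructor
  · rintro ⟨j | t, rfl⟩
    · exact Or.inl ⟨j, rfl⟩
    · exact Or.inr ⟨t, rfl⟩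
  · rintro (⟨j, rfl⟩ | ⟨t, rfl⟩)
    · exact ⟨Sum.inl j, rfl⟩
    · exact ⟨Sum.inr t, rfl⟩

theorem row_mem_blk {γ : Type*} {β : γ → L} {j : Fin p} {c : L}
    (h : grow X.jF c ∈ gspan X.jF (Sum.elim X.x β)) :
    (X.blk j).row c ∈ (X.blk j).Ux ⊔ RB (X.blk j) β := by
  have h1 : res L j (grow X.jF c) ∈ (gspan X.jF (Sum.elim X.x β)).map (res L j) := ⟨_, h, rfl⟩
  rw [X.gspan_sum, Submodule.map_sup, X.map_gspan, X.map_gspan] at h1
  exact h1

theorem finrank_blk_Ux (j : Fin p) :
    finrank L (X.blk j).Ux ≤ finrank L (gspan X.jF X.x) := by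
  have h1 : (X.blk j).Ux = (gspan X.jF X.x).map (res L j) := by
    rw [X.map_gspan]
    rfl
  rw [h1]
  exact Submodule.finrank_map_le _ _

theorem finrank_gspan_sum {γ : Type*} [Fintype γ] {β : γ → L} {r r₀ : ℕ}
    (h1 : finrank L (gspan X.jF X.x) ≤ r₀) (h2 : r₀ + Fintype.card γ ≤ r) :
    finrank L (gspan X.jF (Sum.elim X.x β)) ≤ r := by
  rw [X.gspan_sum]
  have h3 := Submodule.finrank_add_le_finrank_add_finrank (gspan X.jF X.x) (gspan X.jF β)
  have h4 : finrank L (gspan X.jF β) ≤ Fintype.card γ := finrank_range_le_card _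
  omega

end

end DatC

end Pool.Agent.Lib.MP_44a246_ntK
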