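import Mathlib
import Pool.Agent.Lib.MP_44a246_ntU.U20
import Pool.Agent.Lib.MP_44a246_ntU.U22
import Pool.Agent.Lib.MP_44a246_ntK.K08

/-!
The data over the base field and over finite extensions, for several forms.
-/

namespace Pool.Agent.Lib.MP_44a246_ntK

open Pool.Agent.Lib.MP_44a246_nt
open Pool.Agent.Lib.MP_44a246_ntL
open Pool.Agent.Lib.MP_44a246_ntV
open Pool.Agent.Lib.MP_44a246_ntS
open Pool.Agent.Lib.MP_44a246_ntX
open Pool.Agent.Lib.MP_44a246_ntG
open Pool.Agent.Lib.MP_e52354_nt
open WithZero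

universe u v w

/-- the data over the base field: derivations `D s` dual to the elements `a s`, `s ∈ S`, and an
infinite family of constants `z` with dual derivations `E`, all with poles bounded by `B` -/
structure BaseS (κ : Type u) (K : Type v) [Field κ] [Field K] [Algebra κ K] {σ : Type*}
    [DecidableEq σ] (S : Finset σ) where
  a : σ → K
  D : σ → Derivation ℤ K K
  B : Place κ K → ℕ
  β : Type u
  z : β → κ
  E : β → Derivation ℤ K K
  hDa : ∀ s ∈ S, ∀ s' ∈ S, D s (a s') = if s = s' then 1 else 0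
  hB : (Function.support B).Finite
  hD : ∀ s ∈ S, PoleBound κ (D s) B
  hE : ∀ b, PoleBound κ (E b) B
  hEz : ∀ b b', (b = b' → E b (algebraMap κ K (z b')) = 1) ∧
    (b ≠ b' → E b (algebraMap κ K (z b')) = 0)
  hfin : ∀ y : K, {b | E b y ≠ 0}.Finite
  hinf : Infinite β

/-- **Existence of the data over the base field**, with derivations which kill a subfield `k` of
finite transcendence degree. -/
theorem exists_baseS {κ : Type u} {K : Type v} [Field κ] [IsAlgClosed κ] [CharZero κ] [Field K]
    [CharZero K] [Algebra κ K] (hK : IsFF κ K) (htr : Cardinal.aleph0 ≤ Algebra.trdeg ℚ κ)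
    {k : Type*} [Field k] [CharZero k] [Algebra k K]
    (hk : Algebra.trdeg ℚ k < Cardinal.aleph0) {σ : Type*} [DecidableEq σ] {S : Finset σ}
    {a : σ → K} (ha : AlgebraicIndependent k (fun I : ↥S => a I.1)) :
    ∃ X : BaseS κ K S, X.a = a ∧ ∀ I ∈ S, ∀ c : k, X.D I (algebraMap k K c) = 0 := by
  classical
  obtain ⟨t, ht, hfin⟩ := hK
  have hsct : IsScalarTower ℚ κ K := inferInstance
  have hsct' : IsScalarTower ℚ k K := inferInstance
  -- a finite transcendence basis of `k`
  obtain ⟨ι, c, hc⟩ := exists_isTranscendenceBasis' ℚ k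
  have hι : Finite ι := by
    rw [← Cardinal.lt_aleph0_iff_finite]
    have h1 := hc.lift_cardinalMk_eq_trdeg
    rw [Cardinal.lift_id, Cardinal.lift_id] at h1
    rw [h1]
    exact hk
  have : Fintype ι := Fintype.ofFinite ι
  have hind : AlgebraicIndependent ℚ
      (Sum.elim (fun I : ↥S => a I.1) (algebraMap k K ∘ c)) :=
    hc.1.sumElim_comp ha
  obtain ⟨T, iT, z1, E1, DK, B₁, A, hB₁, hA, hPD, hPE1, hPa, hPz, hD, hDz, hEa, hEz1, hcomm,
    hcommE, hgen⟩ := exists_setupV (k₀ := ℚ) ht hfin hind
  obtain ⟨β, iβ, z, F, B₂, hB₂, hzc, hzalg, hF, hPF, -⟩ :=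
    exists_basis_bound (k₀ := ℚ) ht hfin (∅ : Finset K)
  have hzinj : Function.Injective z := by
    intro b b' hbb
    have h1 := hF b b
    rw [hbb, hF, if_pos rfl] at h1
    by_contra hne
    rw [if_neg hne] at h1
    exact zero_ne_one h1
  let β' : Type u := {b : β // ∃ u : κ, z b = algebraMap κ K u}
  choose zz hzz using fun b : β' => b.2
  let B : Place κ K → ℕ := fun v => B₁ v + B₂ v
  have hB : (Function.support B).Finite := by
    refine (hB₁.union hB₂).subset fun v hv => ?_
    by_contra hcon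
    rw [Set.mem_union, not_or, Function.mem_support, Function.mem_support, not_not, not_not] at hcon
    apply hv
    show B₁ v + B₂ v = 0
    rw [hcon.1, hcon.2, add_zero]
  have hup1 : ∀ {D : Derivation ℤ K K}, PoleBound κ D B₁ → PoleBound κ D B := by
    intro D h v y hy
    refine (h v y hy).trans (exp_le_exp.mpr ?_)
    show (B₁ v : ℤ) ≤ ((B₁ v + B₂ v : ℕ) : ℤ)
    push_cast
    have : (0 : ℤ) ≤ B₂ v := Int.natCast_nonneg _
    linarith
  have hup2 : ∀ {D : Derivation ℤ K K}, PoleBound κ D B₂ → PoleBound κ D B := by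
    intro D h v y hy
    refine (h v y hy).trans (exp_le_exp.mpr ?_)
    show (B₂ v : ℤ) ≤ ((B₁ v + B₂ v : ℕ) : ℤ)
    push_cast
    have : (0 : ℤ) ≤ B₁ v := Int.natCast_nonneg _
    linarith
  have hfiny : ∀ y : K, {b : β | F b y ≠ 0}.Finite := by
    intro y
    obtain ⟨S, hS, hy⟩ := exists_finset_isAlgebraic (hzalg.isAlgebraic y)
    refine (S.finite_toSet.preimage hzinj.injOn).subset fun b hb => ?_
    rw [Set.mem_preimage]
    by_contra hn
    apply hb
    refine der_eq_zero (V := K) (F b) (S : Set K) ?_ hy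
    intro s hs
    obtain ⟨b', rfl⟩ := hS hs
    rw [hF, if_neg]
    rintro rfl
    exact hn hs
  have hinf : Infinite β := infinite_basis htr hzalg
  have hinf' : Infinite β' := by
    have hsub : {b : β | ¬ ∃ u : κ, z b = algebraMap κ K u}.Finite := by
      refine Set.Subsingleton.finite ?_
      intro b hb b' hb'
      have h1 : z b = t := (hzc b).resolve_right hb
      have h2 : z b' = t := (hzc b').resolve_right hb'
      exact hzinj (h1.trans h2.symm)
    have h3 : {b : β | ∃ u : κ, z b = algebraMap κ K u}.Infinite := by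
      have := hsub.infinite_compl
      convert this using 1
      ext b
      simp
    exact h3.to_subtype
  -- the derivations `DK (inl I)` kill `k`
  have hDk : ∀ (I : ↥S) (u : k), DK (Sum.inl I) (algebraMap k K u) = 0 := by
    intro I u
    have hu : IsAlgebraic (IntermediateField.adjoin ℚ (Set.range c)) u :=
      hc.isAlgebraic_field.isAlgebraic u
    have h1 := der_eq_zero (V := K) ((DK (Sum.inl I)).compAlgebraMap k) (Set.range c) ?_ hu
    · exact h1
    · rintro _ ⟨i, rfl⟩
      have h2 := hD (Sum.inl I) (Sum.inr i)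
      rw [if_neg (by simp)] at h2
      exact h2
  refine ⟨{
    a := a
    D := fun I => if h : I ∈ S then derZ (DK (Sum.inl ⟨I, h⟩)) else 0
    B := B
    β := β'
    z := zz
    E := fun b => derZ (F b.1)
    hDa := ?_
    hB := hB
    hD := ?_
    hE := ?_
    hEz := ?_
    hfin := ?_
    hinf := hinf' }, rfl, ?_⟩
  · intro I hI J hJ
    rw [dif_pos hI]
    show DK (Sum.inl ⟨I, hI⟩) (a J) = _
    have h1 := hD (Sum.inl ⟨I, hI⟩) (Sum.inl ⟨J, hJ⟩)
    refine h1.trans (if_congr ?_ rfl rfl)
    rw [Sum.inl.injEq, Subtype.mk.injEq]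
  · intro I hI
    rw [dif_pos hI]
    exact hup1 (hPD _)
  · intro b
    exact hup2 (hPF _)
  · intro b b'
    have h1 : derZ (F b.1) (algebraMap κ K (zz b')) = if b.1 = b'.1 then 1 else 0 := by
      rw [← hzz b']
      exact hF _ _
    constructor
    · rintro rfl
      rw [h1, if_pos rfl]
    · intro hne
      rw [h1, if_neg]
      intro h
      exact hne (Subtype.ext h)
  · intro y
    exact (hfiny y).preimage Subtype.val_injective.injOn
  · intro I hI u
    show (if h : I ∈ S then derZ (DK (Sum.inl ⟨I, h⟩)) else 0) (algebraMap k K u) = 0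
    rw [dif_pos hI]
    exact hDk ⟨I, hI⟩ u

section

variable {κ : Type u} {K : Type v} [Field κ] [IsAlgClosed κ] [CharZero κ] [Field K] [CharZero K]
  [Algebra κ K] {σ : Type*} [DecidableEq σ] {S : Finset σ} (X : BaseS κ K S)
  {L : Type w} [Field L] [Algebra K L] [FiniteDimensional K L] [Algebra κ L]
  [IsScalarTower κ K L]

omit [IsAlgClosed κ] [CharZero κ] [Algebra κ L] [IsScalarTower κ K L] in
/-- only finitely many of the derivations `E` act nontrivially on a given element -/
theorem finite_movingS (E' : X.β → Derivation ℤ L L)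
    (hE' : ∀ b y, E' b (algebraMap K L y) = algebraMap K L (X.E b y)) (y : L) :
    {b | E' b y ≠ 0}.Finite := by
  have hint : IsIntegral K y := Algebra.IsIntegral.isIntegral y
  have hsep : (minpoly K y).Separable := (minpoly.irreducible hint).separable
  refine ((Finset.range ((minpoly K y).natDegree + 1)).finite_toSet.biUnion
    fun i _ => X.hfin ((minpoly K y).coeff i)).subset ?_
  intro b hb
  by_contra hnb
  apply hb
  have h0 : ∀ i, X.E b ((minpoly K y).coeff i) = 0 := by
    intro i
    by_contra hne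
    refine hnb (Set.mem_biUnion (x := i) ?_ hne)
    by_contra hi
    have hi' : (minpoly K y).natDegree < i := by
      simp only [Finset.coe_range, Set.mem_Iio, not_lt] at hi
      omega
    exact hne (by rw [Polynomial.coeff_eq_zero_of_natDegree_lt hi', map_zero])
  have h1 : (X.E b).mapCoeffs (minpoly K y) = 0 := by
    ext i
    exact h0 i
  have h2 := Derivation.apply_aeval_eq' (X.E b) (E' b) (Algebra.linearMap K L)
    (fun a => (hE' b a).symm) y (minpoly K y)
  rw [h1, minpoly.aeval, map_zero, map_zero, map_zero, zero_add] at h2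
  rcases smul_eq_zero.1 h2.symm with h3 | h3
  · exact absurd h3 (hsep.aeval_derivative_ne_zero (minpoly.aeval K y))
  · exact h3

/-- outside of a finite set, the derivations `E b` have no additional poles over a finite
extension -/
theorem finite_poleS (hK : IsFF κ K) {E' : X.β → Derivation ℤ L L}
    (hE' : ∀ b y, E' b (algebraMap K L y) = algebraMap K L (X.E b y)) :
    {b | ¬ PoleBound κ (E' b) (fun w : Place κ L => ramIdx K w.1 * X.B (below K w))}.Finite := by
  classical
  have hL : IsFF κ L := hK.of_finite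
  have hfin : {w : Place κ L | ramIdx K w.1 ≠ 1}.Finite := hL.ramIdx_finite (K := K)
  choose τ hτ hwτ using fun w : Place κ L => below_uniformizer (K := K) w
  refine (hfin.biUnion fun w _ => X.hfin (τ w)).subset ?_
  intro b hb
  by_contra hcon
  apply hb
  intro w y hy
  by_cases hw : ramIdx K w.1 = 1
  · have h1 := polar_over (K := K) hL (hE' b) (X.hE b) w hy
    rwa [hw, Nat.sub_self, add_zero, ← hw] at h1
  · refine pole_kill hK (X.hE b) (hE' b) w (hwτ w) ?_ hy
    by_contra hne
    exact hcon (Set.mem_biUnion (show w ∈ {w : Place κ L | ramIdx K w.1 ≠ 1} from hw) hne)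

end

/-- the index set of the coefficients of several forms -/
def jexpo (n : ℕ) {p : ℕ} (d : Fin p → ℕ) : Finset (Fin p × (Fin (n + 1) →₀ ℕ)) :=
  (Finset.univ.sigma fun j => expo (Fin (n + 1)) (d j)).map
    (Equiv.sigmaEquivProd (Fin p) (Fin (n + 1) →₀ ℕ)).toEmbedding

theorem mem_jexpo {n p : ℕ} {d : Fin p → ℕ} {s : Fin p × (Fin (n + 1) →₀ ℕ)} :
    s ∈ jexpo n d ↔ s.2 ∈ expo (Fin (n + 1)) (d s.1) := by
  unfold jexpo
  rw [Finset.mem_map]
  constructor
  · rintro ⟨⟨j, I⟩, h1, rfl⟩
    rw [Finset.mem_sigma] at h1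
    exact h1.2
  · intro h
    refine ⟨⟨s.1, s.2⟩, ?_, rfl⟩
    rw [Finset.mem_sigma]
    exact ⟨Finset.mem_univ _, h⟩

section

variable {κ : Type u} {K : Type v} [Field κ] [IsAlgClosed κ] [CharZero κ] [Field K] [CharZero K]
  [Algebra κ K] {n p : ℕ} {d : Fin p → ℕ} (X : BaseS κ K (jexpo n d))
  {L : Type w} [Field L] [Algebra K L] [FiniteDimensional K L] [Algebra κ L]
  [IsScalarTower κ K L]

private theorem k10_vmax {L : Type*} [Field L] (v : Valuation L ℤᵐ⁰) {σ : Type*} [Fintype σ] (c : L)
    (x : σ → L) : vmax v (fun j => c * x j) ≤ v c * vmax v x := by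
  refine vmax_le v fun j => ?_
  rw [map_mul]
  exact mul_le_mul' le_rfl (le_vmax v x j)

/-- **The data over a finite extension**, for an arbitrary point. -/
theorem exists_datC (hK : IsFF κ K) {x : Fin (n + 1) → L} (hx : x ≠ 0) :
    ∃ (Y : DatC κ (L := L) n d) (c : L), c ≠ 0 ∧
      Y.a = (fun j I => algebraMap K L (X.a (j, I))) ∧ Y.x = (fun j => c * x j) ∧
      (Y.δ = fun w => ramIdx K w.1 * X.B (below K w)) ∧ (Y.ρ = fun w => ramIdx K w.1 - 1) ∧
      ∀ s y, Y.D s (algebraMap K L y) = algebraMap K L (X.D s y) := by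
  classical
  have hL : IsFF κ L := hK.of_finite
  obtain ⟨ξ₀, ξ₁, h0, h1⟩ := exists_forms hL hx
  choose D' hD' using fun I => exists_extension (L := L) (X.D I)
  choose E' hE' using fun b => exists_extension (L := L) (X.E b)
  set s : L := ∑ j, (ξ₀ j : L) * x j with hs
  have hfin0 : (⋃ j : Fin (n + 1), {b | E' b (s⁻¹ * x j) ≠ 0}).Finite :=
    Set.finite_iUnion fun j => finite_movingS X E' hE' (s⁻¹ * x j)
  have hfin := hfin0.union (finite_poleS X hK hE')
  have := X.hinf
  let e : ℕ ↪ ↥((⋃ j : Fin (n + 1), {b | E' b (s⁻¹ * x j) ≠ 0}) ∪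
    {b | ¬ PoleBound κ (E' b) (fun w : Place κ L => ramIdx K w.1 * X.B (below K w))})ᶜ :=
    hfin.infinite_compl.natEmbedding
  have hker : ∀ (m : ℕ) (j : Fin (n + 1)), E' (e m).1 (s⁻¹ * x j) = 0 := by
    intro m j
    have h2 := (e m).2
    rw [Set.mem_compl_iff, Set.mem_union, not_or, Set.mem_iUnion, not_exists] at h2
    have h3 := h2.1 j
    exact not_not.mp h3
  have hpole : ∀ m : ℕ, PoleBound κ (E' (e m).1)
      (fun w : Place κ L => ramIdx K w.1 * X.B (below K w)) := by
    intro m
    have h2 := (e m).2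
    rw [Set.mem_compl_iff, Set.mem_union, not_or] at h2
    exact not_not.mp h2.2
  have hext : ∀ i j : ℕ, (e i).1 = (e j).1 → i = j := fun i j h2 => e.injective (Subtype.ext h2)
  have hsum : ∀ ξ : Fin (n + 1) → ℕ, ∑ j, (ξ j : L) * (s⁻¹ * x j) = s⁻¹ * ∑ j, (ξ j : L) * x j := by
    intro ξ
    rw [Finset.mul_sum]
    exact Finset.sum_congr rfl fun j _ => by ring
  have hfs1 : (Function.support fun w : Place κ L => ramIdx K w.1 * X.B (below K w)).Finite := by
    refine (mason_sum_over (L := L) hL X.hB).1.subset ?_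
    intro w hw
    rw [Function.mem_support] at hw ⊢
    exact_mod_cast hw
  have hfs2 : (Function.support fun w : Place κ L => ramIdx K w.1 - 1).Finite := by
    refine (mason_sum_ram (K := K) hL).1.subset ?_
    intro w hw
    rw [Function.mem_support] at hw ⊢
    exact_mod_cast hw
  refine ⟨{ a := fun j I => algebraMap K L (X.a (j, I))
            D := D'
            δ := fun w => ramIdx K w.1 * X.B (below K w)
            ρ := fun w => ramIdx K w.1 - 1
            x := fun j => s⁻¹ * x j
            z := fun j => X.z (e j).1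
            E := fun j => E' (e j).1
            ξ₀ := ξ₀
            ξ₁ := ξ₁
            hDa := ?_
            hδ := hfs1
            hρ := hfs2
            hD := minor_over hK (fun I hI => X.hD I (mem_jexpo.2 hI)) hD'
            hE := fun j => hpole j
            hEz := ?_
            hEx := fun i j => hker i j
            h0 := ?_
            hmax := ?_ }, s⁻¹, inv_ne_zero h0, rfl, rfl, rfl, rfl, hD'⟩
  · intro I hI J hJ
    rw [hD']
    have h2 := X.hDa I (mem_jexpo.2 hI) J (mem_jexpo.2 hJ)
    change algebraMap K L (X.D I (X.a J)) = _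
    rw [h2]
    split_ifs <;> simp
  · intro i j
    rw [IsScalarTower.algebraMap_apply κ K L, hE']
    by_cases hij : i = j
    · rw [if_pos hij, hij, (X.hEz _ _).1 rfl, map_one]
    · rw [if_neg hij, (X.hEz _ _).2 (fun h2 => hij (Fin.ext (hext _ _ h2))), map_zero]
  · rw [hsum, ← hs, inv_mul_cancel₀ h0]
  · intro w
    rw [hsum]
    have h2 : w.1 s ≠ 0 := (Valuation.ne_zero_iff _).mpr h0
    refine (k10_vmax w.1 s⁻¹ x).trans ?_
    rw [map_mul, map_inv₀]
    calc (w.1 s)⁻¹ * vmax w.1 x ≤ (w.1 s)⁻¹ * max (w.1 s) (w.1 (∑ j, (ξ₁ j : L) * x j)) :=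
          mul_le_mul' le_rfl (h1 w)
      _ = max 1 ((w.1 s)⁻¹ * w.1 (∑ j, (ξ₁ j : L) * x j)) := by
          rw [mul_max, inv_mul_cancel₀ h2]

end

end Pool.Agent.Lib.MP_44a246_ntK
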