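import Mathlib
import Pool.Agent.Lib.MP_44a246_ntQ.Q01
import Pool.Agent.Lib.MP_44a246_ntQ.Q02
import Pool.Agent.Lib.MP_44a246_ntU.U02
import Pool.Agent.Lib.MP_44a246_ntU.U04

/-!
Weighted homogeneous polynomials in `t_1, ..., t_p` (of weights `d_1, ..., d_p`) and
`x_0, ..., x_n` (of weight one), and their values at `t_j = H_j (x)` for forms `H_j` of degree
`d_j`.
-/

namespace Pool.Agent.Lib.MP_44a246_ntK

open Pool.Agent.Lib.MP_44a246_ntQ
open Pool.Agent.Lib.MP_44a246_ntU
open Pool.Agent.Lib.MP_e52354_nt
open MvPolynomial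

/-- the weights of the variables `t_j, x_0, ..., x_n` -/
def wtP {p : ℕ} (n : ℕ) (d : Fin p → ℕ) : Fin p ⊕ Fin n → ℕ := Sum.elim d fun _ => 1

section

variable {k L : Type*} [Field k] [Field L] [Algebra k L] {n p : ℕ}

/-- the form `f (H (x), x)` -/
noncomputable def substP (d : Fin p → ℕ) (a : Fin p → (Fin n →₀ ℕ) → L)
    (f : MvPolynomial (Fin p ⊕ Fin n) k) : MvPolynomial (Fin n) L :=
  aeval (Sum.elim (fun j => formOf (d j) (a j)) (fun l => X l) :
    Fin p ⊕ Fin n → MvPolynomial (Fin n) L) f

/-- the coefficients of the form `f (H (x), x)` -/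
noncomputable def aWP {ι : Type*} (d : Fin p → ℕ) (a : Fin p → (Fin n →₀ ℕ) → L)
    (f : ι → MvPolynomial (Fin p ⊕ Fin n) k) : ι → (Fin n →₀ ℕ) → L :=
  fun i J => (substP d a (f i)).coeff J

/-- scaling -/
theorem aeval_scaleP {k B : Type*} [Field k] [CommRing B] [Algebra k B] {n p e : ℕ} {d : Fin p → ℕ}
    {f : MvPolynomial (Fin p ⊕ Fin n) k} (hf : f.IsWeightedHomogeneous (wtP n d) e) (c : B)
    (v : Fin p → B) (x : Fin n → B) :
    aeval (Sum.elim (fun j => c ^ d j * v j) (fun l => c * x l) : Fin p ⊕ Fin n → B) f =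
      c ^ e * aeval (Sum.elim v x : Fin p ⊕ Fin n → B) f := by
  rw [aeval_def, aeval_def, eval₂_eq', eval₂_eq', Finset.mul_sum]
  refine Finset.sum_congr rfl fun I hI => ?_
  have h1 := hf (mem_support_iff.1 hI)
  rw [Finsupp.weight_apply, Finsupp.sum_fintype _ _ (by simp), Fintype.sum_sum_type] at h1
  simp only [wtP, Sum.elim_inl, Sum.elim_inr, smul_eq_mul, mul_one] at h1
  rw [Fintype.prod_sum_type, Fintype.prod_sum_type]
  simp only [Sum.elim_inl, Sum.elim_inr, mul_pow, Finset.prod_mul_distrib,
    Finset.prod_pow_eq_pow_sum, ← pow_mul]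
  rw [← h1, pow_add]
  have h2 : ∑ j, d j * I (Sum.inl j) = ∑ j, I (Sum.inl j) * d j :=
    Finset.sum_congr rfl fun j _ => mul_comm _ _
  rw [h2]
  ring

theorem substP_hom {e : ℕ} {d : Fin p → ℕ} {a : Fin p → (Fin n →₀ ℕ) → L}
    {f : MvPolynomial (Fin p ⊕ Fin n) k} (hf : f.IsWeightedHomogeneous (wtP n d) e) :
    (substP d a f).IsHomogeneous e := by
  unfold substP
  rw [aeval_def, eval₂_eq']
  refine IsHomogeneous.sum _ _ _ fun I hI => ?_
  have h1 := hf (mem_support_iff.1 hI)
  rw [Finsupp.weight_apply, Finsupp.sum_fintype _ _ (by simp), Fintype.sum_sum_type] at h1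
  simp only [wtP, Sum.elim_inl, Sum.elim_inr, smul_eq_mul, mul_one] at h1
  rw [Fintype.prod_sum_type]
  simp only [Sum.elim_inl, Sum.elim_inr]
  have h2 : (∏ j : Fin p, formOf (d j) (a j) ^ I (Sum.inl j)).IsHomogeneous
      (∑ j : Fin p, I (Sum.inl j) * d j) := by
    refine IsHomogeneous.prod _ _ _ fun j _ => ?_
    have := (formOf_hom (d j) (a j)).pow (I (Sum.inl j))
    rwa [mul_comm] at this
  have h3 : (∏ j : Fin n, (X j : MvPolynomial (Fin n) L) ^ I (Sum.inr j)).IsHomogeneous
      (∑ j : Fin n, I (Sum.inr j)) := by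
    refine IsHomogeneous.prod _ _ _ fun j _ => ?_
    have := (isHomogeneous_X L j).pow (I (Sum.inr j))
    rwa [one_mul] at this
  have h4 : (algebraMap k (MvPolynomial (Fin n) L) (f.coeff I)).IsHomogeneous 0 := by
    rw [IsScalarTower.algebraMap_apply k L (MvPolynomial (Fin n) L)]
    exact isHomogeneous_C _ _
  have h5 := h4.mul (h2.mul h3)
  rw [zero_add, h1] at h5
  exact h5

/-- the value of the form `f (H (x), x)` -/
theorem aeval_substP {M : Type*} [Field M] [Algebra L M]
    [Algebra k M] [IsScalarTower k L M] (d : Fin p → ℕ) (a : Fin p → (Fin n →₀ ℕ) → L)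
    (f : MvPolynomial (Fin p ⊕ Fin n) k) (γ : Fin n → M) :
    aeval γ (substP d a f) =
      aeval (Sum.elim (fun j => Fval (d j) (fun I => algebraMap L M (a j I)) γ) γ :
        Fin p ⊕ Fin n → M) f := by
  unfold substP
  have h1 : (aeval (Sum.elim (fun j => Fval (d j) (fun I => algebraMap L M (a j I)) γ) γ :
      Fin p ⊕ Fin n → M) : MvPolynomial (Fin p ⊕ Fin n) k →ₐ[k] M) =
      ((aeval γ : MvPolynomial (Fin n) L →ₐ[L] M).restrictScalars k).comp
        (aeval (Sum.elim (fun j => formOf (d j) (a j)) (fun l => X l) :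
          Fin p ⊕ Fin n → MvPolynomial (Fin n) L)) := by
    ext i
    rcases i with j | i
    · simp only [aeval_X, Sum.elim_inl, AlgHom.comp_apply, AlgHom.restrictScalars_apply]
      exact (aeval_formOf (d j) (a j) γ).symm
    · simp only [aeval_X, Sum.elim_inr, AlgHom.comp_apply, AlgHom.restrictScalars_apply]
  rw [h1]
  rfl

/-- the value of the form with the coefficients `aWP` -/
theorem Fval_aWP {M : Type*} [Field M] [Algebra L M]
    [Algebra k M] [IsScalarTower k L M] {d : Fin p → ℕ} {ι : Type*} {e : ι → ℕ}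
    {f : ι → MvPolynomial (Fin p ⊕ Fin n) k}
    (hf : ∀ i, (f i).IsWeightedHomogeneous (wtP n d) (e i))
    (a : Fin p → (Fin n →₀ ℕ) → L) (γ : Fin n → M) (i : ι) :
    Fval (e i) (fun J => algebraMap L M (aWP d a f i J)) γ =
      aeval (Sum.elim (fun j => Fval (d j) (fun I => algebraMap L M (a j I)) γ) γ :
        Fin p ⊕ Fin n → M) (f i) := by
  rw [← aeval_substP, aeval_hom_eq (substP_hom (hf i))]
  rfl

/-- the same over one field -/
theorem Fval_aWP' {d : Fin p → ℕ} {ι : Type*} {e : ι → ℕ}
    {f : ι → MvPolynomial (Fin p ⊕ Fin n) k}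
    (hf : ∀ i, (f i).IsWeightedHomogeneous (wtP n d) (e i))
    (a : Fin p → (Fin n →₀ ℕ) → L) (γ : Fin n → L) (i : ι) :
    Fval (e i) (aWP d a f i) γ =
      aeval (Sum.elim (fun j => Fval (d j) (a j) γ) γ : Fin p ⊕ Fin n → L) (f i) :=
  Fval_aWP (M := L) hf a γ i

/-- functoriality -/
theorem map_substP {M : Type*} [Field M] [Algebra k M]
    (d : Fin p → ℕ) (a : Fin p → (Fin n →₀ ℕ) → L) (φ : L →+* M)
    (hφ : ∀ u : k, φ (algebraMap k L u) = algebraMap k M u)
    (f : MvPolynomial (Fin p ⊕ Fin n) k) :
    MvPolynomial.map φ (substP d a f) = substP d (fun j I => φ (a j I)) f := by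
  unfold substP
  rw [aeval_def, aeval_def, MvPolynomial.hom_eval₂]
  have h1 : (MvPolynomial.map φ : MvPolynomial (Fin n) L →+* MvPolynomial (Fin n) M).comp
      (algebraMap k (MvPolynomial (Fin n) L)) = algebraMap k (MvPolynomial (Fin n) M) := by
    ext1 u
    show MvPolynomial.map φ (C (algebraMap k L u)) = C (algebraMap k M u)
    rw [MvPolynomial.map_C, hφ]
  have h2 : (fun i => MvPolynomial.map φ ((Sum.elim (fun j => formOf (d j) (a j)) (fun l => X l) :
      Fin p ⊕ Fin n → MvPolynomial (Fin n) L) i)) =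
      (Sum.elim (fun j => formOf (d j) fun I => φ (a j I)) (fun l => X l) :
        Fin p ⊕ Fin n → MvPolynomial (Fin n) M) := by
    funext i
    rcases i with j | i
    · show MvPolynomial.map φ (formOf (d j) (a j)) = formOf (d j) fun I => φ (a j I)
      unfold formOf
      rw [map_sum]
      exact Finset.sum_congr rfl fun I _ => MvPolynomial.map_monomial _ _ _
    · exact MvPolynomial.map_X _ _
  rw [h1]
  congr 1

theorem map_aWP {M : Type*} [Field M] [Algebra k M]
    {ι : Type*} (d : Fin p → ℕ) (a : Fin p → (Fin n →₀ ℕ) → L) (φ : L →+* M)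
    (hφ : ∀ u : k, φ (algebraMap k L u) = algebraMap k M u)
    (f : ι → MvPolynomial (Fin p ⊕ Fin n) k) (i : ι) (J : Fin n →₀ ℕ) :
    φ (aWP d a f i J) = aWP d (fun j I => φ (a j I)) f i J := by
  show φ ((substP d a (f i)).coeff J) = (substP d (fun j I => φ (a j I)) (f i)).coeff J
  rw [← map_substP d a φ hφ, MvPolynomial.coeff_map]

/-- the coefficients `aWP` only depend on the coefficients of the forms -/
theorem aWP_congr {ι : Type*} {d : Fin p → ℕ} {a a' : Fin p → (Fin n →₀ ℕ) → L}
    (h : ∀ j, ∀ I ∈ expo (Fin n) (d j), a j I = a' j I)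
    (f : ι → MvPolynomial (Fin p ⊕ Fin n) k) : aWP d a f = aWP d a' f := by
  have h1 : ∀ j, formOf (d j) (a j) = formOf (d j) (a' j) := by
    intro j
    unfold formOf
    exact Finset.sum_congr rfl fun I hI => by rw [h j I hI]
  funext i J
  unfold aWP substP
  simp only [h1]

/-- the coefficients `aWP` only depend on the polynomials over a larger field -/
theorem aWP_mapF {k' : Type*} [Field k'] [Algebra k k'] [Algebra k' L] [IsScalarTower k k' L]
    {ι : Type*} (d : Fin p → ℕ) (a : Fin p → (Fin n →₀ ℕ) → L)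
    (f : ι → MvPolynomial (Fin p ⊕ Fin n) k) :
    aWP d a (fun i => MvPolynomial.map (algebraMap k k') (f i)) = aWP d a f := by
  funext i J
  unfold aWP substP
  have h1 : IsScalarTower k k' (MvPolynomial (Fin n) L) := by
    refine IsScalarTower.of_algebraMap_eq fun u => ?_
    rw [IsScalarTower.algebraMap_apply k L (MvPolynomial (Fin n) L),
      IsScalarTower.algebraMap_apply k' L (MvPolynomial (Fin n) L),
      ← IsScalarTower.algebraMap_apply k k' L]
  rw [MvPolynomial.aeval_map_algebraMap]

end

section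

/-- the chain rule -/
theorem der_aevalG {k M : Type*} [Field k] [Field M] [Algebra k M] {σ : Type*} [Fintype σ]
    (D : Derivation ℤ M M) (hD : ∀ u : k, D (algebraMap k M u) = 0) (y : σ → M)
    (q : MvPolynomial σ k) :
    D (aeval y q) = ∑ i, aeval y (pderiv i q) * D (y i) := by
  classical
  induction q using MvPolynomial.induction_on with
  | C u => simp [hD u]
  | add p q hp hq =>
    rw [map_add, map_add, hp, hq, ← Finset.sum_add_distrib]
    refine Finset.sum_congr rfl fun i _ => ?_
    rw [map_add, map_add, add_mul]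
  | mul_X p j hp =>
    rw [map_mul, aeval_X, Derivation.leibniz, hp, smul_eq_mul, smul_eq_mul, Finset.mul_sum]
    have h1 : ∀ i, aeval y (pderiv i (p * X j)) * D (y i) =
        (if i = j then aeval y p * D (y i) else 0) + y j * (aeval y (pderiv i p) * D (y i)) := by
      intro i
      rw [Derivation.leibniz, smul_eq_mul, smul_eq_mul, map_add, map_mul, map_mul, aeval_X,
        pderiv_X]
      by_cases h : i = j
      · subst h
        simp only [if_true, Pi.single_eq_same, map_one]
        ring
      · rw [if_neg h, Pi.single_eq_of_ne (fun h' => h h'.symm), map_zero]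
        ring
    rw [Finset.sum_congr rfl fun i _ => h1 i, Finset.sum_add_distrib, Finset.sum_ite_eq']
    simp

open Classical in
/-- the polynomial in one of the variables -/
noncomputable def qG {k M : Type*} [Field k] [Field M] [Algebra k M] {σ : Type*} (s₀ : σ)
    (y : σ → M) (q : MvPolynomial σ k) : Polynomial M :=
  aeval (fun s => if s = s₀ then Polynomial.X else Polynomial.C (y s) : σ → Polynomial M) q

open Classical in
theorem qG_eval {k M : Type*} [Field k] [Field M] [Algebra k M] {σ : Type*} (s₀ : σ)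
    (y : σ → M) (q : MvPolynomial σ k) (τ : M) :
    (qG s₀ y q).eval τ = aeval (fun s => if s = s₀ then τ else y s : σ → M) q := by
  unfold qG
  have h1 : (aeval (fun s => if s = s₀ then τ else y s : σ → M) : MvPolynomial σ k →ₐ[k] M) =
      ((Polynomial.aeval τ : Polynomial M →ₐ[M] M).restrictScalars k).comp
        (aeval (fun s => if s = s₀ then Polynomial.X else Polynomial.C (y s) :
          σ → Polynomial M)) := by
    ext s
    by_cases h : s = s₀
    · simp [h]
    · simp [h]
  rw [h1]
  rfl

theorem qG_eval_self {k M : Type*} [Field k] [Field M] [Algebra k M] {σ : Type*} (s₀ : σ)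
    (y : σ → M) (q : MvPolynomial σ k) : (qG s₀ y q).eval (y s₀) = aeval y q := by
  classical
  rw [qG_eval]
  congr 2
  funext s
  by_cases h : s = s₀
  · rw [if_pos h, h]
  · rw [if_neg h]

theorem qG_derivative {k M : Type*} [Field k] [Field M] [Algebra k M] {σ : Type*} (s₀ : σ)
    (y : σ → M) (q : MvPolynomial σ k) :
    (qG s₀ y q).derivative = qG s₀ y (pderiv s₀ q) := by
  classical
  unfold qG
  induction q using MvPolynomial.induction_on with
  | C u =>
    simp only [algHom_C, pderiv_C, map_zero]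
    rw [IsScalarTower.algebraMap_apply k M (Polynomial M)]
    exact Polynomial.derivative_C
  | add p q hp hq => rw [map_add, map_add, hp, hq, map_add, map_add]
  | mul_X p s hp =>
    rw [map_mul, Polynomial.derivative_mul, hp, aeval_X, Derivation.leibniz, smul_eq_mul,
      smul_eq_mul, map_add, map_mul, map_mul, aeval_X, pderiv_X]
    by_cases h : s = s₀
    · subst h
      simp
      ring
    · rw [if_neg h, Pi.single_eq_of_ne h]
      simp
      ring

/-- the derivatives commute -/
theorem pderiv_comm' {k σ : Type*} [Field k] (s t : σ) (q : MvPolynomial σ k) :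
    pderiv s (pderiv t q) = pderiv t (pderiv s q) := by
  classical
  have h1 : ⁅(pderiv s : Derivation k (MvPolynomial σ k) (MvPolynomial σ k)),
      (pderiv t : Derivation k (MvPolynomial σ k) (MvPolynomial σ k))⁆ = 0 := by
    refine MvPolynomial.derivation_ext fun i => ?_
    rw [Derivation.commutator_apply, pderiv_X, pderiv_X, Derivation.zero_apply]
    have h2 : ∀ (a b : σ), pderiv a (Pi.single (M := fun _ => MvPolynomial σ k) b 1 i) = 0 := by
      intro a b
      by_cases h : i = b
      · subst h
        rw [Pi.single_eq_same]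
        exact Derivation.map_one_eq_zero _
      · rw [Pi.single_eq_of_ne h, map_zero]
    rw [h2, h2, sub_self]
  have h3 := DFunLike.congr_fun h1 q
  rw [Derivation.commutator_apply, Derivation.zero_apply, sub_eq_zero] at h3
  exact h3

/-- **The relation between the derivatives**, for a weighted homogeneous equation; `Z` is a set of
variables which do not occur in the equation. -/
theorem exists_relG {k M : Type*} [Field k] [CharZero k] [Field M] [Algebra k M] {σ : Type*}
    [Fintype σ] {w : σ → ℕ} {s₀ : σ} {Z : Set σ}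
    {q : MvPolynomial σ k} {e : ℕ} (hq : q.IsWeightedHomogeneous w e)
    (hZ : ∀ s ∈ Z, pderiv s q = 0) {y : σ → M} (h0 : aeval y q = 0)
    (hne : qG s₀ y q ≠ 0) :
    ∃ c : σ → M, c s₀ = 0 ∧ (∀ s ∈ Z, c s = 0) ∧
      (∀ D : Derivation ℤ M M, (∀ u : k, D (algebraMap k M u) = 0) →
        D (y s₀) = ∑ s, c s * D (y s)) ∧ ∑ s, c s * (w s * y s) = w s₀ * y s₀ := by
  classical
  have hM : CharZero M := charZero_of_injective_algebraMap (algebraMap k M).injective
  obtain ⟨N, hN⟩ : ∃ N, (qG s₀ y q).natDegree ≤ N := ⟨_, le_rfl⟩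
  induction N generalizing q e with
  | zero =>
    exfalso
    rw [← qG_eval_self s₀] at h0
    have h1 := Polynomial.eq_C_of_natDegree_le_zero hN
    rw [h1, Polynomial.eval_C] at h0
    rw [h0, Polynomial.C_0] at h1
    exact hne h1
  | succ N ih =>
    have hdeg : 0 < (qG s₀ y q).natDegree := by
      rw [Nat.pos_iff_ne_zero]
      intro h
      have h1 := Polynomial.eq_C_of_natDegree_le_zero h.le
      rw [← qG_eval_self s₀, h1, Polynomial.eval_C] at h0
      exact hne (by rw [h1, h0, Polynomial.C_0])
    have hder0 : (qG s₀ y q).derivative ≠ 0 := by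
      intro h
      have h1 := Polynomial.derivative_eq_zero.1 h
      omega
    -- the degree of the derivative
    have hp0 : pderiv s₀ q ≠ 0 := by
      intro h
      rw [qG_derivative, h] at hder0
      exact hder0 (by unfold qG; rw [map_zero])
    have hde : w s₀ ≤ e := by
      obtain ⟨I, hI⟩ := MvPolynomial.ne_zero_iff.1 hp0
      have h1 : coeff (I + Finsupp.single s₀ 1) q ≠ 0 := by
        intro h2
        apply hI
        rw [MvPolynomial.coeff_pderiv, h2, zero_mul]
      have h2 := hq h1
      rw [map_add, Finsupp.weight_single] at h2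
      simp only [one_smul] at h2
      omega
    have hq' : (pderiv s₀ q).IsWeightedHomogeneous w (e - w s₀) := by
      refine hq.pderiv ?_
      show e - w s₀ + w s₀ = e
      omega
    by_cases h1 : aeval y (pderiv s₀ q) = 0
    · refine ih hq' (fun s hs => ?_) h1 ?_ ?_
      · rw [pderiv_comm', hZ s hs, map_zero]
      · rw [← qG_derivative]
        exact hder0
      · rw [← qG_derivative]
        have := Polynomial.natDegree_derivative_lt (p := qG s₀ y q) (by omega)
        omega
    · refine ⟨fun s => if s = s₀ then 0 else - aeval y (pderiv s q) / aeval y (pderiv s₀ q),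
        if_pos rfl, fun s hs => ?_, fun D hD => ?_, ?_⟩
      · by_cases h : s = s₀
        · simp only [if_pos h]
        · simp only [if_neg h]
          rw [hZ s hs, map_zero, neg_zero, zero_div]
      · have h2 := der_aevalG D hD y q
        rw [h0, map_zero, ← Finset.add_sum_erase _ _ (Finset.mem_univ s₀)] at h2
        rw [← Finset.add_sum_erase _ _ (Finset.mem_univ s₀)]
        simp only [if_true, zero_mul, zero_add]
        have h3 : D (y s₀) = - (∑ s ∈ Finset.univ.erase s₀, aeval y (pderiv s q) * D (y s)) /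
            aeval y (pderiv s₀ q) := by
          rw [eq_div_iff h1]
          linear_combination -h2
        rw [h3, ← Finset.sum_neg_distrib, Finset.sum_div]
        refine Finset.sum_congr rfl fun s hs => ?_
        rw [if_neg (Finset.ne_of_mem_erase hs)]
        ring
      · have h2 := hq.sum_weight_X_mul_pderiv
        have h3 := congrArg (aeval y) h2
        rw [map_sum, map_nsmul, h0, smul_zero,
          ← Finset.add_sum_erase _ _ (Finset.mem_univ s₀)] at h3
        simp only [map_mul, aeval_X, nsmul_eq_mul, map_natCast] at h3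
        rw [← Finset.add_sum_erase _ _ (Finset.mem_univ s₀)]
        simp only [if_true, zero_mul, zero_add]
        have h6 : ∑ s ∈ Finset.univ.erase s₀, (if s = s₀ then 0 else
            - aeval y (pderiv s q) / aeval y (pderiv s₀ q)) * (w s * y s) =
            - (∑ s ∈ Finset.univ.erase s₀, w s * (y s * aeval y (pderiv s q))) /
              aeval y (pderiv s₀ q) := by
          rw [← Finset.sum_neg_distrib, Finset.sum_div]
          refine Finset.sum_congr rfl fun s hs => ?_
          rw [if_neg (Finset.ne_of_mem_erase hs)]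
          ring
        rw [h6, div_eq_iff h1]
        linear_combination -h3

end

section

variable {k M : Type*} [Field k] [Field M] [Algebra k M] {σ : Type*} [Finite σ]

/-- Algebraically independent elements of the ring generated by the coordinates of a zero of an
ideal. -/
theorem card_le_of_dim_genG {r : ℕ} {I : Ideal (MvPolynomial σ k)}
    (hI : ringKrullDim (MvPolynomial σ k ⧸ I) ≤ (r : ℕ))
    {γ : σ → M} (hγ : ∀ f ∈ I, aeval γ f = 0) {p : ℕ} {y : Fin p → MvPolynomial σ k}
    (hj : AlgebraicIndependent k (fun i => aeval γ (y i))) : p ≤ r := by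
  set φ : MvPolynomial σ k →ₐ[k] M := aeval γ with hφ
  have hle : I ≤ RingHom.ker φ := fun f hf => hγ f hf
  have : (RingHom.ker φ).IsPrime := RingHom.ker_isPrime _
  let A := MvPolynomial σ k ⧸ RingHom.ker φ
  have h1 : ringKrullDim A ≤ ringKrullDim (MvPolynomial σ k ⧸ I) :=
    ringKrullDim_le_of_surjective (Ideal.Quotient.factor hle) (Ideal.Quotient.factor_surjective hle)
  let ψ : A →ₐ[k] M := Ideal.kerLiftAlg φ
  have h2 : AlgebraicIndependent k (fun i => (Ideal.Quotient.mkₐ k (RingHom.ker φ) (y i) : A)) := by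
    refine AlgebraicIndependent.of_comp ψ ?_
    convert hj using 1
    funext i
    simp [ψ, hφ]
  have h3 : (p : WithBot ℕ∞) ≤ ringKrullDim A := card_le_ringKrullDim h2
  have h4 := (h3.trans h1).trans hI
  exact_mod_cast h4

end

/-- **Algebraically independent affine coordinates of a point of a weighted projective
variety.** -/
theorem card_le_of_dimP {k M : Type*} [Field k] [Field M] [Algebra k M] {n p r : ℕ}
    {d : Fin p → ℕ} {ι : Type*} {f : ι → MvPolynomial (Fin p ⊕ Fin n) k} {e : ι → ℕ}
    (hf : ∀ i, (f i).IsWeightedHomogeneous (wtP n d) (e i))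
    (hI : ringKrullDim (MvPolynomial (Fin p ⊕ Fin n) k ⧸ Ideal.span (Set.range f)) ≤
      ((r + 1 : ℕ) : ℕ))
    {γ : Fin n → M} {η : Fin p → M} (hγ : ∀ i, aeval (Sum.elim η γ : Fin p ⊕ Fin n → M) (f i) = 0)
    {l : Fin n} (hl : γ l ≠ 0) {q : ℕ}
    {j : Fin q → Fin n} (hj : AlgebraicIndependent k (fun i => γ (j i) / γ l)) : q ≤ r := by
  have h1 := indep_scale hj
  set c : RatFunc M := RatFunc.X * algebraMap M (RatFunc M) (γ l)⁻¹ with hc
  set γ' : Fin p ⊕ Fin n → RatFunc M := Sum.elim (fun j => c ^ d j * algebraMap M (RatFunc M) (η j))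
    (fun i => c * algebraMap M (RatFunc M) (γ i)) with hγ'
  have h2 : (Fin.cons RatFunc.X
      (fun i => RatFunc.X * algebraMap M (RatFunc M) (γ (j i) / γ l)) : Fin (q + 1) → RatFunc M)
      = fun i => aeval γ' ((Fin.cons (X (Sum.inr l)) (fun i => X (Sum.inr (j i))) :
        Fin (q + 1) → MvPolynomial (Fin p ⊕ Fin n) k) i) := by
    funext i
    refine Fin.cases ?_ (fun i => ?_) i
    · simp only [hγ', Fin.cons_zero, aeval_X, Sum.elim_inr, hc]
      rw [mul_assoc, ← map_mul, inv_mul_cancel₀ hl, map_one, mul_one]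
    · simp only [hγ', Fin.cons_succ, aeval_X, Sum.elim_inr, hc, div_eq_mul_inv, map_mul]
      ring
  rw [h2] at h1
  have h3 : ∀ g ∈ Ideal.span (Set.range f), aeval γ' g = 0 := by
    intro g hg
    refine Submodule.span_induction (p := fun g _ => aeval γ' g = 0) ?_ (by simp) ?_ ?_ hg
    · rintro _ ⟨i, rfl⟩
      rw [hγ', aeval_scaleP (hf i)]
      have h6 : aeval (Sum.elim (fun j => algebraMap M (RatFunc M) (η j))
          (fun t => algebraMap M (RatFunc M) (γ t)) : Fin p ⊕ Fin n → RatFunc M) (f i) = 0 := by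
        have h7 : (Sum.elim (fun j => algebraMap M (RatFunc M) (η j))
            (fun t => algebraMap M (RatFunc M) (γ t)) : Fin p ⊕ Fin n → RatFunc M) =
            fun t => algebraMap M (RatFunc M) ((Sum.elim η γ : Fin p ⊕ Fin n → M) t) := by
          funext t
          rcases t with t | t <;> rfl
        rw [h7]
        change aeval (algebraMap M (RatFunc M) ∘ (Sum.elim η γ : Fin p ⊕ Fin n → M)) (f i) = 0
        rw [MvPolynomial.aeval_algebraMap_apply, hγ i, map_zero]
      rw [h6, mul_zero]
    · intro a b _ _ ha hb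
      rw [map_add, ha, hb, add_zero]
    · intro a b _ hb
      rw [smul_eq_mul, map_mul, hb, mul_zero]
  have h6 := card_le_of_dim_genG hI h3 h1
  omega

/-- the same for a normalised point -/
theorem card_le_of_dimP_norm {k M : Type*} [Field k] [Field M] [Algebra k M] {n p r : ℕ}
    {d : Fin p → ℕ} {ι : Type*} {f : ι → MvPolynomial (Fin p ⊕ Fin n) k} {e : ι → ℕ}
    (hf : ∀ i, (f i).IsWeightedHomogeneous (wtP n d) (e i))
    (hI : ringKrullDim (MvPolynomial (Fin p ⊕ Fin n) k ⧸ Ideal.span (Set.range f)) ≤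
      ((r + 1 : ℕ) : ℕ))
    {γ : Fin n → M} {η : Fin p → M} (hγ : ∀ i, aeval (Sum.elim η γ : Fin p ⊕ Fin n → M) (f i) = 0)
    {ξ : Fin n → ℕ} (hξ : ∑ j, (ξ j : M) * γ j = 1) {q : ℕ} {j : Fin q → Fin n}
    (hj : AlgebraicIndependent k (fun i => γ (j i))) : q ≤ r := by
  have h1 := indep_scale hj
  set γ' : Fin p ⊕ Fin n → RatFunc M := Sum.elim
    (fun j => RatFunc.X ^ d j * algebraMap M (RatFunc M) (η j))
    (fun i => RatFunc.X * algebraMap M (RatFunc M) (γ i)) with hγ'
  have h2 : (Fin.cons RatFunc.X
      (fun i => RatFunc.X * algebraMap M (RatFunc M) (γ (j i))) : Fin (q + 1) → RatFunc M)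
      = fun i => aeval γ' ((Fin.cons (∑ l : Fin n, C (ξ l : k) * X (Sum.inr l))
          (fun i => X (Sum.inr (j i))) : Fin (q + 1) → MvPolynomial (Fin p ⊕ Fin n) k) i) := by
    funext i
    refine Fin.cases ?_ (fun i => ?_) i
    · simp only [Fin.cons_zero, map_sum, map_mul, aeval_C, aeval_X, hγ', Sum.elim_inr]
      have h3 : algebraMap M (RatFunc M) (∑ l, (ξ l : M) * γ l) = 1 := by rw [hξ, map_one]
      rw [map_sum] at h3
      calc (RatFunc.X : RatFunc M) = RatFunc.X * 1 := (mul_one _).symm
        _ = RatFunc.X * ∑ l, algebraMap M (RatFunc M) ((ξ l : M) * γ l) := by rw [h3]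
        _ = _ := by
          rw [Finset.mul_sum]
          refine Finset.sum_congr rfl fun l _ => ?_
          rw [map_mul, map_natCast, map_natCast]
          ring
    · simp only [Fin.cons_succ, aeval_X, hγ', Sum.elim_inr]
  rw [h2] at h1
  have h3 : ∀ g ∈ Ideal.span (Set.range f), aeval γ' g = 0 := by
    intro g hg
    refine Submodule.span_induction (p := fun g _ => aeval γ' g = 0) ?_ (by simp) ?_ ?_ hg
    · rintro _ ⟨i, rfl⟩
      rw [hγ', aeval_scaleP (hf i)]
      have h6 : aeval (Sum.elim (fun j => algebraMap M (RatFunc M) (η j))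
          (fun t => algebraMap M (RatFunc M) (γ t)) : Fin p ⊕ Fin n → RatFunc M) (f i) = 0 := by
        have h7 : (Sum.elim (fun j => algebraMap M (RatFunc M) (η j))
            (fun t => algebraMap M (RatFunc M) (γ t)) : Fin p ⊕ Fin n → RatFunc M) =
            fun t => algebraMap M (RatFunc M) ((Sum.elim η γ : Fin p ⊕ Fin n → M) t) := by
          funext t
          rcases t with t | t <;> rfl
        rw [h7]
        change aeval (algebraMap M (RatFunc M) ∘ (Sum.elim η γ : Fin p ⊕ Fin n → M)) (f i) = 0
        rw [MvPolynomial.aeval_algebraMap_apply, hγ i, map_zero]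
      rw [h6, mul_zero]
    · intro a b _ _ ha hb
      rw [map_add, ha, hb, add_zero]
    · intro a b _ hb
      rw [smul_eq_mul, map_mul, hb, mul_zero]
  have h6 := card_le_of_dim_genG hI h3 h1
  omega

end Pool.Agent.Lib.MP_44a246_ntK
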