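import Mathlib
import Pool.Agent.Lib.MP_44a246_ntU.U05
import Pool.Agent.Lib.MP_44a246_ntQ.Q10
import Pool.Agent.Lib.MP_44a246_ntK.K08
import Pool.Agent.Lib.MP_44a246_ntK.K11

/-!
Nondegenerate points, the rank of the rows of a point and the rows of the values of the forms.
-/

namespace Pool.Agent.Lib.MP_44a246_ntK

open Pool.Agent.Lib.MP_44a246_ntQ
open Pool.Agent.Lib.MP_e52354_nt
open Pool.Agent.Lib.MP_44a246_nt
open Pool.Agent.Lib.MP_44a246_ntL
open Pool.Agent.Lib.MP_44a246_ntS
open Pool.Agent.Lib.MP_44a246_ntG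
open Pool.Agent.Lib.MP_44a246_ntU
open WithZero Module

/-- for every `j`, some equation involves no other `t` than `t_j` and is not independent of `t_j`
at the point -/
def NDegP {k L : Type*} [Field k] [Field L] [Algebra k L] {n p : ℕ} {ι : Type*}
    (f : ι → MvPolynomial (Fin p ⊕ Fin n) k) (x : Fin n → L) : Prop :=
  ∀ j : Fin p, ∃ i, (∀ j' : Fin p, j' ≠ j → Sum.inl j' ∉ (f i).vars) ∧
    ∃ τ : L, MvPolynomial.aeval (Sum.elim (fun _ => τ) x : Fin p ⊕ Fin n → L) (f i) ≠ 0

section

variable {k L : Type*} [Field k] [Field L] [Algebra k L] {n p : ℕ}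

/-- polynomials with the same values at the variables -/
theorem aeval_congr_vars {σ B : Type*} [CommRing B] [Algebra k B] {q : MvPolynomial σ k}
    {y y' : σ → B} (h : ∀ s ∈ q.vars, y s = y' s) :
    MvPolynomial.aeval y q = MvPolynomial.aeval y' q := by
  rw [MvPolynomial.aeval_def, MvPolynomial.aeval_def, ← MvPolynomial.coe_eval₂Hom,
    ← MvPolynomial.coe_eval₂Hom]
  exact MvPolynomial.eval₂Hom_congr' rfl (fun i hi _ => h i hi) rfl

/-- **The relations between the derivatives.** -/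
theorem NDegP.rel [CharZero k] {ι : Type*} {d : Fin p → ℕ} {e : ι → ℕ}
    {f : ι → MvPolynomial (Fin p ⊕ Fin n) k}
    (hf : ∀ i, (f i).IsWeightedHomogeneous (wtP n d) (e i)) {η : Fin p → L} {γ : Fin n → L}
    (hz : ∀ i, MvPolynomial.aeval (Sum.elim η γ : Fin p ⊕ Fin n → L) (f i) = 0)
    (h : NDegP f γ) (j : Fin p) :
    ∃ c : Fin n → L, (∀ D : Derivation ℤ L L, (∀ u : k, D (algebraMap k L u) = 0) →
      D (η j) = ∑ l, c l * D (γ l)) ∧ ∑ l, c l * γ l = d j * η j := by
  classical
  obtain ⟨i, hi, τ, hτ⟩ := h j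
  have hne : qG (Sum.inl j) (Sum.elim η γ : Fin p ⊕ Fin n → L) (f i) ≠ 0 := by
    intro h0
    apply hτ
    have h1 := qG_eval (Sum.inl j) (Sum.elim η γ : Fin p ⊕ Fin n → L) (f i) τ
    rw [h0, Polynomial.eval_zero] at h1
    rw [h1]
    refine aeval_congr_vars fun s hs => ?_
    rcases s with j' | l
    · have h2 : j' = j := by
        by_contra hne
        exact hi j' hne hs
      rw [if_pos (by rw [h2]), Sum.elim_inl]
    · rw [if_neg (by simp), Sum.elim_inr, Sum.elim_inr]
  obtain ⟨c, hc0, hcZ, hcD, hcE⟩ := exists_relG (hf i)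
    (Z := {s | ∃ j', j' ≠ j ∧ s = Sum.inl j'}) (s₀ := Sum.inl j) (by
      rintro _ ⟨j', hj', rfl⟩
      exact MvPolynomial.pderiv_eq_zero_of_notMem_vars (hi j' hj')) (hz i) hne
  have hc : ∀ j', c (Sum.inl j') = 0 := by
    intro j'
    by_cases h1 : j' = j
    · rw [h1, hc0]
    · exact hcZ _ ⟨j', h1, rfl⟩
  refine ⟨fun l => c (Sum.inr l), fun D hD => ?_, ?_⟩
  · have h1 := hcD D hD
    rw [Fintype.sum_sum_type] at h1
    simp only [Sum.elim_inl, Sum.elim_inr, hc, zero_mul, Finset.sum_const_zero, zero_add] at h1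
    exact h1
  · rw [Fintype.sum_sum_type] at hcE
    simp only [Sum.elim_inl, Sum.elim_inr, hc, zero_mul, Finset.sum_const_zero, zero_add, wtP,
      Nat.cast_one, one_mul] at hcE
    exact hcE

/-- germs of nondegenerate points are nondegenerate -/
theorem NDegP.germ {Ω : Type*} [Field Ω] [Algebra k Ω]
    (ψ : UP L →+* Ω) (hψ : ∀ u : k, ψ (constHom (algebraMap k L u)) = algebraMap k Ω u)
    {ι : Type*} [Finite ι] {f : ι → MvPolynomial (Fin p ⊕ Fin n) k} {x : ℕ → Fin n → L}
    (h : ∀ N, NDegP f (x N)) : NDegP f (fun l => ψ (germHom (fun N => x N l))) := by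
  intro j
  choose i hi τ hτ using fun N => h N j
  by_contra hcon
  have h1 : ∀ i' : ι, (∀ j' : Fin p, j' ≠ j → Sum.inl j' ∉ (f i').vars) →
      ∀ᶠ N in (Filter.hyperfilter ℕ : Filter ℕ),
      MvPolynomial.aeval (Sum.elim (fun _ => τ N) (x N) : Fin p ⊕ Fin n → L) (f i') = 0 := by
    intro i' hi'
    by_contra h2
    apply hcon
    refine ⟨i', hi', ψ (germHom τ), fun h3 => h2 ?_⟩
    have h4 : (Sum.elim (fun _ => ψ (germHom τ)) (fun l => ψ (germHom (fun N => x N l))) :
        Fin p ⊕ Fin n → Ω) =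
        fun t => ψ (germHom fun N => (Sum.elim (fun _ => τ N) (x N) : Fin p ⊕ Fin n → L) t) := by
      funext t
      rcases t with t | t <;> rfl
    rw [h4, germ_aeval ψ hψ (fun N => (Sum.elim (fun _ => τ N) (x N) : Fin p ⊕ Fin n → L)),
      map_eq_zero, germHom_eq_zero_iff] at h3
    exact h3
  have h2 : ∀ i' : ι, ∀ᶠ N in (Filter.hyperfilter ℕ : Filter ℕ),
      ((∀ j' : Fin p, j' ≠ j → Sum.inl j' ∉ (f i').vars) →
        MvPolynomial.aeval (Sum.elim (fun _ => τ N) (x N) : Fin p ⊕ Fin n → L) (f i') = 0) := by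
    intro i'
    by_cases hi' : ∀ j' : Fin p, j' ≠ j → Sum.inl j' ∉ (f i').vars
    · exact (h1 i' hi').mono fun N hN _ => hN
    · exact Filter.Eventually.of_forall fun N hN => absurd hN hi'
  rw [← Filter.eventually_all] at h2
  obtain ⟨N, hN⟩ := h2.exists
  exact hτ N (hN _ (hi N))

/-- nondegeneracy does not depend on the scaling -/
theorem NDegP.smul {d : Fin p → ℕ} {ι : Type*} {e : ι → ℕ}
    {f : ι → MvPolynomial (Fin p ⊕ Fin n) k}
    (hf : ∀ i, (f i).IsWeightedHomogeneous (wtP n d) (e i)) {x : Fin n → L} (h : NDegP f x) {c : L}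
    (hc : c ≠ 0) : NDegP f (fun l => c * x l) := by
  intro j
  obtain ⟨i, hi, τ, hτ⟩ := h j
  refine ⟨i, hi, c ^ d j * τ, ?_⟩
  have h1 := aeval_scaleP (hf i) c (fun _ => τ) x
  have h2 : MvPolynomial.aeval (Sum.elim (fun _ => c ^ d j * τ) (fun l => c * x l) :
      Fin p ⊕ Fin n → L) (f i) = MvPolynomial.aeval (Sum.elim (fun j => c ^ d j * τ)
        (fun l => c * x l) : Fin p ⊕ Fin n → L) (f i) := by
    refine aeval_congr_vars fun s hs => ?_
    rcases s with j' | l
    · have h2 : j' = j := by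
        by_contra hne
        exact hi j' hne hs
      rw [Sum.elim_inl, Sum.elim_inl, h2]
    · rfl
  rw [h2, h1]
  exact mul_ne_zero (pow_ne_zero _ hc) hτ

/-- `f` as a polynomial in one variable at the point `x` -/
noncomputable def tPolyP (x : Fin n → L) (f : MvPolynomial (Fin p ⊕ Fin n) k) : Polynomial L :=
  MvPolynomial.aeval (Sum.elim (fun _ => Polynomial.X) (fun l => Polynomial.C (x l)) :
    Fin p ⊕ Fin n → Polynomial L) f

theorem tPolyP_eval (x : Fin n → L) (f : MvPolynomial (Fin p ⊕ Fin n) k) (τ : L) :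
    (tPolyP x f).eval τ =
      MvPolynomial.aeval (Sum.elim (fun _ => τ) x : Fin p ⊕ Fin n → L) f := by
  unfold tPolyP
  have h1 : (MvPolynomial.aeval (Sum.elim (fun _ => τ) x : Fin p ⊕ Fin n → L) :
      MvPolynomial (Fin p ⊕ Fin n) k →ₐ[k] L) =
      ((Polynomial.aeval τ : Polynomial L →ₐ[L] L).restrictScalars k).comp
        (MvPolynomial.aeval (Sum.elim (fun _ => Polynomial.X) (fun l => Polynomial.C (x l)) :
          Fin p ⊕ Fin n → Polynomial L)) := by
    ext i
    rcases i with i | i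
    · simp
    · simp
  rw [h1]
  rfl

theorem tPolyP_map {M : Type*} [Field M] [Algebra k M]
    (φ : L →+* M) (hφ : ∀ u : k, φ (algebraMap k L u) = algebraMap k M u) (x : Fin n → L)
    (f : MvPolynomial (Fin p ⊕ Fin n) k) :
    (tPolyP x f).map φ = tPolyP (fun j => φ (x j)) f := by
  unfold tPolyP
  have h1 : (Polynomial.mapRingHom φ).comp (MvPolynomial.aeval (R := k)
      (Sum.elim (fun _ => Polynomial.X) (fun l => Polynomial.C (x l)) :
        Fin p ⊕ Fin n → Polynomial L)).toRingHom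
      = (MvPolynomial.aeval (R := k) (Sum.elim (fun _ => Polynomial.X)
          (fun l => Polynomial.C (φ (x l))) : Fin p ⊕ Fin n → Polynomial M)).toRingHom := by
    refine MvPolynomial.ringHom_ext (fun r => ?_) (fun i => ?_)
    · show Polynomial.map φ (MvPolynomial.aeval _ (MvPolynomial.C r)) =
        MvPolynomial.aeval _ (MvPolynomial.C r)
      rw [MvPolynomial.aeval_C, MvPolynomial.aeval_C,
        IsScalarTower.algebraMap_apply k L (Polynomial L),
        IsScalarTower.algebraMap_apply k M (Polynomial M)]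
      show Polynomial.map φ (Polynomial.C (algebraMap k L r)) = Polynomial.C (algebraMap k M r)
      rw [Polynomial.map_C, hφ]
    · show Polynomial.map φ (MvPolynomial.aeval _ (MvPolynomial.X i)) =
        MvPolynomial.aeval _ (MvPolynomial.X i)
      rw [MvPolynomial.aeval_X, MvPolynomial.aeval_X]
      rcases i with i | i
      · simp
      · simp
  exact DFunLike.congr_fun h1 f

theorem nDegP_iff [Infinite L] {ι : Type*}
    {f : ι → MvPolynomial (Fin p ⊕ Fin n) k} {x : Fin n → L} :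
    NDegP f x ↔ ∀ j : Fin p, ∃ i, (∀ j' : Fin p, j' ≠ j → Sum.inl j' ∉ (f i).vars) ∧
      tPolyP x (f i) ≠ 0 := by
  refine forall_congr' fun j => exists_congr fun i => and_congr_right fun _ => ?_
  constructor
  · rintro ⟨τ, h⟩ h0
    apply h
    rw [← tPolyP_eval, h0, Polynomial.eval_zero]
  · intro h
    by_contra hcon
    apply h
    refine Polynomial.funext fun τ => ?_
    rw [Polynomial.eval_zero, tPolyP_eval]
    by_contra h2
    exact hcon ⟨τ, h2⟩

/-- nondegeneracy does not depend on the field -/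
theorem nDegP_map {M : Type*} [Field M] [Algebra k M]
    [Infinite L] (φ : L →+* M) (hφ : ∀ u : k, φ (algebraMap k L u) = algebraMap k M u)
    {ι : Type*} {f : ι → MvPolynomial (Fin p ⊕ Fin n) k} {x : Fin n → L} :
    NDegP f (fun j => φ (x j)) ↔ NDegP f x := by
  have : Infinite M := Infinite.of_injective φ φ.injective
  rw [nDegP_iff, nDegP_iff]
  refine forall_congr' fun j => exists_congr fun i => and_congr_right fun _ => ?_
  rw [← tPolyP_map φ hφ, ne_eq, Polynomial.map_eq_zero_iff φ.injective]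

/-- nondegeneracy only depends on the polynomials over a larger field -/
theorem nDegP_mapF {k' : Type*} [Field k'] [Algebra k k']
    [Algebra k' L] [IsScalarTower k k' L] {ι : Type*}
    {f : ι → MvPolynomial (Fin p ⊕ Fin n) k} {x : Fin n → L} :
    NDegP (fun i => MvPolynomial.map (algebraMap k k') (f i)) x ↔ NDegP f x := by
  unfold NDegP
  refine forall_congr' fun j => exists_congr fun i => and_congr ?_ (exists_congr fun τ => ?_)
  · rw [MvPolynomial.vars_map_of_injective _ (algebraMap k k').injective]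
  · rw [MvPolynomial.aeval_map_algebraMap]

end

section

variable {κ L : Type*} [Field κ] [Field L] [Algebra κ L] {n p : ℕ} {d : Fin p → ℕ}
  (X : DatC κ (L := L) n d) {k₀ : Type*} [Field k₀] [CharZero k₀] [Algebra k₀ L]

omit [CharZero k₀] in
/-- the combinations of the derivations kill the field of definition -/
theorem jF_kill (hDk : ∀ s, s.2 ∈ expo (Fin (n + 1)) (d s.1) → ∀ u : k₀,
      X.D s (algebraMap k₀ L u) = 0) (t : Σ j : Fin p, M3 (d j)) (u : k₀) :
    X.jF t (algebraMap k₀ L u) = 0 := by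
  unfold DatC.jF
  rw [DatG.DK_apply]
  refine Finset.sum_eq_zero fun I hI => ?_
  have h1 : (X.blk t.1).D I (algebraMap k₀ L u) = 0 := hDk (t.1, I) hI u
  rw [h1, mul_zero]

/-- **The rank of the joint rows** of a point. -/
theorem finrank_gspan_leP (hDk : ∀ s, s.2 ∈ expo (Fin (n + 1)) (d s.1) → ∀ u : k₀,
      X.D s (algebraMap k₀ L u) = 0) {r : ℕ}
    {ι : Type*} {f : ι → MvPolynomial (Fin p ⊕ Fin (n + 1)) k₀} {e : ι → ℕ}
    (hf : ∀ i, (f i).IsWeightedHomogeneous (wtP (n + 1) d) (e i))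
    (hdim : ringKrullDim (MvPolynomial (Fin p ⊕ Fin (n + 1)) k₀ ⧸ Ideal.span (Set.range f)) ≤
      ((r + 1 : ℕ) : ℕ)) {η : Fin p → L}
    (hz : ∀ i, MvPolynomial.aeval (Sum.elim η X.x : Fin p ⊕ Fin (n + 1) → L) (f i) = 0) :
    finrank L (gspan X.jF X.x) ≤ r := by
  classical
  obtain ⟨q, j, c, hq, hc⟩ := exists_der_comb (k := k₀) (γ := X.x) (r := r)
    fun q j hj => card_le_of_dimP_norm hf hdim hz X.h0 hj
  have hrow : ∀ i, grow X.jF (X.x i) = ∑ t, c i t • grow X.jF (X.x (j t)) := by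
    intro i
    funext K
    rw [Finset.sum_apply]
    exact hc (X.jF K) (jF_kill X hDk K) i
  have hle : gspan X.jF X.x ≤ Submodule.span L (Set.range fun t => grow X.jF (X.x (j t))) := by
    unfold gspan
    rw [Submodule.span_le]
    rintro _ ⟨i, rfl⟩
    simp only [SetLike.mem_coe]
    rw [hrow i]
    exact Submodule.sum_mem _ fun t _ => Submodule.smul_mem _ _ (Submodule.subset_span ⟨t, rfl⟩)
  refine (Submodule.finrank_mono hle).trans ((finrank_range_le_card _).trans ?_)
  rw [Fintype.card_fin]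
  exact hq

/-- **The joint rows of the values of the forms** are in the space of the rows of the
coordinates. -/
theorem grow_mem_P (hDk : ∀ s, s.2 ∈ expo (Fin (n + 1)) (d s.1) → ∀ u : k₀,
      X.D s (algebraMap k₀ L u) = 0)
    {ι : Type*} {f : ι → MvPolynomial (Fin p ⊕ Fin (n + 1)) k₀} {e : ι → ℕ}
    (hf : ∀ i, (f i).IsWeightedHomogeneous (wtP (n + 1) d) (e i)) {η : Fin p → L}
    (hz : ∀ i, MvPolynomial.aeval (Sum.elim η X.x : Fin p ⊕ Fin (n + 1) → L) (f i) = 0)
    (hne : NDegP f X.x) (j : Fin p) : grow X.jF (η j) ∈ gspan X.jF X.x := by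
  obtain ⟨c, hc, -⟩ := hne.rel hf hz j
  have h1 : grow X.jF (η j) = ∑ l, c l • grow X.jF (X.x l) := by
    funext K
    rw [Finset.sum_apply]
    exact hc (X.jF K) (jF_kill X hDk K)
  rw [h1]
  exact Submodule.sum_mem _ fun l _ => Submodule.smul_mem _ _ (Submodule.subset_span ⟨l, rfl⟩)

/-- the joint row of the value of a form with few coefficients -/
theorem grow_Fval_mem {V : Submodule L ((Σ j : Fin p, M3 (d j)) → L)}
    {N : ℕ} {b : (Fin (n + 1) →₀ ℕ) → L} (hx : ∀ l, grow X.jF (X.x l) ∈ V)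
    (hb : ∀ I ∈ expo (Fin (n + 1)) N, grow X.jF (b I) ∈ V) :
    grow X.jF (Fval N b X.x) ∈ V := by
  classical
  rw [← mem_growRing]
  unfold Fval mon
  refine Subring.sum_mem _ fun I hI => ?_
  refine Subring.mul_mem _ ?_ (Subring.prod_mem _ fun j _ => Subring.pow_mem _ ?_ _)
  · exact hb I hI
  · exact hx j

end

end Pool.Agent.Lib.MP_44a246_ntK
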