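import Mathlib
import Pool.Agent.Lib.MP_44a246_ntS.SI2
import Pool.Agent.Lib.MP_44a246_ntG.G6

/-!
Step A in one block.
-/

namespace Pool.Agent.Lib.MP_44a246_ntK

open Pool.Agent.Lib.MP_44a246_ntG
open Pool.Agent.Lib.MP_44a246_nt
open Pool.Agent.Lib.MP_44a246_ntL
open Pool.Agent.Lib.MP_44a246_ntS
open Pool.Agent.Lib.MP_44a246_ntX
open Pool.Agent.Lib.MP_e52354_nt
open WithZero Module

variable {κ L : Type*} [Field κ] [IsAlgClosed κ] [CharZero κ] [Field L] [CharZero L]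
  [Algebra κ L]

/-- **Step A in one block**: either there is a plane curve of small degree and height, or the
height of `V` is large. -/
theorem stepA_block (h : IsFF κ L) {n d : ℕ} (X : DatG κ (L := L) n d) {T S : ℕ}
    {V : Submodule L (M3 d → L)} (hxi : xi d X.p ∈ V) (hT : 1 ≤ T) (hS : 8 * T ≤ S)
    (hSd : 2 * S ≤ d) (hH : 0 < height κ X.x) :
    (∃ (a : ℕ) (A : MvPolynomial (Fin 3) L), a ≤ 2 * T ∧ A ≠ 0 ∧ A.IsHomogeneous a ∧
        MvPolynomial.eval X.p A = 0 ∧ 3 * (polyHeight κ A * S) ≤ 8 * height κ X.x) ∨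
      (T : ℤ) * (((d : ℤ) - 8 * S) * height κ X.x) ≤
        T * ht κ V + 2 * height κ X.x * finrank L V := by
  have hp := X.p_ne_zero
  have hHr : (0 : ℝ) < (height κ X.x : ℝ) := by exact_mod_cast hH
  have hTr : (0 : ℝ) < (T : ℝ) := by exact_mod_cast hT
  obtain ⟨W, hWU, hW, hWb⟩ := exists_hasSl h (2 * (height κ X.x : ℝ) / T) hxi
  obtain ⟨Qd, hQd⟩ := exists_isSl h ((height κ X.x : ℝ) / T) (xi d X.p)
  obtain ⟨Q, hQ⟩ := exists_isSl h ((height κ X.x : ℝ) / T) (xi S X.p)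
  have hμ : (height κ X.x : ℝ) / T < 2 * (height κ X.x : ℝ) / T := by
    rw [mul_div_assoc]
    have : 0 < (height κ X.x : ℝ) / T := div_pos hHr hTr
    linarith
  have hWQ : W ≤ Qd := hW.le_isSl h hμ hQd
  have hb := hQ.bound h (xi_ne_zero hp)
  rw [height_xi h S hp, X.height_p] at hb
  push_cast at hb
  have hQ0 : (0 : ℝ) ≤ (ht κ Q : ℝ) := by exact_mod_cast ht_nonneg h Q
  obtain ⟨hq1, hq2⟩ := numA1 hT hS hHr hQ0 hb
  have hcard : Fintype.card (M3 S) = N3 S := card_M3 S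
  have hSr : (0 : ℝ) < (S : ℝ) := by
    have : 0 < S := by omega
    exact_mod_cast this
  have hQtop : Q ≠ ⊤ := by
    intro h1
    have h2 : finrank L Q = N3 S := by
      rw [h1, finrank_top, Module.finrank_fintype_fun_eq_card, hcard]
    rw [h2] at hq2
    have : 0 < 3 * (S : ℝ) ^ 2 / 8 := by positivity
    linarith
  have hrankQ : 1 ≤ finrank L Q := by
    rw [Nat.one_le_iff_ne_zero, Ne, Submodule.finrank_eq_zero]
    intro h4
    have h1 := hQ.mem
    rw [h4, Submodule.mem_bot] at h1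
    exact xi_ne_zero hp h1
  have hrankW : 1 ≤ finrank L W := by
    rw [Nat.one_le_iff_ne_zero, Ne, Submodule.finrank_eq_zero]
    intro h4
    have h1 := hW.mem
    rw [h4, Submodule.mem_bot] at h1
    exact xi_ne_zero hp h1
  obtain ⟨a, e, A, hs, hA0, hA, h1, h2, h3⟩ := core h hp hSd hQtop hQ.mem hW.mem
    (fun G hG u hu => IsSl.ctr_eq_zero h (show S + (d - S) = d by omega) hQd hQ hG.1 hG.2
      (hWQ hu))
  rw [hcard] at h1 h2
  have hcard' : Fintype.card (M3 e) = N3 e := card_M3 e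
  rw [hcard'] at h2
  have ha := numA2 hT hS hs hq1 h2
  have hα : 0 ≤ polyHeight κ A := polyHeight_nonneg h hA0
  have hαr : (0 : ℝ) ≤ (polyHeight κ A : ℝ) := by exact_mod_cast hα
  have hrq : (1 : ℝ) ≤ (finrank L Q : ℝ) := by exact_mod_cast hrankQ
  have h1' : (polyHeight κ A : ℝ) * ((N3 S : ℝ) - finrank L Q) ≤ S * (height κ X.x : ℝ) := by
    have h4 : (polyHeight κ A : ℝ) * ((N3 S : ℝ) - finrank L Q) ≤ ht κ Q := by exact_mod_cast h1
    have h5 : 0 ≤ (height κ X.x : ℝ) / T * ((finrank L Q : ℝ) - 1) :=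
      mul_nonneg (div_pos hHr hTr).le (by linarith)
    linarith
  have hA3 := numA3 (show 8 ≤ S by omega) hαr hq2 h1'
  rcases h3 with h3 | h3
  · left
    refine ⟨a, A, ha, hA0, hA, h3, ?_⟩
    have h4 : (3 : ℝ) * ((polyHeight κ A : ℝ) * S) ≤ 8 * (height κ X.x : ℝ) := by linarith
    exact_mod_cast h4
  · right
    rw [X.height_p] at h3
    have hW2 : ((d : ℝ) - a - 2 * e + 1) * (height κ X.x : ℝ) ≤
        (ht κ W : ℝ) + e * (2 * e + 1) * (polyHeight κ A : ℝ) := by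
      exact_mod_cast h3
    have hτ : 0 ≤ 2 * (height κ X.x : ℝ) / T := (div_pos hHr hTr |>.le.trans hμ.le)
    have hrW : (1 : ℝ) ≤ (finrank L W : ℝ) := by exact_mod_cast hrankW
    have hS' : (8 : ℝ) ≤ (S : ℝ) := by
      have : 8 ≤ S := by omega
      exact_mod_cast this
    have hs' : (a : ℝ) + e = S := by exact_mod_cast hs
    have ha0 : (0 : ℝ) ≤ a := Nat.cast_nonneg a
    have he0 : (0 : ℝ) ≤ e := Nat.cast_nonneg e
    -- the error term
    have h4 : (e : ℝ) * (2 * e + 1) * (polyHeight κ A : ℝ) ≤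
        (2 * S + 1) * (8 / 3 * (height κ X.x : ℝ)) := by
      have h5 : (e : ℝ) * (2 * e + 1) ≤ S * (2 * S + 1) :=
        mul_le_mul (by linarith) (by linarith) (by linarith) (by linarith)
      calc (e : ℝ) * (2 * e + 1) * (polyHeight κ A : ℝ) ≤ S * (2 * S + 1) * (polyHeight κ A : ℝ) :=
            mul_le_mul_of_nonneg_right h5 hαr
        _ = (2 * S + 1) * ((polyHeight κ A : ℝ) * S) := by ring
        _ ≤ (2 * S + 1) * (8 / 3 * (height κ X.x : ℝ)) :=
            mul_le_mul_of_nonneg_left hA3 (by linarith)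
    have h5 : ((d : ℝ) - 2 * S + 1) * (height κ X.x : ℝ) ≤
        ((d : ℝ) - a - 2 * e + 1) * (height κ X.x : ℝ) :=
      mul_le_mul_of_nonneg_right (by linarith) hHr.le
    have h6 := mul_le_mul_of_nonneg_left hrW hτ
    have h7 : ((d : ℝ) - 8 * S) * (height κ X.x : ℝ) ≤
        (ht κ V : ℝ) + 2 * (height κ X.x : ℝ) / T * finrank L V := by
      have h8 := mul_le_mul_of_nonneg_right hS' hHr.le
      nlinarith
    have h8 := mul_le_mul_of_nonneg_left h7 hTr.le
    have h9 : (T : ℝ) * ((ht κ V : ℝ) + 2 * (height κ X.x : ℝ) / T * finrank L V) =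
        T * (ht κ V : ℝ) + 2 * (height κ X.x : ℝ) * finrank L V := by
      field_simp
    rw [h9] at h8
    exact_mod_cast h8

end Pool.Agent.Lib.MP_44a246_ntK
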