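import Mathlib
import Pool.Agent.Lib.MP_44a246_ntW.W26
import Pool.Agent.Lib.MP_44a246_ntZ.Z10

/-!
Numerical lemmas for the height theorem for complete intersections.
-/

namespace Pool.Agent.Lib.MP_44a246_ntK

open Pool.Agent.Lib.MP_44a246_ntW
open Pool.Agent.Lib.MP_44a246_ntL
open Pool.Agent.Lib.MP_44a246_ntS

/-- the numerical facts which follow from the hypotheses on the degree of a block -/
theorem numK1 {R d T m : ℕ} (hT : 1 ≤ T) (hm : 1 ≤ m) (hT2 : 2000 * T ^ 2 ≤ d) (hR : R ≤ m * d)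
    (hU : 8500 * (T * m) + 2 ≤ d) :
    10 * NN R T ≤ 41 * (T * m * d) ∧ 32 * NN R T ≤ (d / 8) ^ 2 := by
  have h2 : 10 * NN R T ≤ 41 * (T * m * d) := by
    unfold NN
    have e1 : (2 * (2 * T) + 1) * (2 * T + 1) ^ 2 ≤ 45 * T ^ 3 := by
      have a1 : 2 * (2 * T) + 1 ≤ 5 * T := by omega
      have a2 : (2 * T + 1) ^ 2 ≤ (3 * T) ^ 2 := Nat.pow_le_pow_left (by omega) 2
      calc (2 * (2 * T) + 1) * (2 * T + 1) ^ 2 ≤ 5 * T * (3 * T) ^ 2 := Nat.mul_le_mul a1 a2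
        _ = 45 * T ^ 3 := by ring
    have e2 : 2000 * T ^ 3 ≤ T * d := by
      calc 2000 * T ^ 3 = T * (2000 * T ^ 2) := by ring
        _ ≤ T * d := Nat.mul_le_mul_left _ hT2
    have e3 : T * d ≤ T * m * d := by
      calc T * d = T * 1 * d := by ring
        _ ≤ T * m * d := Nat.mul_le_mul_right _ (Nat.mul_le_mul_left _ hm)
    have e4 : T * R ≤ T * m * d := by
      calc T * R ≤ T * (m * d) := Nat.mul_le_mul_left _ hR
        _ = T * m * d := by ring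
    have e5 : 8502 ≤ d := by
      have : 1 ≤ T * m := Nat.mul_pos hT hm
      omega
    have e6 : T * 8502 ≤ T * d := Nat.mul_le_mul_left _ e5
    have e7 : 2 * (2 * T) * (R + 1) = 4 * (T * R) + 4 * T := by ring
    rw [e7]
    omega
  refine ⟨h2, ?_⟩
  have h3 : d ≤ 8 * (d / 8) + 7 := by omega
  have h4 : 1062 * (T * m) ≤ d / 8 := by omega
  have hTm : 1 ≤ T * m := Nat.mul_pos hT hm
  generalize d / 8 = t at h3 h4 ⊢
  generalize T * m = U at h2 h4 hTm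
  have h5 : 1062 ≤ t := by omega
  have h6 : 1062 * (U * d) ≤ t * (8 * t + 7) := by
    calc 1062 * (U * d) = (1062 * U) * d := by ring
      _ ≤ t * (8 * t + 7) := Nat.mul_le_mul h4 h3
  nlinarith

/-- the hypotheses of step B -/
theorem numK2 {d T U N s₀ : ℕ} (hT : 1 ≤ T) (hTU : T ≤ U) (h1 : 8500 * U + 2 ≤ d)
    (h2 : 10 * N ≤ 41 * (U * d)) (hr : 2500 * (U * s₀) ≤ d)
    {H α : ℤ} (hH : 0 < H) (hα0 : 0 ≤ α) (hα : 3 * (α * (850 * U : ℕ)) ≤ 8 * H) :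
    16 * ((s₀ : ℤ) * H + 4 * (N : ℤ) * α) < d * H ∧
      28 * (N : ℤ) * ((d / 8 : ℕ) : ℤ) * α +
        16 * ((2 * T : ℕ) : ℤ) * ((s₀ : ℤ) * H + 4 * (N : ℤ) * α) <
          7 * ((d / 8 : ℕ) : ℤ) ^ 2 * H ∧
      36 * ((2 * T : ℕ) : ℤ) * α ≤ H := by
  have h3 : d ≤ 8 * (d / 8) + 7 := by omega
  have h4 : 1062 * U ≤ d / 8 := by omega
  have hT0 : (1 : ℤ) ≤ T := by exact_mod_cast hT
  have hTU' : (T : ℤ) ≤ U := by exact_mod_cast hTU
  have hT1 : (1 : ℤ) ≤ U := by linarith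
  have h1' : 8500 * (U : ℤ) + 2 ≤ d := by exact_mod_cast h1
  have h2' : 10 * (N : ℤ) ≤ 41 * (U * d) := by exact_mod_cast h2
  have hr' : 2500 * (s₀ : ℤ) ≤ d := by
    have h5 : s₀ ≤ U * s₀ := Nat.le_mul_of_pos_left _ (by omega)
    have h6 : 2500 * s₀ ≤ d := by omega
    exact_mod_cast h6
  generalize hs : ((d / 8 : ℕ) : ℤ) = s
  have h3' : (d : ℤ) ≤ 8 * s + 7 := by rw [← hs]; exact_mod_cast h3
  have h4' : 1062 * (U : ℤ) ≤ s := by rw [← hs]; exact_mod_cast h4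
  have hM0 : (0 : ℤ) ≤ (N : ℤ) := by positivity
  have hρ0 : (0 : ℤ) ≤ (s₀ : ℤ) := by positivity
  generalize (s₀ : ℤ) = ρ at hr' hρ0 ⊢
  generalize (N : ℤ) = M at h2' hM0 ⊢
  push_cast at hα ⊢
  generalize (d : ℤ) = D at h1' h2' h3' hr' ⊢
  generalize (T : ℤ) = V at hT0 hTU' ⊢
  generalize (U : ℤ) = U at hT1 h1' h2' h4' hα hTU' ⊢
  have hD0 : 8502 ≤ D := by linarith
  have hs0 : 1062 ≤ s := by linarith
  -- `K = U α`, `2550 K ≤ 8 H`
  obtain ⟨K, hK⟩ : ∃ K, K = U * α := ⟨_, rfl⟩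
  have hK0 : 0 ≤ K := by rw [hK]; positivity
  have hK1 : 2550 * K ≤ 8 * H := by rw [hK]; linarith
  -- `M α`
  obtain ⟨J, hJ⟩ : ∃ J, J = M * α := ⟨_, rfl⟩
  have hJ0 : 0 ≤ J := by rw [hJ]; positivity
  have hJ1 : 10 * J ≤ 41 * (D * K) := by
    have := mul_le_mul_of_nonneg_right h2' hα0
    rw [hJ, hK]
    nlinarith
  have hDK : D * (2550 * K) ≤ D * (8 * H) := mul_le_mul_of_nonneg_left hK1 (by linarith)
  have hJ2 : 25500 * J ≤ 328 * (D * H) := by nlinarith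
  have hDH : 0 < D * H := mul_pos (by linarith) hH
  have hρH : 2500 * (ρ * H) ≤ D * H := by
    have := mul_le_mul_of_nonneg_right hr' hH.le
    linarith
  have hη0 : 0 ≤ ρ * H + 4 * M * α := by positivity
  have hη : 16 * (ρ * H + 4 * M * α) < D * H := by
    have e : 16 * (ρ * H + 4 * M * α) = 16 * (ρ * H) + 64 * J := by rw [hJ]; ring
    rw [e]
    linarith
  refine ⟨hη, ?_, ?_⟩
  · have e : 28 * M * s * α + 16 * (2 * V) * (ρ * H + 4 * M * α) =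
        28 * (s * J) + 2 * (V * (16 * (ρ * H + 4 * M * α))) := by rw [hJ]; ring
    rw [e]
    have e0 : V * (16 * (ρ * H + 4 * M * α)) ≤ U * (16 * (ρ * H + 4 * M * α)) :=
      mul_le_mul_of_nonneg_right hTU' (by linarith)
    have e1 : U * (16 * (ρ * H + 4 * M * α)) ≤ U * (D * H) :=
      mul_le_mul_of_nonneg_left hη.le (by linarith)
    have e2 : s * (25500 * J) ≤ s * (328 * (D * H)) := mul_le_mul_of_nonneg_left hJ2 (by linarith)
    have e3 : 1062 * (U * (D * H)) ≤ s * (D * H) := by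
      have : 0 ≤ D * H := hDH.le
      have := mul_le_mul_of_nonneg_right h4' this
      linarith
    have e4 : s * (D * H) ≤ s * ((8 * s + 7) * H) :=
      mul_le_mul_of_nonneg_left (mul_le_mul_of_nonneg_right h3' hH.le) (by linarith)
    have e5 : s * ((8 * s + 7) * H) = 8 * (s ^ 2 * H) + 7 * (s * H) := by ring
    have e6 : 1062 * (s * H) ≤ s ^ 2 * H := by
      have : 0 ≤ s * H := mul_nonneg (by linarith) hH.le
      have := mul_le_mul_of_nonneg_right hs0 this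
      nlinarith
    have e7 : 0 < s ^ 2 * H := by positivity
    have e8 : 7 * s ^ 2 * H = 7 * (s ^ 2 * H) := by ring
    rw [e8]
    have e9 : s * J * 25500 ≤ 328 * (s * (D * H)) := by nlinarith
    nlinarith
  · have e : 36 * (2 * V) * α ≤ 72 * K := by
      rw [hK]
      have := mul_le_mul_of_nonneg_right hTU' hα0
      linarith
    linarith

/-- the hypotheses of step C -/
theorem numK3 {d T e s₀ : ℕ} (hs₀ : 3 ≤ s₀) (hT : 1 ≤ T) (h1 : 8500 * T + 2 ≤ d)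
    (he : 2000 * (s₀ * (T * e)) ≤ d ^ 2)
    {H α Δ Θ : ℤ} (hH : 0 < H) (hΔ : 0 ≤ Δ) (hΘ : 0 ≤ Θ)
    (hα : 5 * (α * ((d / 8 : ℕ) : ℤ) ^ 2) ≤ 16 * ((s₀ : ℤ) * H))
    (hbig : 27 * (d : ℤ) ^ 2 * (Δ + Θ) < H) :
    (e * ((2 * T : ℕ) : ℤ)) * α + ((2 * T : ℕ) : ℤ) * (Θ + e * (2 * α + Δ)) < H := by
  have h3 : d ≤ 8 * (d / 8) + 7 := by omega
  have h4 : 1062 * T ≤ d / 8 := by omega
  have hT1 : (1 : ℤ) ≤ T := by exact_mod_cast hT
  have h1' : 8500 * (T : ℤ) + 2 ≤ d := by exact_mod_cast h1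
  generalize hs : ((d / 8 : ℕ) : ℤ) = s at hα
  have h3' : (d : ℤ) ≤ 8 * s + 7 := by rw [← hs]; exact_mod_cast h3
  have h4' : 1062 * (T : ℤ) ≤ s := by rw [← hs]; exact_mod_cast h4
  have he' : 2000 * ((s₀ : ℤ) * ((T : ℤ) * e)) ≤ (d : ℤ) ^ 2 := by exact_mod_cast he
  have he0 : (0 : ℤ) ≤ (T : ℤ) * e := by positivity
  have hρ : (3 : ℤ) ≤ (s₀ : ℤ) := by exact_mod_cast hs₀
  generalize (s₀ : ℤ) = ρ at he' hρ hα
  push_cast
  obtain ⟨W, hW⟩ : ∃ W : ℤ, W = T * e := ⟨_, rfl⟩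
  rw [← hW] at he' he0
  generalize (d : ℤ) = D at h1' h3' hbig he'
  have hD0 : 8502 ≤ D := by linarith
  have hs0 : 1062 ≤ s := by linarith
  have hs2 : 0 < s ^ 2 := by positivity
  -- `D ^ 2 ≤ 66 s ^ 2`
  have hD2 : D ^ 2 ≤ 66 * s ^ 2 := by nlinarith
  -- `9 W α ≤ H`
  have h5 : 9 * (W * α) ≤ H := by
    have h6 : W * (5 * (α * s ^ 2)) ≤ W * (16 * (ρ * H)) := mul_le_mul_of_nonneg_left hα he0
    have h7 : 2000 * (ρ * W) * H ≤ 66 * s ^ 2 * H :=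
      mul_le_mul_of_nonneg_right (he'.trans hD2) hH.le
    have h8 : s ^ 2 * (9 * (W * α)) ≤ s ^ 2 * H := by nlinarith
    exact le_of_mul_le_mul_left h8 hs2
  have hW0 : 6000 * W ≤ D ^ 2 := by
    have := mul_le_mul_of_nonneg_right hρ he0
    linarith
  have hTD : (T : ℤ) ≤ D := by linarith
  have h10 : (T : ℤ) * Θ ≤ D ^ 2 * Θ := mul_le_mul_of_nonneg_right (by nlinarith) hΘ
  have h11 : 6000 * (W * Δ) ≤ D ^ 2 * Δ := by
    have := mul_le_mul_of_nonneg_right hW0 hΔ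
    linarith
  have h12 : (e : ℤ) * (2 * T) * α + 2 * T * (Θ + e * (2 * α + Δ)) =
      6 * (W * α) + 2 * (T * Θ) + 2 * (W * Δ) := by rw [hW]; ring
  rw [h12]
  have h13 : 0 ≤ D ^ 2 * Θ := by positivity
  have h14 : 0 ≤ D ^ 2 * Δ := by positivity
  have h15 : 0 ≤ W * Δ := mul_nonneg he0 hΔ
  nlinarith

/-- numerical facts for the second bound -/
theorem numK4 {d U N s : ℕ} (hU : 1 ≤ U) (h1 : 8500 * U + 2 ≤ d)
    (h2 : 10 * N ≤ 41 * (U * d)) (hs3 : 3 ≤ s) (hq : 2500 * (U * s) ≤ d)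
    {H α Δ E : ℤ} (hH : 0 < H) (hΔ : 0 ≤ Δ) (hE : Δ ≤ E) (hα0 : 0 ≤ α)
    (hα : 5 * (α * ((d / 8 : ℕ) : ℤ) ^ 2) ≤ 16 * (s * H)) (hbig : 27 * (d : ℤ) ^ 2 * E < H) :
    8 * (d : ℤ) * α ≤ H ∧
      (N : ℤ) * (4 * α + 3 * Δ) + (s - 1) * H + E ≤ (s + 1) * H := by
  have h3 : d ≤ 8 * (d / 8) + 7 := by omega
  have hT1 : (1 : ℤ) ≤ U := by exact_mod_cast hU
  have h1' : 8500 * (U : ℤ) + 2 ≤ d := by exact_mod_cast h1
  have h2' : 10 * (N : ℤ) ≤ 41 * (U * d) := by exact_mod_cast h2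
  generalize hs : ((d / 8 : ℕ) : ℤ) = S at hα
  have h3' : (d : ℤ) ≤ 8 * S + 7 := by rw [← hs]; exact_mod_cast h3
  have hq' : 2500 * ((U : ℤ) * s) ≤ d := by exact_mod_cast hq
  have hs3' : (3 : ℤ) ≤ s := by exact_mod_cast hs3
  have hM0 : (0 : ℤ) ≤ (N : ℤ) := by positivity
  generalize (N : ℤ) = M at h2' hM0 ⊢
  generalize (s : ℤ) = s' at hs3' hq' hα ⊢
  generalize (d : ℤ) = D at h1' h2' h3' hq' hbig ⊢
  generalize (U : ℤ) = U at hT1 h1' h2' hq'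
  have hE0 : 0 ≤ E := hΔ.trans hE
  have hD0 : 8502 ≤ D := by linarith
  have hS0 : 1062 ≤ S := by linarith
  -- `D ^ 2 ≤ 65 S ^ 2`
  have hD2 : D ^ 2 ≤ 65 * S ^ 2 := by nlinarith
  -- `α D ^ 2 ≤ 208 s H`
  have h4 : α * D ^ 2 ≤ 208 * (s' * H) := by
    have h5 : α * D ^ 2 ≤ α * (65 * S ^ 2) := mul_le_mul_of_nonneg_left hD2 hα0
    linarith
  have hUs : s' ≤ U * s' := le_mul_of_one_le_left (by linarith) hT1
  have hsH : 2500 * (s' * H) ≤ D * H := by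
    have := mul_le_mul_of_nonneg_right (hUs.trans (le_refl _)) hH.le
    have h6 := mul_le_mul_of_nonneg_right hq' hH.le
    linarith
  have hDpos : 0 < D := by linarith
  constructor
  · have h6 : D * (8 * D * α) ≤ D * H := by nlinarith
    exact le_of_mul_le_mul_left h6 hDpos
  · have h7 : D * (M * α) * 10 ≤ 41 * (U * (α * D ^ 2)) := by
      have h8 := mul_le_mul_of_nonneg_right h2' (mul_nonneg hDpos.le hα0)
      calc D * (M * α) * 10 = 10 * M * (D * α) := by ring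
        _ ≤ 41 * (U * D) * (D * α) := h8
        _ = 41 * (U * (α * D ^ 2)) := by ring
    have h9 : U * (α * D ^ 2) ≤ U * (208 * (s' * H)) :=
      mul_le_mul_of_nonneg_left h4 (by linarith)
    have h10 : 2500 * (U * s' * H) ≤ D * H := by
      have := mul_le_mul_of_nonneg_right hq' hH.le
      linarith
    have h11 : D * (4 * (M * α)) * 25000 ≤ D * (34112 * H) := by nlinarith
    have h12 : 4 * (M * α) * 25000 ≤ 34112 * H := by
      have : D * (4 * (M * α) * 25000) ≤ D * (34112 * H) := by linarith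
      exact le_of_mul_le_mul_left this hDpos
    -- the terms with `Δ` and `E`
    have h13 : 8500 * (U * D) ≤ D ^ 2 := by nlinarith
    have h14 : M * Δ ≤ D ^ 2 * E := by
      have h15 : M ≤ D ^ 2 := by nlinarith
      exact mul_le_mul h15 hE hΔ (by positivity)
    have h16 : 85000 * (M * Δ) ≤ 41 * (D ^ 2 * E) := by
      have h17 : 85000 * M ≤ 41 * D ^ 2 := by nlinarith
      have h18 := mul_le_mul_of_nonneg_right h17 hΔ
      have h19 : D ^ 2 * Δ ≤ D ^ 2 * E := mul_le_mul_of_nonneg_left hE (by positivity)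
      nlinarith
    have h20 : E ≤ D ^ 2 * E := by
      have : 1 ≤ D ^ 2 := by nlinarith
      exact le_mul_of_one_le_left hE0 this
    have h21 : 27 * (D ^ 2 * E) < H := by linarith
    have e : M * (4 * α + 3 * Δ) + (s' - 1) * H + E =
        4 * (M * α) + 3 * (M * Δ) + E + (s' + 1) * H - 2 * H := by ring
    rw [e]
    linarith

/-- the number of the monomials -/
theorem numK5 {N d U s : ℕ} (hq : 2500 * (U * s) ≤ d)
    (n1 : 8500 * U + 2 ≤ d) (n2 : 10 * N ≤ 41 * (U * d)) :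
    25 * N + 2 * d ^ 2 ≤ 5 * Fintype.card (M3 (d - 24 * (U * s))) :=
  Pool.Agent.Lib.MP_44a246_ntZ.numCard (r := 0) hq (by omega) n2

end Pool.Agent.Lib.MP_44a246_ntK
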