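import Mathlib
import Pool.Agent.Lib.MP_44a246_ntD.D05
import Pool.Agent.Lib.MP_44a246_ntK.K05
import Pool.Agent.Lib.MP_44a246_ntK.K06

/-!
Steps B and C in one block, starting from the curve of step A.
-/

namespace Pool.Agent.Lib.MP_44a246_ntK

open Pool.Agent.Lib.MP_44a246_nt
open Pool.Agent.Lib.MP_44a246_ntL
open Pool.Agent.Lib.MP_44a246_ntS
open Pool.Agent.Lib.MP_44a246_ntX
open Pool.Agent.Lib.MP_44a246_ntW
open Pool.Agent.Lib.MP_44a246_ntG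
open Pool.Agent.Lib.MP_44a246_ntD
open Pool.Agent.Lib.MP_44a246_ntZ
open Pool.Agent.Lib.MP_e52354_nt
open WithZero Module Polynomial

variable {κ L : Type*} [Field κ] [IsAlgClosed κ] [CharZero κ] [Field L] [Algebra κ L]

/-- the dimension of the space of the rows -/
theorem finrank_VJB [CharZero L] (h : IsFF κ L) {n d T r r₀ : ℕ} (hT : 1 ≤ T) (X : DatG κ (L := L) n d)
    {A : L[X][X]} (hCA : CrvG X (2 * T) A) (hmon : A.leadingCoeff.Monic)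
    {γ : Type*} [Fintype γ] {β : γ → L} {J : Finset (Fin (n + 1))} (hJc : J.card ≤ r₀)
    (hrr : r₀ + Fintype.card γ ≤ r)
    (hspan : 9 * ((2 * T : ℕ) : ℤ) * gh κ A + 3 * ((2 * T : ℕ) : ℤ) * X.Δ < height κ X.x) :
    finrank L (X.VJ J (2 * T) A ⊔ RB X β : Submodule L (M3 d → L)) ≤ NN r T := by
  have hVJ := finrank_VJ_span h X J hCA hmon hspan
  have h1 := Submodule.finrank_add_le_finrank_add_finrank (X.VJ J (2 * T) A) (RB X β)
  have h2 : finrank L (RB X β) ≤ Fintype.card γ := finrank_range_le_card _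
  have h4 : 2 * (2 * T) * (J.card + Fintype.card γ) ≤ 2 * (2 * T) * r :=
    Nat.mul_le_mul_left _ (by omega)
  have h6 : 2 * (2 * T) * (J.card + Fintype.card γ) =
      2 * (2 * T) * J.card + 2 * (2 * T) * Fintype.card γ := by ring
  have h7 : Fintype.card γ ≤ 2 * (2 * T) * Fintype.card γ := Nat.le_mul_of_pos_left _ (by omega)
  have h5 : NN r T = (2 * (2 * T) + 1) * (2 * T + 1) ^ 2 + (2 * (2 * T) * r + 2 * (2 * T)) + 1 := by
    unfold NN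
    ring
  omega

/-- **Step B in one block.** -/
theorem small_curve_block [CharZero L] (h : IsFF κ L) {n d T U r r₀ s : ℕ} (hT : 1 ≤ T) (hTU : T ≤ U)
    (n1 : 8500 * U + 2 ≤ d) (n2 : 10 * NN r T ≤ 41 * (U * d)) (n3 : 32 * NN r T ≤ (d / 8) ^ 2)
    (hq : 2500 * (U * s) ≤ d) (X : DatG κ (L := L) n d)
    {γ : Type*} [Fintype γ] {β : γ → L} (hr₀ : finrank L X.Ux ≤ r₀) (hrr : r₀ + Fintype.card γ ≤ r)
    (hv0 : X.row X.v ∈ X.Ux ⊔ RB X β) {E : ℤ}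
    (hA : ∃ (a : ℕ) (A : MvPolynomial (Fin 3) L), a ≤ 2 * T ∧ A ≠ 0 ∧ A.IsHomogeneous a ∧
        MvPolynomial.eval X.p A = 0 ∧ 3 * (polyHeight κ A * ((850 * U : ℕ) : ℤ)) ≤
          8 * height κ X.x)
    (hv : ∀ {b : ℕ} {A : L[X][X]}, CrvG X b A → ∀ {J : Finset (Fin (n + 1))} {N : ℕ},
      finrank L (X.VJ J b A ⊔ RB X β : Submodule L (M3 d → L)) ≤ N →
      ht κ (X.VJ J b A ⊔ RB X β) ≤
        N * (4 * gh κ A + 3 * X.Δ) + (s - 1) * height κ X.x + E)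
    (hE : X.Δ ≤ E) (hbig : 27 * (d : ℤ) ^ 2 * E < height κ X.x) :
    ∃ A : L[X][X], CrvG X (2 * T) A ∧ A.leadingCoeff.Monic ∧
      5 * (gh κ A * ((d / 8 : ℕ) : ℤ) ^ 2) ≤ 16 * ((s : ℤ) * height κ X.x) := by
  have hΔ := X.Δ_nonneg
  have hE0 : 0 ≤ E := hΔ.trans hE
  have hd1 : (8502 : ℤ) ≤ d := by
    have : 8502 ≤ d := by omega
    exact_mod_cast this
  have hUd : (U : ℤ) ≤ d := by
    have : U ≤ d := by omega
    exact_mod_cast this
  have hT1 : (1 : ℤ) ≤ T := by exact_mod_cast hT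
  have hTU' : (T : ℤ) ≤ U := by exact_mod_cast hTU
  have hd2 : (d : ℤ) ≤ (d : ℤ) ^ 2 := by nlinarith
  have hpos : 0 < height κ X.x :=
    lt_of_le_of_lt (mul_nonneg (by positivity) hE0) hbig
  have hb1 : 27 * (d : ℤ) ^ 2 * X.Δ < height κ X.x := by
    have : 27 * (d : ℤ) ^ 2 * X.Δ ≤ 27 * (d : ℤ) ^ 2 * E :=
      mul_le_mul_of_nonneg_left hE (by positivity)
    linarith
  obtain ⟨a, P, ha2, hP0, hPh, hPe, hPb⟩ := hA
  -- the curve
  have hα0 : 0 ≤ polyHeight κ P := polyHeight_nonneg h hP0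
  obtain ⟨-, -, hq1⟩ := numK2 hT hTU n1 n2 hq hpos hα0 hPb
  have hbox : Box (2 * T) (deh P) := by
    have h1 := deh_box hPh
    exact ⟨h1.1.trans ha2, fun i => (h1.2 i).trans ha2⟩
  obtain ⟨A₀, c1, c2, c3, c4, c5, c6, c7, c8⟩ := exists_curve h (deh_ne_zero hPh hP0) hbox
    (y₁ := X.y₁) (y := X.y) (by rw [deh_eval]; exact hPe) (by omega) (by
      rw [gh_deh hPh, X.height_y₁]
      have : (0 : ℤ) < T := by linarith
      rcases hα0.eq_or_lt with h0 | h0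
      · rw [← h0, mul_zero]
        exact hpos
      · push_cast at hq1 ⊢
        nlinarith)
  have hCrv : CrvG X (2 * T) A₀ := ⟨c1, c3, c4, c5, c6, c8⟩
  obtain ⟨A, hCA, hgh, hmon⟩ := exists_monic h hCrv
  refine ⟨A, hCA, hmon, ?_⟩
  have hghle : gh κ A ≤ polyHeight κ P := by
    rw [hgh, ← gh_deh hPh]
    exact c7
  have hgA0 : 0 ≤ gh κ A := gh_nonneg h hCA.irr.ne_zero
  have hgb : 3 * (gh κ A * ((850 * U : ℕ) : ℤ)) ≤ 8 * height κ X.x := by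
    have : gh κ A * ((850 * U : ℕ) : ℤ) ≤ polyHeight κ P * ((850 * U : ℕ) : ℤ) :=
      mul_le_mul_of_nonneg_right hghle (by positivity)
    linarith
  obtain ⟨hη, hbez, hsp⟩ := numK2 hT hTU n1 n2 hq hpos hgA0 hgb
  -- step B
  obtain ⟨J, hJc, hJ⟩ := exists_J X
  have hJr : J.card ≤ r₀ := by
    rw [hJc]
    exact hr₀
  have hspan : 9 * ((2 * T : ℕ) : ℤ) * gh κ A + 3 * ((2 * T : ℕ) : ℤ) * X.Δ < height κ X.x := by
    have h1 : 3 * ((2 * T : ℕ) : ℤ) * X.Δ * 4 ≤ 27 * (d : ℤ) ^ 2 * X.Δ := by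
      have : 3 * ((2 * T : ℕ) : ℤ) * 4 ≤ 27 * (d : ℤ) ^ 2 := by push_cast; nlinarith
      calc 3 * ((2 * T : ℕ) : ℤ) * X.Δ * 4 = 3 * ((2 * T : ℕ) : ℤ) * 4 * X.Δ := by ring
        _ ≤ _ := mul_le_mul_of_nonneg_right this hΔ
    linarith
  have hfin := finrank_VJB h hT X hCA hmon (β := β) hJr hrr hspan
  have hTdd : (U : ℤ) * d ≤ (d : ℤ) ^ 2 := by nlinarith
  have hNN : 4 * ((NN r T : ℕ) : ℤ) * E + E ≤ height κ X.x := by
    have h1 : 10 * ((NN r T : ℕ) : ℤ) ≤ 41 * (U * d) := by exact_mod_cast n2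
    have h2 : (4 * ((NN r T : ℕ) : ℤ) + 1) * E ≤ 27 * (d : ℤ) ^ 2 * E :=
      mul_le_mul_of_nonneg_right (by nlinarith) hE0
    linarith
  have hN1 : (1 : ℤ) ≤ ((NN r T : ℕ) : ℤ) := by
    have : 1 ≤ NN r T := by unfold NN; omega
    exact_mod_cast this
  have hht : ht κ (X.VJ J (2 * T) A ⊔ RB X β) ≤
      (s : ℤ) * height κ X.x + 4 * ((NN r T : ℕ) : ℤ) * gh κ A := by
    have h1 := hv hCA hfin
    have h4 : ((NN r T : ℕ) : ℤ) * X.Δ ≤ ((NN r T : ℕ) : ℤ) * E :=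
      mul_le_mul_of_nonneg_left hE (by positivity)
    have h5 : 1 * E ≤ ((NN r T : ℕ) : ℤ) * E := mul_le_mul_of_nonneg_right hN1 hE0
    nlinarith
  have hs1 : 1 ≤ d / 8 := by omega
  obtain ⟨a, A', ha, hA'0, hA'h, hA'e, hA'b⟩ :=
    stepB_gen h X (xi_mem_VJB X hCA hJ hv0) hfin hht n3 (by omega) hs1 hpos hη
  exact stepB_fin h X hCA n3 hs1 le_rfl hbez ha hA'0 hA'h hA'e hA'b

/-- **The height of the curve is bounded by the poles of the derivations.** -/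
theorem gh_le_block [CharZero L] (h : IsFF κ L) {n d T U r r₀ s : ℕ} (hT : 1 ≤ T) (hTU : T ≤ U)
    (n1 : 8500 * U + 2 ≤ d) (n2 : 10 * NN r T ≤ 41 * (U * d)) (hs3 : 3 ≤ s)
    (hq : 2500 * (U * s) ≤ d) (X : DatG κ (L := L) n d) {A : L[X][X]} (hCA : CrvG X (2 * T) A)
    (hmon : A.leadingCoeff.Monic) {γ : Type*} [Fintype γ] {β : γ → L}
    (hβ : ∀ t, ∀ w : Place κ L, w.1 (β t) ≤ 1)
    (hr₀ : finrank L X.Ux ≤ r₀) (hrr : r₀ + Fintype.card γ ≤ r)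
    (hv0 : X.row X.v ∈ X.Ux ⊔ RB X β) {E : ℤ}
    (hv : ∀ {J : Finset (Fin (n + 1))} {N : ℕ},
      finrank L (X.VJ J (2 * T) A ⊔ RB X β : Submodule L (M3 d → L)) ≤ N →
      ht κ (X.VJ J (2 * T) A ⊔ RB X β) ≤
        N * (4 * gh κ A + 3 * X.Δ) + (s - 1) * height κ X.x + E)
    (hE : X.Δ ≤ E) (hbig : 27 * (d : ℤ) ^ 2 * E < height κ X.x)
    (hα : 5 * (gh κ A * ((d / 8 : ℕ) : ℤ) ^ 2) ≤ 16 * ((s : ℤ) * height κ X.x)) :
    (d : ℤ) ^ 2 * gh κ A ≤ (d : ℤ) ^ 2 * X.Δ + 3 * X.R := by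
  have hΔ := X.Δ_nonneg
  have hR := X.R_nonneg
  have hE0 : 0 ≤ E := hΔ.trans hE
  have hpos : 0 < height κ X.x :=
    lt_of_le_of_lt (mul_nonneg (by positivity) hE0) hbig
  have hα0 : 0 ≤ gh κ A := gh_nonneg h hCA.irr.ne_zero
  have hU1 : 1 ≤ U := hT.trans hTU
  obtain ⟨m1, m2⟩ := numK4 hU1 n1 n2 hs3 hq hpos hΔ hE hα0 hα hbig
  obtain ⟨J, hJc, hJ⟩ := exists_J X
  have hJr : J.card ≤ r₀ := by
    rw [hJc]
    exact hr₀
  have hT1 : (1 : ℤ) ≤ T := by exact_mod_cast hT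
  have hU1' : (1 : ℤ) ≤ U := by exact_mod_cast hU1
  have hTU' : (T : ℤ) ≤ U := by exact_mod_cast hTU
  have hdT : 8500 * (U : ℤ) + 2 ≤ d := by exact_mod_cast n1
  -- the span condition
  have hspan : 9 * ((2 * T : ℕ) : ℤ) * gh κ A + 3 * ((2 * T : ℕ) : ℤ) * X.Δ < height κ X.x := by
    push_cast
    have h1 : 8500 * ((T : ℤ) * gh κ A) ≤ d * gh κ A := by
      have := mul_le_mul_of_nonneg_right (show 8500 * (T : ℤ) ≤ d by linarith) hα0
      linarith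
    have h2 : (T : ℤ) * X.Δ ≤ (d : ℤ) ^ 2 * E := by
      have h3 : (T : ℤ) ≤ (d : ℤ) ^ 2 := by nlinarith
      exact mul_le_mul h3 hE hΔ (by positivity)
    nlinarith
  have hfin := finrank_VJB h hT X hCA hmon (β := β) hJr hrr hspan
  have hRC : finrank L (RC X J (2 * T) A ⊔ RB X β : Submodule L (M3 d → L)) ≤ NN r T :=
    (Submodule.finrank_mono (by rw [VJ_eq]; exact sup_le_sup_right le_sup_left _)).trans hfin
  -- the small space
  set R' : Submodule L (M3 d → L) := Submodule.span L {X.row X.y₁} with hR'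
  have hsup : (RC X J (2 * T) A ⊔ RB X β) ⊔ R' = X.VJ J (2 * T) A ⊔ RB X β := by
    rw [hR', VJ_eq, sup_assoc, sup_comm (RB X β), ← sup_assoc]
  have hq2 : finrank L R' ≤ 2 := by
    have h3 := finrank_span_le_card (R := L) ({X.row X.y₁} : Set (M3 d → L))
    have h4 : finrank L R' ≤ 1 := by simpa using h3
    omega
  have hht : ht κ ((RC X J (2 * T) A ⊔ RB X β) ⊔ R') ≤ (s + 1 : ℕ) * height κ X.x := by
    rw [hsup]
    have h1 := hv hfin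
    push_cast
    linarith
  have hhp : height κ ![1, X.y₁, X.y] = height κ X.x := X.height_p
  have hTs : T * s ≤ U * s := Nat.mul_le_mul_right _ hTU
  have hTs3 : 3 * T ≤ U * s := by
    calc 3 * T = T * 3 := mul_comm _ _
      _ ≤ T * s := Nat.mul_le_mul_left _ hs3
      _ ≤ U * s := hTs
  have key := gh_mul_le (b := 2 * T) (c := s + 1) (q := 2) (w := 24 * (U * s)) (d := d) h hCA.irr
    hCA.box hCA.deg hCA.zero (by rw [hhp]; exact hpos) (by rw [hhp]; exact m1)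
    (by rw [hsup]; exact xi_mem_VJB X hCA hJ hv0) hq2 (by rw [hhp]; exact hht)
    (by
      have : 8 * (2 * T) * (s + 1) = 16 * (T * s) + 16 * T := by ring
      omega) (by omega)
  have hle := key.trans (ht_RCB_le X hCA h J hβ)
  -- the number of the monomials
  have hcard' : 25 * ((NN r T : ℕ) : ℤ) + 2 * (d : ℤ) ^ 2 ≤
      5 * (Fintype.card (M3 (d - 24 * (U * s))) : ℤ) := by
    exact_mod_cast numK5 hq n1 n2
  have hRC' : (finrank L (RC X J (2 * T) A ⊔ RB X β : Submodule L (M3 d → L)) : ℤ) ≤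
      ((NN r T : ℕ) : ℤ) := by exact_mod_cast hRC
  have hn2 : 10 * ((NN r T : ℕ) : ℤ) ≤ 41 * (U * d) := by exact_mod_cast n2
  exact numFin hU1' hdT hn2 hα0 hΔ hR hRC' hcard' hle

/-- **The height theorem in one block.** -/
theorem height_block [CharZero L] (h : IsFF κ L) {n r r₀ d T U q M : ℕ} (hT : 1 ≤ T) (hTU : T ≤ U)
    (n1 : 8500 * U + 2 ≤ d) (n2 : 10 * NN r T ≤ 41 * (U * d)) (n3 : 32 * NN r T ≤ (d / 8) ^ 2)
    (hq : 2500 * (U * (q + 3)) ≤ d) (X : DatG κ (L := L) n d)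
    {γ : Type*} [Fintype γ] {β : γ → L} (hβ : ∀ t, ∀ w : Place κ L, w.1 (β t) ≤ 1)
    (hv : X.row X.v ∈ X.Ux ⊔ RB X β) (hr₀ : finrank L X.Ux ≤ r₀) (hrr : r₀ + Fintype.card γ ≤ r)
    (hR : X.R ≤ q * height κ X.x)
    (hA : ∃ (a : ℕ) (A : MvPolynomial (Fin 3) L), a ≤ 2 * T ∧ A ≠ 0 ∧ A.IsHomogeneous a ∧
        MvPolynomial.eval X.p A = 0 ∧ 3 * (polyHeight κ A * ((850 * U : ℕ) : ℤ)) ≤
          8 * height κ X.x)
    {τ : Place κ L → ℕ} (hτ : (Function.support τ).Finite)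
    {ι : Type*} {e : ι → ℕ} {a : ι → (Fin (n + 1) →₀ ℕ) → L}
    (he : ∀ i, 2000 * ((q + 3) * (T * e i)) ≤ d ^ 2 ∨ e i ≤ M)
    (ha : ∀ i, ∀ I ∈ expo (Fin (n + 1)) (e i), ∀ w : Place κ L, w.1 (a i I) ≤ exp (τ w : ℤ))
    (hz : ∀ i, Fval (e i) (a i) X.x = 0)
    (hbig : (d : ℤ) ^ 2 * ((27 * d ^ 2 + 8 * T * M) * (X.Δ + ∑ᶠ w, (τ w : ℤ))) +
      18 * T * M * X.R < (d : ℤ) ^ 2 * height κ X.x) :
    CertV e a (2 * T) X.x := by
  have hΔ := X.Δ_nonneg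
  have hR0 := X.R_nonneg
  have hΘ : 0 ≤ ∑ᶠ w, (τ w : ℤ) := finsum_nonneg fun w => Int.natCast_nonneg _
  generalize hΘe : ∑ᶠ w, (τ w : ℤ) = Θ at hΘ hbig
  have hU1 : 1 ≤ U := hT.trans hTU
  have hd1 : 1 ≤ d := by omega
  have hd1' : (1 : ℤ) ≤ d := by exact_mod_cast hd1
  have hd2' : (0 : ℤ) < (d : ℤ) ^ 2 := by positivity
  have hM0 : (0 : ℤ) ≤ 8 * T * M := by positivity
  have hM1 : (0 : ℤ) ≤ 18 * T * M * X.R := mul_nonneg (by positivity) hR0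
  have hbig'' : (27 * (d : ℤ) ^ 2 + 8 * T * M) * (X.Δ + Θ) < height κ X.x := by
    refine lt_of_mul_lt_mul_left ?_ hd2'.le
    linarith
  have hpos : 0 < height κ X.x :=
    lt_of_le_of_lt (mul_nonneg (by positivity) (add_nonneg hΔ hΘ)) hbig''
  have hbig3 : 27 * (d : ℤ) ^ 2 * (X.Δ + Θ) < height κ X.x := by
    have h2 : 0 ≤ (8 * T * M : ℤ) * (X.Δ + Θ) := mul_nonneg hM0 (add_nonneg hΔ hΘ)
    linarith
  have hbig' : 27 * (d : ℤ) ^ 2 * X.Δ < height κ X.x := by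
    have h1 : 0 ≤ 27 * (d : ℤ) ^ 2 * Θ := mul_nonneg (by positivity) hΘ
    linarith
  have hvVJ : ∀ {b : ℕ} {A : L[X][X]}, CrvG X b A → ∀ {J : Finset (Fin (n + 1))} {N : ℕ},
      finrank L (X.VJ J b A ⊔ RB X β : Submodule L (M3 d → L)) ≤ N →
      ht κ (X.VJ J b A ⊔ RB X β) ≤
        N * (4 * gh κ A + 3 * X.Δ) + (((q + 3 : ℕ) : ℤ) - 1) * height κ X.x + X.Δ := by
    intro b A hA J N hVN
    have h1 := ht_VJB_le X hA h hβ hVN
    push_cast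
    linarith
  obtain ⟨A, hCA, hmon, hα⟩ := small_curve_block h hT hTU n1 n2 n3 hq X hr₀ hrr hv (E := X.Δ) hA
    hvVJ le_rfl hbig'
  have hα0 : 0 ≤ gh κ A := gh_nonneg h hCA.irr.ne_zero
  have hαΔ := gh_le_block h hT hTU n1 n2 (by omega : 3 ≤ q + 3) hq X hCA hmon hβ hr₀ hrr hv
    (E := X.Δ) (fun {J N} hJN => hvVJ hCA hJN) le_rfl hbig' hα
  have hT0 : (1 : ℤ) ≤ T := by exact_mod_cast hT
  have hTd : 2 * (T : ℤ) ≤ 27 * (d : ℤ) ^ 2 := by
    have h3 : (T : ℤ) ≤ d := by exact_mod_cast (by omega : T ≤ d)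
    nlinarith
  refine stepC X hCA h hτ ha hz (fun i => ?_) ?_
  · rw [hΘe]
    rcases he i with hei | hei
    · exact numK3 (by omega) hT (by omega) hei hpos hΔ hΘ hα hbig3
    · have hei' : ((e i : ℕ) : ℤ) ≤ M := by exact_mod_cast hei
      have h1 := numZ2 hd1' hT0 hTd (Int.natCast_nonneg (e i)) hei' hΔ hΘ hR0 hαΔ hbig
      push_cast
      exact h1
  · have h1 := numK3 (e := 1) (s₀ := q + 3) (by omega) hT (by omega) (by
      rw [mul_one]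
      have h2 : 2000 * ((q + 3) * T) ≤ d := by
        have h3 : T * (q + 3) ≤ U * (q + 3) := Nat.mul_le_mul_right _ hTU
        rw [mul_comm (q + 3) T]
        omega
      calc 2000 * ((q + 3) * T) ≤ d := h2
        _ = d * 1 := (mul_one d).symm
        _ ≤ d * d := Nat.mul_le_mul_left _ hd1
        _ = d ^ 2 := (sq d).symm) hpos hΔ le_rfl hα
      (by rw [add_zero]; exact hbig')
    push_cast at h1 ⊢
    linarith

end Pool.Agent.Lib.MP_44a246_ntK
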