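import Mathlib
import Pool.Agent.Lib.MP_44a246_ntK.K02

/-!
Subspaces which contain the vectors of the powers of an element.
-/

namespace Pool.Agent.Lib.MP_44a246_ntK

open Pool.Agent.Lib.MP_44a246_nt
open Pool.Agent.Lib.MP_44a246_ntL
open Pool.Agent.Lib.MP_44a246_ntS
open Pool.Agent.Lib.MP_e52354_nt
open WithZero Module

section

variable {L : Type*} [Field L]

/-- the vector of the powers -/
def pw (t : L) (d : ℕ) : Fin (d + 1) → L := fun i => t ^ (i : ℕ)

theorem pw_ne_zero (t : L) (d : ℕ) : pw t d ≠ 0 := by
  intro h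
  have h1 := congrFun h 0
  simp [pw] at h1

theorem vmax_one_pair (v : Valuation L ℤᵐ⁰) (t : L) : vmax v ![1, t] = max 1 (v t) := by
  apply le_antisymm
  · refine vmax_le v fun i => ?_
    fin_cases i
    · show v 1 ≤ _
      rw [map_one]
      exact le_max_left _ _
    · exact le_max_right _ _
  · refine max_le ?_ ?_
    · have h1 := le_vmax v ![1, t] 0
      rwa [Matrix.cons_val_zero, map_one] at h1
    · exact le_vmax v ![1, t] 1

theorem vmax_pw (v : Valuation L ℤᵐ⁰) (t : L) (d : ℕ) :
    vmax v (pw t d) = vmax v ![1, t] ^ d := by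
  rw [vmax_one_pair]
  apply le_antisymm
  · refine vmax_le v fun i => ?_
    have hi : (i : ℕ) ≤ d := Nat.lt_succ_iff.1 i.2
    unfold pw
    rw [map_pow]
    calc v t ^ (i : ℕ) ≤ max 1 (v t) ^ (i : ℕ) := pow_le_pow_left' (le_max_right _ _) _
      _ ≤ max 1 (v t) ^ d := pow_le_pow_right₀ (le_max_left _ _) hi
  · rcases le_total (v t) 1 with h | h
    · rw [max_eq_left h, one_pow]
      have h1 := le_vmax v (pw t d) 0
      simpa [pw] using h1
    · rw [max_eq_right h]
      have h1 := le_vmax v (pw t d) (Fin.last d)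
      simpa [pw] using h1

/-- a constant vector of powers outside of a proper subspace -/
theorem exists_pw_notMem {κ : Type*} [Field κ] [Infinite κ] [Algebra κ L] {d : ℕ}
    {R : Submodule L (Fin (d + 1) → L)} (hR : R ≠ ⊤) :
    ∃ c : κ, pw (algebraMap κ L c) d ∉ R := by
  by_contra hcon
  push Not at hcon
  apply hR
  let e : ℕ ↪ κ := Infinite.natEmbedding κ
  let w : Fin (d + 1) → L := fun i => algebraMap κ L (e i)
  have hw : Function.Injective w := fun i j hij =>
    Fin.ext (e.injective ((algebraMap κ L).injective hij))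
  have hdet : (Matrix.vandermonde w).det ≠ 0 := Matrix.det_vandermonde_ne_zero_iff.2 hw
  have hli : LinearIndependent L (Matrix.vandermonde w) :=
    Matrix.linearIndependent_rows_of_det_ne_zero hdet
  have h1 : ∀ i, Matrix.vandermonde w i ∈ R := by
    intro i
    have h2 : Matrix.vandermonde w i = pw (w i) d := by
      funext j
      simp [pw, Matrix.vandermonde_apply]
    rw [h2]
    exact hcon (e i)
  have h2 : Submodule.span L (Set.range (Matrix.vandermonde w)) = ⊤ :=
    hli.span_eq_top_of_card_eq_finrank (by simp)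
  rw [← top_le_iff, ← h2, Submodule.span_le]
  rintro _ ⟨i, rfl⟩
  exact h1 i

end

section

variable {κ : Type*} [Field κ]

/-- the contraction by a linear form -/
def cm (c : κ) (d : ℕ) : Matrix (Fin (d + 1)) (Fin (d + 2)) κ :=
  Matrix.of fun i j => if j = i.succ then 1 else if j = i.castSucc then -c else 0

theorem cm_mulVec {L : Type*} [Field L] [Algebra κ L] (c : κ) (d : ℕ) (u : Fin (d + 2) → L) :
    ((cm c d).map (algebraMap κ L)).mulVec u =
      fun i => u i.succ - algebraMap κ L c * u i.castSucc := by
  classical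
  funext i
  rw [Matrix.mulVec, dotProduct]
  have hne : i.succ ≠ i.castSucc := by
    intro h
    have := congrArg Fin.val h
    simp at this
  have h1 : ∀ j : Fin (d + 2), ((cm c d).map (algebraMap κ L)) i j * u j =
      (if j = i.succ then u j else 0) + (if j = i.castSucc then - (algebraMap κ L c * u j) else 0) := by
    intro j
    by_cases h : j = i.succ
    · subst h
      rw [if_pos rfl, if_neg hne]
      simp [cm]
    · by_cases h' : j = i.castSucc
      · subst h'
        rw [if_neg h, if_pos rfl]
        simp [cm, h]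
      · rw [if_neg h, if_neg h']
        simp [cm, h, h']
  rw [Finset.sum_congr rfl fun j _ => h1 j, Finset.sum_add_distrib, Finset.sum_ite_eq',
    Finset.sum_ite_eq', if_pos (Finset.mem_univ _), if_pos (Finset.mem_univ _)]
  ring

theorem cm_pw {L : Type*} [Field L] [Algebra κ L] (c : κ) (d : ℕ) (t : L) :
    ((cm c d).map (algebraMap κ L)).mulVec (pw t (d + 1)) = (t - algebraMap κ L c) • pw t d := by
  rw [cm_mulVec]
  funext i
  simp only [pw, Fin.val_succ, Fin.val_castSucc, Pi.smul_apply, smul_eq_mul]
  ring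

theorem cm_ker {L : Type*} [Field L] [Algebra κ L] {c : κ} {d : ℕ} {u : Fin (d + 2) → L}
    (h : ((cm c d).map (algebraMap κ L)).mulVec u = 0) : u = u 0 • pw (algebraMap κ L c) (d + 1) := by
  rw [cm_mulVec] at h
  funext i
  induction i using Fin.induction with
  | zero => simp [pw]
  | succ i ih =>
    have h1 := congrFun h i
    simp only [Pi.zero_apply] at h1
    rw [sub_eq_zero] at h1
    rw [h1, ih]
    simp only [pw, Fin.val_succ, Fin.val_castSucc, Pi.smul_apply, smul_eq_mul]
    ring

end

section

variable {κ L : Type*} [Field κ] [IsAlgClosed κ] [CharZero κ] [Field L] [Algebra κ L]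

theorem height_pair_nonneg (h : IsFF κ L) (t : L) : 0 ≤ height κ ![1, t] := by
  refine h.height_nonneg fun h0 => ?_
  exact one_ne_zero (congrFun h0 0)

omit [IsAlgClosed κ] [CharZero κ] in
theorem height_pw (t : L) (d : ℕ) : height κ (pw t d) = d * height κ ![1, t] := by
  unfold height
  rw [mul_finsum]
  refine finsum_congr fun w => ?_
  rw [vmax_pw, log_pow, nsmul_eq_mul]

/-- **The height of a space which contains the vector of the powers.** -/
theorem ht_pw (h : IsFF κ L) {t : L} (htr : ∀ c : κ, t ≠ algebraMap κ L c) (d : ℕ)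
    (R : Submodule L (Fin (d + 1) → L)) (hR : pw t d ∈ R) :
    ((d : ℤ) + 1 - finrank L R) * height κ ![1, t] ≤ ht κ R := by
  have hh := height_pair_nonneg h t
  induction d with
  | zero =>
    have h1 : 1 ≤ finrank L R := by
      rw [Nat.one_le_iff_ne_zero, Ne, Submodule.finrank_eq_zero]
      rintro rfl
      exact pw_ne_zero t 0 ((Submodule.mem_bot L).1 hR)
    have h2 : (1 : ℤ) ≤ finrank L R := by exact_mod_cast h1
    have h3 := ht_nonneg h R
    refine le_trans ?_ h3
    exact mul_nonpos_of_nonpos_of_nonneg (by push_cast; linarith) hh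
  | succ d ih =>
    by_cases htop : R = ⊤
    · rw [htop, finrank_top, Module.finrank_fintype_fun_eq_card, Fintype.card_fin]
      have h1 : (((d + 1 : ℕ) : ℤ) + 1 - ((d + 1 + 1 : ℕ) : ℤ)) = 0 := by push_cast; ring
      rw [h1, zero_mul]
      exact ht_nonneg h _
    obtain ⟨c, hc⟩ := exists_pw_notMem (κ := κ) htop
    have hk : ∀ b ∈ R, ((cm c d).map (algebraMap κ L)).mulVec b = 0 → b = 0 := by
      intro b hb hb0
      have h1 := cm_ker hb0
      by_cases h2 : b 0 = 0
      · rw [h1, h2, zero_smul]
      · exfalso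
        apply hc
        have h3 : pw (algebraMap κ L c) (d + 1) = (b 0)⁻¹ • b := by
          rw [eq_inv_smul_iff₀ h2]
          exact h1.symm
        rw [h3]
        exact R.smul_mem _ hb
    have htc : t - algebraMap κ L c ≠ 0 := sub_ne_zero.2 (htr c)
    set f := ((cm c d).map (algebraMap κ L)).mulVecLin with hf
    have hmem : pw t d ∈ R.map f := by
      refine ⟨(t - algebraMap κ L c)⁻¹ • pw t (d + 1), R.smul_mem _ hR, ?_⟩
      rw [map_smul, hf, Matrix.mulVecLin_apply, cm_pw, smul_smul, inv_mul_cancel₀ htc, one_smul]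
    have h1 := ih (R.map f) hmem
    have hfr : finrank L (R.map f) = finrank L R := by
      have h2 := finrank_sup_map (A := ⊥) (B := R) (A' := ⊥) bot_le f
        (by rw [Submodule.map_bot]) (by
          intro b hb hb'
          rw [Submodule.mem_bot] at hb' ⊢
          exact hk b hb hb')
      rw [bot_sup_eq, finrank_bot, finrank_bot] at h2
      omega
    rw [hfr] at h1
    have h2 := ht_map_const h (cm c d) (A := Submodule.span L {pw t (d + 1)}) (B := R)
      (A' := Submodule.span L {pw t d}) ((Submodule.span_singleton_le_iff_mem _ _).2 hR) (by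
        rw [Submodule.map_span_le]
        intro m hm
        rw [Set.mem_singleton_iff] at hm
        subst hm
        rw [Matrix.mulVecLin_apply, cm_pw]
        exact Submodule.smul_mem _ _ (Submodule.mem_span_singleton_self _)) (by
        intro b hb hb'
        obtain ⟨a, ha⟩ := Submodule.mem_span_singleton.1 hb'
        have h3 : b - (a * (t - algebraMap κ L c)⁻¹) • pw t (d + 1) = 0 := by
          refine hk _ (R.sub_mem hb (R.smul_mem _ hR)) ?_
          rw [Matrix.mulVec_sub, Matrix.mulVec_smul, cm_pw, smul_smul, mul_assoc,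
            inv_mul_cancel₀ htc, mul_one, ha, sub_self]
        rw [sub_eq_zero] at h3
        rw [h3]
        exact Submodule.smul_mem _ _ (Submodule.mem_span_singleton_self _))
    have h3 : Submodule.span L {pw t d} ⊔ R.map f = R.map f :=
      sup_eq_right.2 ((Submodule.span_singleton_le_iff_mem _ _).2 hmem)
    rw [← hf, h3, ht_single h (pw_ne_zero _ _), ht_single h (pw_ne_zero _ _), height_pw,
      height_pw] at h2
    push_cast at h1 h2 ⊢
    nlinarith

variable {p : ℕ} (d : Fin p → ℕ)

open Classical in
/-- the vector of the powers in a block -/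
noncomputable def bpw {L : Type*} [Field L] {p : ℕ} (d : Fin p → ℕ) (t : L) (j : Fin p) :
    (Σ j : Fin p, Fin (d j + 1)) → L :=
  fun s => if s.1 = j then t ^ (s.2 : ℕ) else 0

/-- **The height of a space which contains the vectors of the powers in all blocks.** -/
theorem ht_bpw (h : IsFF κ L) {t : L} (htr : ∀ c : κ, t ≠ algebraMap κ L c)
    (R : Submodule L ((Σ j : Fin p, Fin (d j + 1)) → L)) (hR : ∀ j, bpw d t j ∈ R) :
    ((∑ j, (d j : ℤ)) + p - finrank L R) * height κ ![1, t] ≤ ht κ R := by
  classical
  have hh := height_pair_nonneg h t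
  obtain ⟨h1, h2⟩ := ht_piece h R
  have h3 : ∀ j, ((d j : ℤ) + 1 - finrank L (piece κ R j)) * height κ ![1, t] ≤
      ht κ (piece κ R j) := by
    intro j
    refine ht_pw h htr (d j) _ ?_
    have h4 := mem_piece (κ := κ) (j := j) (hR j) fun s hs => by simp [bpw, hs]
    have h5 : (fun i : Fin (d j + 1) => bpw d t j ⟨j, i⟩) = pw t (d j) := by
      funext i
      simp [bpw, pw]
    rw [h5] at h4
    exact h4
  have h4 := Finset.sum_le_sum fun j (_ : j ∈ Finset.univ) => h3 j
  rw [← Finset.sum_mul, Finset.sum_sub_distrib, Finset.sum_add_distrib, Finset.sum_const,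
    Finset.card_univ, Fintype.card_fin, nsmul_eq_mul, mul_one] at h4
  have h5 : (∑ j : Fin p, (finrank L (piece κ R j) : ℤ)) ≤ finrank L R := by exact_mod_cast h2
  have h6 := mul_le_mul_of_nonneg_right (show (∑ j, (d j : ℤ)) + p - finrank L R ≤
    (∑ j, (d j : ℤ)) + p - ∑ j : Fin p, (finrank L (piece κ R j) : ℤ) by linarith) hh
  linarith

/-- **Images of the vectors of the powers under a constant matrix.** -/
theorem ht_bpw_map (h : IsFF κ L) {t : L} (htr : ∀ c : κ, t ≠ algebraMap κ L c) {θ : Type*}
    [Fintype θ] [DecidableEq θ] (C : Matrix θ (Σ j : Fin p, Fin (d j + 1)) κ)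
    (S : Matrix (Σ j : Fin p, Fin (d j + 1)) θ κ) (hCS : C * S = 1) {c : ℕ}
    (hc : (∑ j, (d j + 1)) ≤ Fintype.card θ + c) :
    ((∑ j, (d j : ℤ)) - c) * height κ ![1, t] ≤
      ht κ (Submodule.span L (Set.range fun j =>
        (C.map (algebraMap κ L)).mulVec (bpw d t j))) := by
  classical
  have hh := height_pair_nonneg h t
  set U := Submodule.span L (Set.range fun j => (C.map (algebraMap κ L)).mulVec (bpw d t j)) with hU
  have hcard : Fintype.card (Σ j : Fin p, Fin (d j + 1)) = ∑ j, (d j + 1) := by
    rw [Fintype.card_sigma]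
    exact Finset.sum_congr rfl fun j _ => Fintype.card_fin _
  -- over `L`
  have hCS' : C.map (algebraMap κ L) * S.map (algebraMap κ L) = 1 := by
    rw [← Matrix.map_mul, hCS, Matrix.map_one _ (map_zero _) (map_one _)]
  set P : Submodule L ((Σ j : Fin p, Fin (d j + 1)) → L) :=
    (⊤ : Submodule L ((Σ j : Fin p, Fin (d j + 1)) → L)).map ((1 - S * C).map (algebraMap κ L)).mulVecLin with hP
  have hPker : P ≤ LinearMap.ker (C.map (algebraMap κ L)).mulVecLin := by
    rintro _ ⟨v, -, rfl⟩
    rw [LinearMap.mem_ker, Matrix.mulVecLin_apply, Matrix.mulVecLin_apply, Matrix.mulVec_mulVec,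
      ← Matrix.map_mul, Matrix.mul_sub, Matrix.mul_one, ← Matrix.mul_assoc, hCS, Matrix.one_mul,
      sub_self]
    simp
  have hPht : ht κ P ≤ 0 := by
    have h1 := ht_map_const_le h (1 - S * C) (⊤ : Submodule L ((Σ j : Fin p, Fin (d j + 1)) → L))
    rwa [ht_top h] at h1
  have hPrk : finrank L P ≤ c := by
    have h1 := LinearMap.finrank_range_add_finrank_ker (C.map (algebraMap κ L)).mulVecLin
    have h2 : LinearMap.range (C.map (algebraMap κ L)).mulVecLin = ⊤ := by
      rw [LinearMap.range_eq_top]
      intro y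
      refine ⟨(S.map (algebraMap κ L)).mulVec y, ?_⟩
      rw [Matrix.mulVecLin_apply, Matrix.mulVec_mulVec, hCS', Matrix.one_mulVec]
    rw [h2, finrank_top, Module.finrank_fintype_fun_eq_card, Module.finrank_fintype_fun_eq_card,
      hcard] at h1
    have h3 := Submodule.finrank_mono hPker
    omega
  set R : Submodule L ((Σ j : Fin p, Fin (d j + 1)) → L) := U.map (S.map (algebraMap κ L)).mulVecLin ⊔ P with hR
  have hmem : ∀ j, bpw d t j ∈ R := by
    intro j
    have h1 : bpw d t j = (S.map (algebraMap κ L)).mulVec ((C.map (algebraMap κ L)).mulVec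
        (bpw d t j)) + ((1 - S * C).map (algebraMap κ L)).mulVec (bpw d t j) := by
      rw [Matrix.mulVec_mulVec, ← Matrix.add_mulVec, ← Matrix.map_mul, ← Matrix.map_add _ (map_add _),
        add_sub_cancel, Matrix.map_one _ (map_zero _) (map_one _), Matrix.one_mulVec]
    rw [h1]
    refine Submodule.add_mem _ (Submodule.mem_sup_left ?_) (Submodule.mem_sup_right ?_)
    · exact ⟨_, Submodule.subset_span ⟨j, rfl⟩, rfl⟩
    · exact ⟨_, Submodule.mem_top, rfl⟩
  have h1 := ht_bpw d h htr R hmem
  have h2 : ht κ R ≤ ht κ U := by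
    have h3 := ht_sup_le h (U.map (S.map (algebraMap κ L)).mulVecLin) P
    have h4 := ht_map_const_le h S U
    linarith
  have h3 : finrank L R ≤ p + c := by
    have h4 : finrank L R ≤ finrank L (U.map (S.map (algebraMap κ L)).mulVecLin) + finrank L P :=
      Submodule.finrank_add_le_finrank_add_finrank _ _
    have h5 := Submodule.finrank_map_le (S.map (algebraMap κ L)).mulVecLin U
    have h6 : finrank L U ≤ p := by
      have h7 := finrank_range_le_card (R := L)
        (fun j => (C.map (algebraMap κ L)).mulVec (bpw d t j))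
      rw [Fintype.card_fin] at h7
      exact h7
    omega
  have h4 : (finrank L R : ℤ) ≤ p + c := by exact_mod_cast h3
  have h5 := mul_le_mul_of_nonneg_right (show (∑ j, (d j : ℤ)) - c ≤
    (∑ j, (d j : ℤ)) + p - finrank L R by linarith) hh
  linarith

end

end Pool.Agent.Lib.MP_44a246_ntK
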