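import Mathlib
import Pool.Agent.Lib.MP_44a246_ntU.U07
import Pool.Agent.Lib.MP_44a246_ntU.U08
import Pool.Agent.Lib.MP_44a246_ntS.SB1b
import Pool.Agent.Lib.MP_44a246_ntS.SP5c
import Pool.Agent.Lib.MP_44a246_ntS.SR1b
import Pool.Agent.Lib.MP_44a246_ntS.SP5b

/-!
A covering family of curves in a complete intersection: the global inequality, for several linear
functionals which vanish on the derivatives along the family.
-/

namespace Pool.Agent.Lib.MP_44a246_ntK

open Pool.Agent.Lib.MP_44a246_ntU
open Pool.Agent.Lib.MP_e52354_nt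
open Pool.Agent.Lib.MP_44a246_nt
open Pool.Agent.Lib.MP_44a246_ntL
open Pool.Agent.Lib.MP_44a246_ntS
open WithZero Polynomial Module

section

variable {M : Type*} [Field M]

/-- linearly independent rows with a finite set of columns have a nonzero maximal minor -/
theorem exists_minor_ne' {θ : Type*} [Fintype θ] {p : ℕ} {u : Fin p → θ → M}
    (hu : LinearIndependent M u) :
    ∃ f : Fin p → θ, (Matrix.of fun i k => u i (f k)).det ≠ 0 := by
  classical
  let e := Fintype.equivFin θ
  have h1 : LinearIndependent M (fun i (k : Fin (Fintype.card θ)) => u i (e.symm k)) := by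
    have h2 := hu.map' (LinearEquiv.funCongrLeft M M e.symm).toLinearMap
      (LinearEquiv.ker _)
    exact h2
  obtain ⟨J, hJ⟩ := exists_minor_ne h1
  exact ⟨fun k => e.symm (J k), hJ⟩

/-- **The minors of a tangent space**: in a space `T` of dimension at most `a + b` the minors of
the independent vectors `A` and of `b` of the vectors `B t` are proportional to the minors of the
values of the `b` functionals which vanish on the vectors `A`. -/
theorem exists_minorK {a b n : ℕ} {T : Submodule M (Fin n → M)} (hT : finrank M T ≤ a + b)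
    {A : Fin a → Fin n → M} (hA : LinearIndependent M A) (hAT : ∀ i, A i ∈ T)
    {g : Fin b → Fin n → M} (hg : ∀ j i, ∑ k, g j k * A i k = 0) {θ : Type*} [Fintype θ]
    {B : θ → Fin n → M} (hBT : ∀ t, B t ∈ T) {u : Fin b → θ → M}
    (hu : ∀ j t, ∑ k, g j k * B t k = u j t) (hui : LinearIndependent M u) :
    ∃ (J : Fin a ⊕ Fin b → Fin n) (lam : M), lam ≠ 0 ∧ ∀ f : Fin b → θ,
      (Matrix.of fun s k => (Sum.elim A (fun i => B (f i)) : Fin a ⊕ Fin b → Fin n → M) s
        (J k)).det = lam * (Matrix.of fun i k => u i (f k)).det := by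
  classical
  obtain ⟨f₀, hf₀⟩ := exists_minor_ne' hui
  set v : Fin a ⊕ Fin b → Fin n → M := Sum.elim A (fun i => B (f₀ i)) with hv
  -- the functionals as linear maps
  let G : Fin b → (Fin n → M) →ₗ[M] M := fun j =>
    { toFun := fun x => ∑ k, g j k * x k
      map_add' := fun x y => by
        rw [← Finset.sum_add_distrib]
        exact Finset.sum_congr rfl fun k _ => by rw [Pi.add_apply, mul_add]
      map_smul' := fun c x => by
        rw [RingHom.id_apply, smul_eq_mul, Finset.mul_sum]
        exact Finset.sum_congr rfl fun k _ => by rw [Pi.smul_apply, smul_eq_mul]; ring }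
  have hGA : ∀ j i, G j (A i) = 0 := hg
  have hGB : ∀ j t, G j (B t) = u j t := hu
  set U₀ : Matrix (Fin b) (Fin b) M := Matrix.of fun i k => u i (f₀ k) with hU₀
  -- independence
  have hvi : LinearIndependent M v := by
    rw [Fintype.linearIndependent_iff]
    intro c hc
    rw [Fintype.sum_sum_type] at hc
    simp only [hv, Sum.elim_inl, Sum.elim_inr] at hc
    have h1 : U₀.mulVec (fun k => c (Sum.inr k)) = 0 := by
      funext j
      have h2 := congrArg (G j) hc
      rw [map_add, map_sum, map_sum, map_zero] at h2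
      simp only [map_smul, hGA, hGB, smul_zero, Finset.sum_const_zero, zero_add] at h2
      rw [Pi.zero_apply, Matrix.mulVec, dotProduct, ← h2]
      refine Finset.sum_congr rfl fun k _ => ?_
      rw [smul_eq_mul, mul_comm]
      rfl
    have h2 : (fun k => c (Sum.inr k)) = 0 := by
      have hinj := Matrix.mulVec_injective_of_isUnit
        ((Matrix.isUnit_iff_isUnit_det U₀).2 (isUnit_iff_ne_zero.2 hf₀))
      apply hinj
      rw [h1, Matrix.mulVec_zero]
    have h3 : ∀ k, c (Sum.inr k) = 0 := fun k => congrFun h2 k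
    simp only [h3, zero_smul, Finset.sum_const_zero, add_zero] at hc
    have h4 := (Fintype.linearIndependent_iff.1 hA) (fun i => c (Sum.inl i)) hc
    rintro (i | k)
    · exact h4 i
    · exact h3 k
  have hvT : ∀ s, v s ∈ T := by
    rintro (i | k)
    · exact hAT i
    · exact hBT _
  have hT2 : T = Submodule.span M (Set.range v) := by
    symm
    apply Submodule.eq_of_le_of_finrank_le
    · rw [Submodule.span_le]
      rintro _ ⟨i, rfl⟩
      exact hvT i
    · rw [finrank_span_eq_card hvi, Fintype.card_sum, Fintype.card_fin, Fintype.card_fin]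
      exact hT
  -- the coordinates
  have hc : ∀ t, ∃ c : Fin a ⊕ Fin b → M, ∑ s, c s • v s = B t := by
    intro t
    have h1 := hBT t
    rw [hT2] at h1
    exact (Submodule.mem_span_range_iff_exists_fun M).1 h1
  choose c hc using hc
  obtain ⟨J, hJ⟩ : ∃ J : Fin a ⊕ Fin b → Fin n, (Matrix.of fun s k => v s (J k)).det ≠ 0 := by
    have h1 : LinearIndependent M (fun i => v (finSumFinEquiv.symm i)) :=
      hvi.comp _ finSumFinEquiv.symm.injective
    obtain ⟨J, hJ⟩ := exists_minor_ne h1
    refine ⟨fun s => J (finSumFinEquiv s), ?_⟩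
    have h2 := Matrix.det_submatrix_equiv_self (finSumFinEquiv (m := a) (n := b)).symm
      (Matrix.of fun s k => v s (J (finSumFinEquiv k)))
    rw [← h2]
    have h3 : (Matrix.of fun s k => v s (J (finSumFinEquiv k))).submatrix
        (finSumFinEquiv (m := a) (n := b)).symm (finSumFinEquiv (m := a) (n := b)).symm =
        Matrix.of fun i k => v (finSumFinEquiv.symm i) (J k) := by
      ext i k
      simp
    rw [h3]
    exact hJ
  set D₀ := (Matrix.of fun s k => v s (J k)).det with hD₀
  refine ⟨J, D₀ / U₀.det, div_ne_zero hJ hf₀, fun f => ?_⟩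
  set Cf : Matrix (Fin b) (Fin b) M := Matrix.of fun i j => c (f i) (Sum.inr j) with hCf
  set Cf' : Matrix (Fin b) (Fin a) M := Matrix.of fun i j => c (f i) (Sum.inl j) with hCf'
  have h1 : (Matrix.of fun s k => (Sum.elim A (fun i => B (f i)) : Fin a ⊕ Fin b → Fin n → M) s
      (J k)) = Matrix.fromBlocks 1 0 Cf' Cf * Matrix.of fun s k => v s (J k) := by
    ext s k
    rw [Matrix.mul_apply, Fintype.sum_sum_type]
    rcases s with i | i
    · simp only [Matrix.fromBlocks_apply₁₁, Matrix.fromBlocks_apply₁₂, Matrix.of_apply,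
        Sum.elim_inl, Matrix.zero_apply, zero_mul, Finset.sum_const_zero, add_zero]
      simp only [Matrix.one_apply, ite_mul, one_mul, zero_mul, Finset.sum_ite_eq,
        Finset.mem_univ, if_true]
      rfl
    · simp only [Matrix.fromBlocks_apply₂₁, Matrix.fromBlocks_apply₂₂, Matrix.of_apply,
        Sum.elim_inr]
      rw [← hc (f i), Finset.sum_apply, Fintype.sum_sum_type]
      rfl
  have h2 : (Matrix.of fun i k => u i (f k)) = U₀ * Cf.transpose := by
    ext i k
    rw [Matrix.mul_apply, Matrix.of_apply, ← hGB, ← hc (f k), map_sum, Fintype.sum_sum_type]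
    simp only [map_smul, hv, Sum.elim_inl, Sum.elim_inr, hGA, hGB, smul_zero,
      Finset.sum_const_zero, zero_add]
    refine Finset.sum_congr rfl fun l _ => ?_
    rw [smul_eq_mul, mul_comm]
    rfl
  rw [h1, h2, Matrix.det_mul, Matrix.det_mul, Matrix.det_fromBlocks_zero₁₂, Matrix.det_one,
    one_mul, Matrix.det_transpose, ← hD₀]
  field_simp

end

section

variable {κ M : Type*} [Field κ] [IsAlgClosed κ] [CharZero κ] [Field M] [Algebra κ M]
  [Algebra κ[X] M] [IsScalarTower κ κ[X] M]
  [Algebra (RatFunc κ) M] [IsScalarTower κ[X] (RatFunc κ) M]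
  [Algebra (Rinf κ) M] [IsScalarTower (Rinf κ) (RatFunc κ) M]
  [FiniteDimensional (RatFunc κ) M]

private theorem exists_order (m q : ℕ) :
    ∃ e : Fin (m + q + 3) ≃ Fin (m + 2) ⊕ Fin (q + 1),
      (e : Fin (m + q + 3) → Fin (m + 2) ⊕ Fin (q + 1)) = Fin.cons (Sum.inr 0)
        (Fin.cons (Sum.inl 0) (Fin.cons (Sum.inl 1)
          (Fin.append (fun i : Fin m => Sum.inl i.succ.succ) fun i : Fin q => Sum.inr i.succ))) := by
  set e : Fin (m + q + 3) → Fin (m + 2) ⊕ Fin (q + 1) := Fin.cons (Sum.inr 0)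
        (Fin.cons (Sum.inl 0) (Fin.cons (Sum.inl 1)
          (Fin.append (fun i : Fin m => Sum.inl i.succ.succ) fun i : Fin q => Sum.inr i.succ)))
    with he
  have hsurj : Function.Surjective e := by
    rintro (s | s)
    · refine Fin.cases ⟨Fin.succ 0, rfl⟩ (fun s => ?_) s
      refine Fin.cases ⟨Fin.succ (Fin.succ 0), rfl⟩ (fun s => ?_) s
      refine ⟨Fin.succ (Fin.succ (Fin.succ (Fin.castAdd q s))), ?_⟩
      rw [he, Fin.cons_succ, Fin.cons_succ, Fin.cons_succ, Fin.append_left]
    · refine Fin.cases ⟨0, rfl⟩ (fun s => ?_) s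
      refine ⟨Fin.succ (Fin.succ (Fin.succ (Fin.natAdd m s))), ?_⟩
      rw [he, Fin.cons_succ, Fin.cons_succ, Fin.cons_succ, Fin.append_right]
  have hcard : Fintype.card (Fin (m + q + 3)) = Fintype.card (Fin (m + 2) ⊕ Fin (q + 1)) := by
    rw [Fintype.card_sum, Fintype.card_fin, Fintype.card_fin, Fintype.card_fin]
    omega
  exact ⟨Equiv.ofBijective e ((Fintype.bijective_iff_surjective_and_card e).2 ⟨hsurj, hcard⟩),
    rfl⟩

/-- **The global inequality**, for several functionals. -/
theorem wedge_globalK {m n q : ℕ} (D : Derivation ℤ M M)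
    (hκ : ∀ u : κ, D (algebraMap κ M u) = 0) (hX : D (algebraMap κ[X] M X) = 1)
    (E : Fin m → Derivation ℤ M M)
    (hEκ : ∀ i, ∀ u : κ, ∃ u' : κ, E i (algebraMap κ M u) = algebraMap κ M u')
    (hEX : ∀ i, ∃ u : κ, E i (algebraMap κ[X] M X) = algebraMap κ M u)
    {θ : Type*} [Fintype θ] (W : θ → Derivation ℤ M M)
    (hWκ : ∀ I, ∀ u : κ, ∃ u' : κ, W I (algebraMap κ M u) = algebraMap κ M u')
    (hWX : ∀ I, ∃ u : κ, W I (algebraMap κ[X] M X) = algebraMap κ M u)
    {γ : Fin n → M} {g : Fin (q + 1) → Fin n → M} (hgγ : ∀ j, ∑ k, g j k * γ k = 0)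
    (hgD : ∀ j, ∑ k, g j k * D (γ k) = 0)
    (hgE : ∀ j i, ∑ k, g j k * E i (γ k) = 0) {u : Fin (q + 1) → θ → M}
    (hWg : ∀ j I, ∑ k, g j k * W I (γ k) = u j I) (hui : LinearIndependent M u)
    (hind : LinearIndependent M (Fin.cons γ (Fin.cons (fun k => D (γ k)) fun i k => E i (γ k)) :
      Fin (m + 2) → Fin n → M))
    {T : Submodule M (Fin n → M)} (hT : finrank M T ≤ m + q + 3) (hγT : γ ∈ T)
    (hDT : (fun k => D (γ k)) ∈ T) (hET : ∀ i, (fun k => E i (γ k)) ∈ T)
    (hWT : ∀ I, (fun k => W I (γ k)) ∈ T) :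
    ht κ (Submodule.span M (Set.range u)) ≤
      (m + q + 3) * height κ γ + ramDeg κ M (RatFunc κ) := by
  classical
  set A : Fin (m + 2) → Fin n → M :=
    Fin.cons γ (Fin.cons (fun k => D (γ k)) fun i k => E i (γ k)) with hA
  have hγ : γ ≠ 0 := hind.ne_zero 0
  have hvγ : ∀ w : Place κ M, vmax w.1 γ ≠ 0 := fun w h => hγ ((vmax_eq_zero_iff w.1).mp h)
  -- orthogonality
  have horth : ∀ j i, ∑ k, g j k * A i k = 0 := by
    intro j i
    refine Fin.cases (hgγ j) (fun i => Fin.cases (hgD j) (fun i => hgE j i) i) i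
  have hAT : ∀ i, A i ∈ T := by
    intro i
    refine Fin.cases ?_ (fun i => ?_) i
    · exact hγT
    · refine Fin.cases ?_ (fun i => ?_) i
      · exact hDT
      · exact hET i
  obtain ⟨J, lam, hlam0, hlam⟩ := exists_minorK (a := m + 2) (b := q + 1) (hT.trans (by omega))
    hind hAT horth (B := fun I k => W I (γ k)) hWT hWg hui
  obtain ⟨e, he⟩ := exists_order m q
  have hplu : ∀ w : Place κ M, pl w.1 u ≠ 0 := fun w => pl_ne_zero w.1 hui
  -- the local estimate
  have hloc : ∀ w : Place κ M, log (w.1 lam) + log (pl w.1 u) ≤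
      ((m : ℤ) + q + 3) * log (vmax w.1 γ) + ((ramIdx (RatFunc κ) w.1 - 1 : ℕ) : ℤ) := by
    intro w
    have hl : w.1 lam ≠ 0 := (Valuation.ne_zero_iff w.1).mpr hlam0
    have hkey : pl w.1 u ≤ (w.1 lam)⁻¹ * (vmax w.1 γ ^ (m + q + 3) *
        exp ((ramIdx (RatFunc κ) w.1 - 1 : ℕ) : ℤ)) := by
      unfold pl
      refine vmax_le w.1 fun f => ?_
      have h1 := wedge_placeV w D hκ hX (W (f 0)) (hWκ _) (hWX _)
        (Fin.append E fun i => W (f i.succ)) (fun i => by
          refine Fin.addCases (fun i => ?_) (fun i => ?_) i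
          · rw [Fin.append_left]; exact hEκ i
          · rw [Fin.append_right]; exact hWκ _) (fun i => by
          refine Fin.addCases (fun i => ?_) (fun i => ?_) i
          · rw [Fin.append_left]; exact hEX i
          · rw [Fin.append_right]; exact hWX _) hγ (fun i => J (e i))
      have h2 := hlam f
      have h3 := Matrix.det_submatrix_equiv_self e (Matrix.of fun s k =>
        (Sum.elim A (fun i => fun k => W (f i) (γ k)) : Fin (m + 2) ⊕ Fin (q + 1) → Fin n → M) s
        (J k))
      have h4 : (Matrix.of fun s k =>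
          (Sum.elim A (fun i => fun k => W (f i) (γ k)) : Fin (m + 2) ⊕ Fin (q + 1) → Fin n → M) s
          (J k)).submatrix e e = consMat (fun k => W (f 0) (γ (J (e k))))
            (Fin.cons (fun k => γ (J (e k))) (Fin.cons (fun k => D (γ (J (e k))))
              fun i k => (Fin.append E fun i => W (f i.succ)) i (γ (J (e k))))) := by
        ext i k
        rw [Matrix.submatrix_apply, Matrix.of_apply, congrFun he i]
        refine Fin.cases ?_ (fun i => ?_) i
        · rfl
        refine Fin.cases ?_ (fun i => ?_) i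
        · rfl
        refine Fin.cases ?_ (fun i => ?_) i
        · rfl
        refine Fin.addCases (fun i => ?_) (fun i => ?_) i
        · simp only [Fin.cons_succ, Fin.append_left, Sum.elim_inl]
          show _ = (Fin.append E fun i => W (f i.succ)) (Fin.castAdd q i) (γ (J (e k)))
          rw [Fin.append_left]
          rfl
        · simp only [Fin.cons_succ, Fin.append_right, Sum.elim_inr]
          show _ = (Fin.append E fun i => W (f i.succ)) (Fin.natAdd m i) (γ (J (e k)))
          rw [Fin.append_right]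
      rw [← h4, h3, h2, map_mul] at h1
      have h5 : w.1 (Matrix.of fun i k => u i (f k)).det =
          (w.1 lam)⁻¹ * (w.1 lam * w.1 (Matrix.of fun i k => u i (f k)).det) := by
        rw [← mul_assoc, inv_mul_cancel₀ hl, one_mul]
      rw [h5]
      exact mul_le_mul' le_rfl h1
    have n1 : vmax w.1 γ ^ (m + q + 3) ≠ 0 := pow_ne_zero _ (hvγ w)
    have n2 : (exp ((ramIdx (RatFunc κ) w.1 - 1 : ℕ) : ℤ) : ℤᵐ⁰) ≠ 0 := exp_ne_zero
    have h3 := (log_le_log (hplu w) (mul_ne_zero (inv_ne_zero hl) (mul_ne_zero n1 n2))).mpr hkey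
    rw [log_mul (inv_ne_zero hl) (mul_ne_zero n1 n2), log_mul n1 n2, log_inv, log_pow, log_exp,
      nsmul_eq_mul] at h3
    push_cast at h3 ⊢
    linarith
  -- summation
  have htow : IsScalarTower κ (RatFunc κ) M := by
    refine IsScalarTower.of_algebraMap_eq fun c => ?_
    rw [IsScalarTower.algebraMap_apply κ κ[X] M, IsScalarTower.algebraMap_apply κ[X] (RatFunc κ) M,
      ← IsScalarTower.algebraMap_apply κ κ[X] (RatFunc κ)]
  have hMff : IsFF κ M := (sp5b_isFF κ).of_finite
  have hs := pl_support hMff hui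
  let P : Finset (Place κ M) := (vmax_finite hγ).toFinset ∪ (place_finite hlam0).toFinset ∪
    (ramIdx_finite (κ := κ) (K := RatFunc κ) (L := M)).toFinset ∪ hs.toFinset
  have hP : ∀ v ∉ P, vmax v.1 γ = 1 ∧ v.1 lam = 1 ∧ ramIdx (RatFunc κ) v.1 = 1 ∧
      log (pl v.1 u) = 0 := by
    intro v hv
    simp only [P, Finset.mem_union, Set.Finite.mem_toFinset, not_or, Set.mem_ofPred_eq,
      not_not, Function.mem_support] at hv
    exact ⟨hv.1.1.1, hv.1.1.2, hv.1.2, hv.2⟩
  have hsum := Finset.sum_le_sum fun v (_ : v ∈ P) => hloc v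
  simp only [Finset.sum_add_distrib, ← Finset.mul_sum] at hsum
  have e1 : ∑ v ∈ P, log (v.1 lam) = 0 := by
    rw [← product_formula (κ := κ) hlam0]
    symm
    refine finsum_eq_sum_of_support_subset _ fun v hv => ?_
    by_contra hvP
    apply hv
    simp only
    rw [(hP v hvP).2.1, log_one]
  have e2 : ∑ v ∈ P, log (vmax v.1 γ) = height κ γ := by
    symm
    refine finsum_eq_sum_of_support_subset _ fun v hv => ?_
    by_contra hvP
    apply hv
    simp only
    rw [(hP v hvP).1, log_one]
  have e4 : ∑ v ∈ P, ((ramIdx (RatFunc κ) v.1 - 1 : ℕ) : ℤ) = (ramDeg κ M (RatFunc κ) : ℤ) := by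
    rw [← Nat.cast_sum]
    congr 1
    symm
    refine finsum_eq_sum_of_support_subset _ fun v hv => ?_
    by_contra hvP
    apply hv
    simp only
    rw [(hP v hvP).2.2.1, Nat.sub_self]
  have e5 : ∑ v ∈ P, log (pl v.1 u) = ht κ (Submodule.span M (Set.range u)) := by
    rw [ht_span hMff hui]
    symm
    refine finsum_eq_sum_of_support_subset _ fun v hv => ?_
    by_contra hvP
    exact hv (hP v hvP).2.2.2
  rw [e1, e2, e4, e5, zero_add] at hsum
  exact hsum

end

end Pool.Agent.Lib.MP_44a246_ntK
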