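import Mathlib
import Pool.Agent.Lib.MP_44a246_ntD.D08
import Pool.Agent.Lib.MP_44a246_ntK.K03
import Pool.Agent.Lib.MP_44a246_ntK.K04
import Pool.Agent.Lib.MP_44a246_ntK.K12

/-!
Step E for several forms: a generic point of a section `t_j = H_j (x)` of a weighted projective
variety does not lie on a plane curve of small degree.
-/

namespace Pool.Agent.Lib.MP_44a246_ntK

open Pool.Agent.Lib.MP_44a246_ntD
open Pool.Agent.Lib.MP_44a246_ntQ

open Pool.Agent.Lib.MP_e52354_nt
open Pool.Agent.Lib.MP_44a246_nt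
open Pool.Agent.Lib.MP_44a246_ntL
open Pool.Agent.Lib.MP_44a246_ntS
open Pool.Agent.Lib.MP_44a246_ntG
open Pool.Agent.Lib.MP_44a246_ntU
open WithZero Polynomial Module

universe u

/-- the tuples of forms in two linear forms -/
noncomputable def binK {κ : Type*} [Field κ] {n p : ℕ} (L₀ L₁ : MvPolynomial (Fin n) κ)
    (d : Fin p → ℕ) : ((Σ j : Fin p, Fin (d j + 1)) → κ) →ₗ[κ] (Fin p → (Fin n →₀ ℕ) → κ) :=
  LinearMap.pi fun j => (bin L₀ L₁ (d j)).comp
    (LinearMap.funLeft κ κ fun i : Fin (d j + 1) => (⟨j, i⟩ : Σ j : Fin p, Fin (d j + 1)))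

theorem binK_apply {κ : Type*} [Field κ] {n p : ℕ} (L₀ L₁ : MvPolynomial (Fin n) κ)
    (d : Fin p → ℕ) (c : (Σ j : Fin p, Fin (d j + 1)) → κ) (j : Fin p) :
    binK L₀ L₁ d c j = bin L₀ L₁ (d j) (fun i => c ⟨j, i⟩) := rfl

/-- the product of a matrix and the vector of the powers in a block -/
theorem mulVec_bpw {L : Type*} [Field L] {p : ℕ} (d : Fin p → ℕ) {θ : Type*}
    (C : Matrix θ (Σ j : Fin p, Fin (d j + 1)) L) (z : L) (j : Fin p) (t : θ) :
    C.mulVec (bpw d z j) t = ∑ i : Fin (d j + 1), C t ⟨j, i⟩ * z ^ (i : ℕ) := by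
  classical
  rw [Matrix.mulVec, dotProduct, Fintype.sum_sigma, Finset.sum_eq_single j]
  · refine Finset.sum_congr rfl fun i _ => ?_
    simp [bpw]
  · intro j' _ hj'
    refine Finset.sum_eq_zero fun i _ => ?_
    simp [bpw, hj']
  · intro h
    exact absurd (Finset.mem_univ j) h

/-- a matrix with linearly independent rows has a right inverse -/
theorem exists_right_inv {κ : Type*} [Field κ] {θ σ : Type*} [Fintype θ] [DecidableEq θ] [Fintype σ]
    [DecidableEq σ] {C : Matrix θ σ κ} (hC : LinearIndependent κ C) :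
    ∃ S : Matrix σ θ κ, C * S = 1 := by
  rw [← Matrix.mulVec_surjective_iff_exists_right_inverse]
  have h1 : C.rank = Fintype.card θ := by
    exact LinearIndependent.rank_matrix hC
  have h2 : LinearMap.range C.mulVecLin = ⊤ := by
    apply Submodule.eq_top_of_finrank_eq
    rw [Module.finrank_fintype_fun_eq_card, ← h1]
    rfl
  rw [LinearMap.range_eq_top] at h2
  exact h2

/-- **Independence of the images of the vectors of the powers.** -/
theorem indep_bpw_map {κ L : Type*} [Field κ] [Field L] [Algebra κ L] {p : ℕ} {d : Fin p → ℕ}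
    {z : L} (hz : Transcendental κ z) {θ : Type*} [Fintype θ]
    {C : Matrix θ (Σ j : Fin p, Fin (d j + 1)) κ}
    (hC : ∀ j, ∃ c : Fin (d j + 1) → κ, c ≠ 0 ∧ ∃ y : θ → κ, ∀ s : Σ j : Fin p, Fin (d j + 1),
      ∑ t, y t * C t s = if h : s.1 = j then c (h ▸ s.2) else 0) :
    LinearIndependent L (fun j => (C.map (algebraMap κ L)).mulVec (bpw d z j)) := by
  classical
  rw [Fintype.linearIndependent_iff]
  intro g hg j
  obtain ⟨c, hc, y, hy⟩ := hC j
  have h1 : ∀ j', ∑ t, algebraMap κ L (y t) * (C.map (algebraMap κ L)).mulVec (bpw d z j') t =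
      if j' = j then ∑ i : Fin (d j + 1), algebraMap κ L (c i) * z ^ (i : ℕ) else 0 := by
    intro j'
    have h2 : ∀ t, algebraMap κ L (y t) * (C.map (algebraMap κ L)).mulVec (bpw d z j') t =
        ∑ i : Fin (d j' + 1), algebraMap κ L (y t * C t ⟨j', i⟩) * z ^ (i : ℕ) := by
      intro t
      rw [mulVec_bpw, Finset.mul_sum]
      refine Finset.sum_congr rfl fun i _ => ?_
      rw [map_mul, Matrix.map_apply]
      ring
    rw [Finset.sum_congr rfl fun t _ => h2 t, Finset.sum_comm]
    have h3 : ∀ i : Fin (d j' + 1), ∑ t, algebraMap κ L (y t * C t ⟨j', i⟩) * z ^ (i : ℕ) =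
        algebraMap κ L (∑ t, y t * C t ⟨j', i⟩) * z ^ (i : ℕ) := by
      intro i
      rw [← Finset.sum_mul, map_sum]
    rw [Finset.sum_congr rfl fun i _ => h3 i]
    by_cases h4 : j' = j
    · subst h4
      rw [if_pos rfl]
      refine Finset.sum_congr rfl fun i _ => ?_
      rw [hy, dif_pos rfl]
    · rw [if_neg h4]
      refine Finset.sum_eq_zero fun i _ => ?_
      rw [hy, dif_neg h4, map_zero, zero_mul]
  have h2 : ∑ t, algebraMap κ L (y t) *
      (∑ j', g j' • (C.map (algebraMap κ L)).mulVec (bpw d z j')) t = 0 := by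
    rw [hg]
    simp
  have h3 : ∑ t, algebraMap κ L (y t) *
      (∑ j', g j' • (C.map (algebraMap κ L)).mulVec (bpw d z j')) t =
      g j * ∑ i : Fin (d j + 1), algebraMap κ L (c i) * z ^ (i : ℕ) := by
    have h4 : ∀ t, algebraMap κ L (y t) *
        (∑ j', g j' • (C.map (algebraMap κ L)).mulVec (bpw d z j')) t =
        ∑ j', g j' * (algebraMap κ L (y t) * (C.map (algebraMap κ L)).mulVec (bpw d z j') t) := by
      intro t
      rw [Finset.sum_apply, Finset.mul_sum]
      refine Finset.sum_congr rfl fun j' _ => ?_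
      rw [Pi.smul_apply, smul_eq_mul]
      ring
    rw [Finset.sum_congr rfl fun t _ => h4 t, Finset.sum_comm]
    simp_rw [← Finset.mul_sum]
    rw [Finset.sum_congr rfl fun j' _ => by rw [h1 j']]
    simp
  rw [h3] at h2
  rcases mul_eq_zero.1 h2 with h4 | h4
  · exact h4
  · exfalso
    apply hc
    have h5 : (∑ i : Fin (d j + 1), Polynomial.C (c i) * X ^ (i : ℕ) : κ[X]) = 0 := by
      rw [transcendental_iff] at hz
      apply hz
      simp only [map_sum, map_mul, aeval_C, map_pow, aeval_X]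
      exact h4
    funext i
    have h6 := congrArg (fun P : κ[X] => P.coeff (i : ℕ)) h5
    simp only [finset_sum_coeff, coeff_C_mul, coeff_X_pow, coeff_zero] at h6
    rw [Finset.sum_eq_single i] at h6
    · simpa using h6
    · intro i' _ hi'
      rw [if_neg, mul_zero]
      intro h7
      exact hi' (Fin.ext h7.symm)
    · intro h7
      exact absurd (Finset.mem_univ i) h7

end Pool.Agent.Lib.MP_44a246_ntK
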