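import Mathlib
import Pool.Agent.Lib.MP_44a246_ntK.K14

/-!
Step E for several forms: a generic point of a section `t_j = H_j (x)` of a weighted projective
variety does not lie on a plane curve of small degree.
-/

namespace Pool.Agent.Lib.MP_44a246_ntK

open Pool.Agent.Lib.MP_44a246_ntD
open Pool.Agent.Lib.MP_44a246_ntQ

open Pool.Agent.Lib.MP_e52354_nt
open Pool.Agent.Lib.MP_44a246_nt
open Pool.Agent.Lib.MP_44a246_ntL
open Pool.Agent.Lib.MP_44a246_ntS
open Pool.Agent.Lib.MP_44a246_ntG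
open Pool.Agent.Lib.MP_44a246_ntU
open WithZero Polynomial Module

universe u

/-- the space of the tuples of binary forms killed by the functionals -/
theorem exists_kerK {κ : Type*} [Field κ] {n p s : ℕ} {d : Fin p → ℕ} {θ : Type*} [Fintype θ]
    (hθ : Fintype.card θ ≤ s) (hs : ∀ j, s ≤ d j)
    (B : ((Σ j : Fin p, Fin (d j + 1)) → κ) →ₗ[κ] (Fin p → (Fin n →₀ ℕ) → κ))
    (ψ : θ → (Fin p → (Fin n →₀ ℕ) → κ) →ₗ[κ] κ) :
    ∃ (N : ℕ) (cc : Fin N → (Σ j : Fin p, Fin (d j + 1)) → κ), (∑ j, (d j + 1)) ≤ N + s ∧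
      LinearIndependent κ cc ∧ (∀ i t, ψ t (B (cc i)) = 0) ∧
      ∀ j, ∃ c : Fin (d j + 1) → κ, c ≠ 0 ∧ ∃ y : Fin N → κ, ∀ s : Σ j : Fin p, Fin (d j + 1),
        ∑ t, y t * cc t s = if h : s.1 = j then c (h ▸ s.2) else 0 := by
  classical
  have hcard : Fintype.card (Σ j : Fin p, Fin (d j + 1)) = ∑ j, (d j + 1) := by
    rw [Fintype.card_sigma]
    exact Finset.sum_congr rfl fun j _ => Fintype.card_fin _
  let Ψ : ((Σ j : Fin p, Fin (d j + 1)) → κ) →ₗ[κ] (θ → κ) := LinearMap.pi fun t => (ψ t).comp B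
  have h1 := LinearMap.finrank_range_add_finrank_ker Ψ
  have h2 : finrank κ (LinearMap.range Ψ) ≤ Fintype.card θ := by
    have h3 := Submodule.finrank_le (LinearMap.range Ψ)
    rwa [Module.finrank_fintype_fun_eq_card] at h3
  rw [Module.finrank_fintype_fun_eq_card, hcard] at h1
  let w := Module.finBasis κ (LinearMap.ker Ψ)
  refine ⟨finrank κ (LinearMap.ker Ψ), fun i => (w i : (Σ j : Fin p, Fin (d j + 1)) → κ),
    by omega, ?_, fun i t => ?_, fun j => ?_⟩
  · exact w.linearIndependent.map' (LinearMap.ker Ψ).subtype (Submodule.ker_subtype _)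
  · have h5 := (w i).2
    rw [LinearMap.mem_ker] at h5
    exact congrFun h5 t
  · -- the block
    let ι : (Fin (d j + 1) → κ) →ₗ[κ] ((Σ j : Fin p, Fin (d j + 1)) → κ) :=
      LinearMap.pi fun s => if h : s.1 = j then LinearMap.proj (h ▸ s.2 : Fin (d j + 1)) else 0
    have hι : ∀ c s, ι c s = if h : s.1 = j then c (h ▸ s.2) else 0 := by
      intro c s
      show (if h : s.1 = j then LinearMap.proj (h ▸ s.2 : Fin (d j + 1)) else 0 :
        (Fin (d j + 1) → κ) →ₗ[κ] κ) c = _
      split_ifs <;> rfl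
    obtain ⟨c, hc1, hc0⟩ : ∃ c : Fin (d j + 1) → κ, c ∈ LinearMap.ker (Ψ.comp ι) ∧ c ≠ 0 := by
      by_contra hcon
      push Not at hcon
      have h3 : LinearMap.ker (Ψ.comp ι) = ⊥ := by
        rw [eq_bot_iff]
        intro c hc
        rw [Submodule.mem_bot]
        exact hcon c hc
      have h4 := LinearMap.finrank_le_finrank_of_injective (LinearMap.ker_eq_bot.1 h3)
      rw [Module.finrank_fintype_fun_eq_card, Module.finrank_fintype_fun_eq_card,
        Fintype.card_fin] at h4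
      have := hs j
      omega
    have hc2 : ι c ∈ LinearMap.ker Ψ := hc1
    refine ⟨c, hc0, fun i => w.repr ⟨ι c, hc2⟩ i, fun s => ?_⟩
    rw [← hι]
    have h5 := w.sum_repr ⟨ι c, hc2⟩
    have h6 := congrArg (fun v : LinearMap.ker Ψ => (v : (Σ j : Fin p, Fin (d j + 1)) → κ) s) h5
    simp only at h6
    rw [← h6, Submodule.coe_sum, Finset.sum_apply]
    refine Finset.sum_congr rfl fun i _ => ?_
    rw [Submodule.coe_smul, Pi.smul_apply, smul_eq_mul]

/-- **Step E.** -/
theorem no_certK_der {κ : Type u} [Field κ] [IsAlgClosed κ] [CharZero κ] {k : Type*} [Field k]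
    [CharZero k] [Algebra k κ] {n m q b s : ℕ} {d : Fin (q + 1) → ℕ}
    (hd : m + q + 2 + 2 * b + s ≤ ∑ j, d j) (hs : ∀ j, s ≤ d j) {ι : Type*} {e : ι → ℕ}
    {f : ι → MvPolynomial (Fin (q + 1) ⊕ Fin (n + 1)) k}
    (hf : ∀ i, (f i).IsWeightedHomogeneous (wtP (n + 1) d) (e i))
    (hdim : ringKrullDim (MvPolynomial (Fin (q + 1) ⊕ Fin (n + 1)) k ⧸ Ideal.span (Set.range f)) ≤
      ((m + q + 3 : ℕ) : ℕ))
    {a : Fin (q + 1) → (Fin (n + 1) →₀ ℕ) → κ} (δ : Fin (m + 1) → Derivation ℤ κ κ)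
    (hδk : ∀ i, ∀ u : k, δ i (algebraMap k κ u) = 0)
    (hδa : ∀ i j, ∀ I ∈ expo (Fin (n + 1)) (d j), δ i (a j I) = 0)
    {θ : Type*} [Fintype θ] (hθ : Fintype.card θ ≤ s)
    (ψ : θ → (Fin (q + 1) → (Fin (n + 1) →₀ ℕ) → κ) →ₗ[κ] κ)
    (hW : ∀ g : Fin (q + 1) → (Fin (n + 1) →₀ ℕ) → κ, (∀ t, ψ t g = 0) →
      ∃ W : Derivation ℤ κ κ, (∀ u : k, W (algebraMap k κ u) = 0) ∧
        ∀ j, ∀ I ∈ expo (Fin (n + 1)) (d j), W (a j I) = g j I)
    {x : Fin (n + 1) → κ}
    (hx : LinearIndependent κ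
      (Fin.cons x (fun i k => δ i (x k)) : Fin (m + 2) → Fin (n + 1) → κ))
    (hne : NDegP f x) :
    ¬ CertV e (aWP d a f) b x := by
  classical
  rintro ⟨A, Bv, ξ₀, ξ₁, ξ₂, c, y₁, y, hboxA, -, hc, hξ₀, hξ₁, hξ₂, hA, hAY, hB, hF, h0, h1, h2⟩
  set α := (derivative A).evalEval y₁ y with hα
  obtain ⟨i₀, hind⟩ := indep_atV (β := α * c) hA hAY (mul_ne_zero hAY hc)
    (fun j => by rw [mul_assoc]; exact hB j) h0 h1 δ hx
  obtain ⟨g, hirr, hf0, hfdeg, hfA, hfz⟩ := exists_factor hA hAY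
  refine with_curve hirr hf0 ?_
  intro M _ _ _ _ _ _ _ _ _ Y hY hgen hfin ht halg
  set φ := algebraMap κ M with hφ
  set X' : M := algebraMap κ[X] M X with hX'
  -- specialisation
  have hspec : ∀ G : κ[X][X], evalEvalRingHom y₁ y G ≠ 0 → ev φ X' Y G ≠ 0 := by
    intro G hG h3
    rw [hX', ev_aeval, hY] at h3
    obtain ⟨q, rfl⟩ := h3
    apply hG
    rw [map_mul]
    have h4 : evalEvalRingHom y₁ y g = 0 := hfz
    rw [h4, zero_mul]
  have hevA : ∀ G : κ[X][X], A ∣ G → ev φ X' Y G = 0 := by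
    intro G hG
    rw [hX', ev_aeval, hY]
    exact hfA.trans hG
  have hAP : ev φ X' Y A = 0 := hevA A dvd_rfl
  have hAYP : ev φ X' Y (derivative A) ≠ 0 := hspec _ hAY
  set ω := ev φ X' Y (derivative A) with hω
  set γ : Fin (n + 1) → M := fun j => ev φ X' Y (Bv j) with hγdef
  -- the derivations
  obtain ⟨D, hDκ, hDX⟩ := exists_der_ext ht halg (0 : Derivation ℤ κ κ) 1
  choose E hEκ hEX using fun i : Fin (m + 1) => exists_der_ext ht halg (δ i) 0
  have hDκ' : ∀ u : κ, D (algebraMap κ M u) = 0 := fun u => by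
    rw [hDκ]
    simp
  have hD : ∀ G, ω * D (ev φ X' Y G) = ev φ X' Y (vf A (cX κ) G) := by
    intro G
    rw [ev_vf φ 0 D hDκ hAP G, hX', hDX, one_mul, vf_apply, cE_zero, cE_zero]
    simp
  have hE : ∀ i G, ω * E i (ev φ X' Y G) = ev φ X' Y (vf A (cE (δ i)) G) := by
    intro i G
    rw [ev_vf φ (δ i) (E i) (hEκ i) hAP G, hX', hEX, zero_mul, add_zero]
  -- the relations between `γ` and the projection
  have hsum : ∀ ξ : Fin (n + 1) → κ, ev φ X' Y (∑ j, C (C (ξ j)) * Bv j) = ∑ j, φ (ξ j) * γ j := by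
    intro ξ
    rw [map_sum]
    refine Finset.sum_congr rfl fun j _ => ?_
    rw [map_mul, ev_C_C]
  have r0 : ∑ j, φ (ξ₀ j) * γ j = ω := by
    rw [← hsum, ← sub_eq_zero, hω, ← map_sub]
    exact hevA _ h0
  have r1 : ∑ j, φ (ξ₁ j) * γ j = X' * ω := by
    rw [← hsum, ← sub_eq_zero, hω]
    have h4 : X' * ev φ X' Y (derivative A) = ev φ X' Y (C X * derivative A) := by
      rw [map_mul, ev_C_X]
    rw [h4, ← map_sub]
    exact hevA _ h1
  have r2 : ∑ j, φ (ξ₂ j) * γ j = Y * ω := by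
    rw [← hsum, ← sub_eq_zero, hω]
    have h4 : Y * ev φ X' Y (derivative A) = ev φ X' Y (X * derivative A) := by
      rw [map_mul, ev_X]
    rw [h4, ← map_sub]
    exact hevA _ h2
  have hγ : γ ≠ 0 := by
    intro h3
    apply hAYP
    rw [← r0, h3]
    simp
  -- the structure of an algebra over `k`
  let _ : Algebra k M := ((algebraMap κ M).comp (algebraMap k κ)).toAlgebra
  have hkM : ∀ u : k, algebraMap k M u = algebraMap κ M (algebraMap k κ u) := fun u => rfl
  have tkM : IsScalarTower k κ M := IsScalarTower.of_algebraMap_eq hkM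
  -- `γ` is a zero of all the forms
  have hFo : ∀ o : ι, Fval (e o) (fun I => algebraMap κ M (aWP d a f o I)) γ = 0 := by
    intro o
    have h3 := hevA _ (hF o)
    rw [← h3]
    unfold FB Fval mon
    rw [map_sum]
    refine Finset.sum_congr rfl fun I _ => ?_
    rw [map_mul, ev_C_C, map_prod]
    congr 1
    refine Finset.prod_congr rfl fun j _ => ?_
    rw [map_pow]
  set η : Fin (q + 1) → M := fun j => Fval (d j) (fun I => algebraMap κ M (a j I)) γ with hη
  have hfγ : ∀ i, MvPolynomial.aeval (Sum.elim η γ : Fin (q + 1) ⊕ Fin (n + 1) → M) (f i) = 0 := by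
    intro i
    rw [hη, ← Fval_aWP hf a γ i]
    exact hFo i
  -- the relation between the derivatives of the value of the form
  have hne' : NDegP f γ := by
    set β := α * c with hβ
    have hβ0 : β ≠ 0 := mul_ne_zero hAY hc
    have hsm := hne.smul hf hβ0
    intro j
    obtain ⟨i, hi, τ, hτ⟩ := hsm j
    set G : κ[X][X] := MvPolynomial.aeval (Sum.elim (fun _ => C (C τ)) Bv :
      Fin (q + 1) ⊕ Fin (n + 1) → κ[X][X]) (f i) with hG
    have h3 : ∀ (S : Type u) [Field S] [Algebra k S] (ψ : κ[X][X] →+* S)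
        (_ : ∀ u : k, ψ (algebraMap k κ[X][X] u) = algebraMap k S u),
        ψ G = MvPolynomial.aeval (Sum.elim (fun _ => ψ (C (C τ))) (fun j => ψ (Bv j)) :
          Fin (q + 1) ⊕ Fin (n + 1) → S) (f i) := by
      intro S _ _ ψ hψ
      rw [hG, MvPolynomial.aeval_def, MvPolynomial.hom_eval₂, MvPolynomial.aeval_def]
      congr 1
      · exact RingHom.ext hψ
      · funext t
        rcases t with t | t <;> rfl
    have h4 : evalEvalRingHom y₁ y G ≠ 0 := by
      rw [h3 κ (evalEvalRingHom y₁ y) (fun u => by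
        rw [IsScalarTower.algebraMap_apply k κ κ[X][X]]
        show evalEval y₁ y (C (C (algebraMap k κ u))) = _
        rw [evalEval_C, eval_C])]
      have h5 : (Sum.elim (fun _ => evalEvalRingHom y₁ y (C (C τ)))
          (fun j => evalEvalRingHom y₁ y (Bv j)) : Fin (q + 1) ⊕ Fin (n + 1) → κ) =
          Sum.elim (fun _ => τ) fun j => β * x j := by
        funext t
        rcases t with t | t
        · show evalEval y₁ y (C (C τ)) = τ
          rw [evalEval_C, eval_C]
        · show evalEval y₁ y (Bv t) = β * x t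
          rw [← hB t, hβ, mul_assoc]
      rw [h5]
      exact hτ
    have h6 := hspec G h4
    rw [h3 M (ev φ X' Y) (fun u => by
      rw [IsScalarTower.algebraMap_apply k κ κ[X][X], hkM]
      show ev φ X' Y (C (C (algebraMap k κ u))) = _
      rw [ev_C_C])] at h6
    exact ⟨i, hi, _, h6⟩
  choose cr hcr hcrγ using fun j => hne'.rel hf hfγ j
  -- independence
  have hindM : LinearIndependent M (Fin.cons γ (Fin.cons (fun k => D (γ k))
      fun i k => E (i₀.succAbove i) (γ k)) : Fin (m + 2) → Fin (n + 1) → M) := by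
    have h3 := indep_of_spec (evalEvalRingHom y₁ y) (ev φ X' Y) hspec
      (N := Fin.cons Bv (Fin.cons (fun j => vf A (cX κ) (Bv j))
        fun i j => vf A (cE (δ (i₀.succAbove i))) (Bv j))) (by
        convert hind using 1
        funext i
        refine Fin.cases rfl (fun i => ?_) i
        exact Fin.cases rfl (fun i => rfl) i)
    have hω0 : ω ≠ 0 := hAYP
    have h4 := h3.units_smul (Fin.cons 1 fun _ => (Units.mk0 ω hω0)⁻¹)
    convert h4 using 1
    funext i
    refine Fin.cases ?_ (fun i => ?_) i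
    · funext j
      simp only [Fin.cons_zero, Pi.smul_apply', one_smul]
      rfl
    · refine Fin.cases ?_ (fun i => ?_) i
      · funext j
        show D (γ j) = (ω⁻¹ : M) * ev φ X' Y (vf A (cX κ) (Bv j))
        rw [← hD, inv_mul_cancel_left₀ hω0]
      · funext j
        show E (i₀.succAbove i) (γ j) =
          (ω⁻¹ : M) * ev φ X' Y (vf A (cE (δ (i₀.succAbove i))) (Bv j))
        rw [← hE, inv_mul_cancel_left₀ hω0]
  -- the tangent space
  obtain ⟨l, hl⟩ : ∃ l, γ l ≠ 0 := by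
    by_contra hcon
    push Not at hcon
    exact hγ (funext hcon)
  obtain ⟨T, hT, hγT, hDT⟩ := exists_tangent (k := k) (r := m + q + 2) hl
    (fun p j hj => card_le_of_dimP hf hdim hfγ hl hj)
  -- the functionals
  set aM : Fin (q + 1) → (Fin (n + 1) →₀ ℕ) → M := fun j I => algebraMap κ M (a j I) with haM
  set gg : Fin (q + 1) → Fin (n + 1) → M := fun j k => grad (d j) (aM j) γ k - cr j k with hgg
  have hsplit : ∀ j, ∀ v : Fin (n + 1) → M, ∑ k, gg j k * v k =
      ∑ k, grad (d j) (aM j) γ k * v k - ∑ k, cr j k * v k := by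
    intro j v
    rw [← Finset.sum_sub_distrib]
    exact Finset.sum_congr rfl fun k _ => sub_mul _ _ _
  have hg0 : ∀ j, ∑ k, gg j k * γ k = 0 := by
    intro j
    rw [hsplit, grad_euler, hcrγ, hη, sub_self]
  have hgder : ∀ j, ∀ F : Derivation ℤ M M, (∀ u : k, F (algebraMap k M u) = 0) →
      ∑ k, gg j k * F (γ k) =
        - ∑ I ∈ expo (Fin (n + 1)) (d j), F (aM j I) * mon γ I := by
    intro j F hFk
    rw [hsplit, ← hcr j F hFk, hη, D_Fval (d j) (aM j) F γ]
    ring
  have hgD : ∀ j, ∑ k, gg j k * D (γ k) = 0 := by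
    intro j
    rw [hgder j D fun u => by rw [hkM, hDκ'], Finset.sum_eq_zero, neg_zero]
    intro I _
    rw [haM]
    simp only
    rw [hDκ', zero_mul]
  have hgE : ∀ j i, ∑ k, gg j k * E i (γ k) = 0 := by
    intro j i
    rw [hgder j (E i) fun u => by rw [hkM, hEκ, hδk, map_zero], Finset.sum_eq_zero, neg_zero]
    intro I hI
    rw [haM]
    simp only
    rw [hEκ, hδa _ j I hI, map_zero, zero_mul]
  -- the pencil of linear forms
  have hMff : IsFF κ M := by
    have t : IsScalarTower κ (RatFunc κ) M := by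
      refine IsScalarTower.of_algebraMap_eq fun u => ?_
      rw [IsScalarTower.algebraMap_apply κ κ[X] M,
        IsScalarTower.algebraMap_apply κ κ[X] (RatFunc κ),
        ← IsScalarTower.algebraMap_apply κ[X] (RatFunc κ) M]
    exact (sp5b_isFF κ).of_finite
  obtain ⟨ζ₀, ζ₁, hu0, hmax⟩ := exists_forms hMff hγ
  set L₀ : MvPolynomial (Fin (n + 1)) κ := ∑ j, MvPolynomial.C (ζ₀ j : κ) * MvPolynomial.X j with hL₀
  set L₁ : MvPolynomial (Fin (n + 1)) κ := ∑ j, MvPolynomial.C (ζ₁ j : κ) * MvPolynomial.X j with hL₁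
  have hLh : ∀ ζ : Fin (n + 1) → ℕ, (∑ j, MvPolynomial.C (ζ j : κ) * MvPolynomial.X j :
      MvPolynomial (Fin (n + 1)) κ).IsHomogeneous 1 := by
    intro ζ
    refine MvPolynomial.IsHomogeneous.sum _ _ _ fun j _ => ?_
    have h1 := (MvPolynomial.isHomogeneous_C (Fin (n + 1)) (ζ j : κ)).mul
      (MvPolynomial.isHomogeneous_X κ j)
    simpa using h1
  have hLe : ∀ ζ : Fin (n + 1) → ℕ, MvPolynomial.aeval γ
      (∑ j, MvPolynomial.C (ζ j : κ) * MvPolynomial.X j : MvPolynomial (Fin (n + 1)) κ) =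
      ∑ j, (ζ j : M) * γ j := by
    intro ζ
    rw [map_sum]
    refine Finset.sum_congr rfl fun j _ => ?_
    rw [map_mul, MvPolynomial.aeval_C, MvPolynomial.aeval_X, map_natCast]
  set u : M := ∑ j, (ζ₀ j : M) * γ j with hu
  set v : M := ∑ j, (ζ₁ j : M) * γ j with hv
  have hpair : (![u, v] : Fin 2 → M) ≠ 0 := fun h0 => hu0 (congrFun h0 0)
  have hγz : height κ γ ≤ height κ ![1, v / u] := by
    have h1 : height κ ![u, v] = height κ ![1, v / u] := by
      rw [← hMff.height_smul (x := ![1, v / u]) hu0]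
      congr 1
      funext j
      fin_cases j
      · exact (mul_one _).symm
      · show v = u * (v / u)
        rw [mul_div_cancel₀ _ hu0]
    rw [← h1]
    unfold height
    refine finsum_mono (hMff.vmax_support hγ) (hMff.vmax_support hpair) fun w => ?_
    have n1 : vmax w.1 γ ≠ 0 := by
      rw [Ne, vmax_eq_zero_iff]
      exact hγ
    have n2 : vmax w.1 ![u, v] ≠ 0 := by
      rw [Ne, vmax_eq_zero_iff]
      exact hpair
    refine (log_le_log n1 n2).mpr ((hmax w).trans (max_le ?_ ?_))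
    · exact le_vmax w.1 ![u, v] 0
    · exact le_vmax w.1 ![u, v] 1
  have hpos : 0 < height κ γ := height_pos hγ (ξ₀ := ξ₀) (ξ₁ := ξ₁) (by rw [← hφ, r0]; exact hAYP)
    (by rw [← hφ, r0, r1])
  have hz : Transcendental κ (v / u) := by
    intro halg'
    obtain ⟨z₀, hz₀⟩ := minpoly.mem_range_of_degree_eq_one κ (v / u)
      (IsAlgClosed.degree_eq_one_of_irreducible κ (minpoly.irreducible halg'.isIntegral))
    have h1 : height κ ![1, v / u] = 0 := by
      unfold height
      refine (finsum_congr fun w => ?_).trans finsum_zero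
      rw [vmax_one_pair, ← hz₀, max_eq_left (place_const_le w z₀), log_one]
    linarith
  -- the space of binary forms killed by the functionals
  obtain ⟨N, cc, hN, hccli, hcc, hblk⟩ := exists_kerK hθ hs (binK L₀ L₁ d) ψ
  choose W hWk hWa using fun i => hW _ (hcc i)
  choose W' hWκ' hWX' using fun i => exists_der_ext ht halg (W i) 0
  set C' : Matrix (Fin N) (Σ j : Fin (q + 1), Fin (d j + 1)) κ := Matrix.of cc with hC'
  set U : Fin (q + 1) → Fin N → M := fun j =>
    (C'.map (algebraMap κ M)).mulVec (bpw d (v / u) j) with hU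
  have hUi : LinearIndependent M U := indep_bpw_map hz (C := C') hblk
  have hunit : ∀ j, - u ^ d j ≠ 0 := fun j => neg_ne_zero.2 (pow_ne_zero _ hu0)
  set Q : Fin (q + 1) → Fin N → M := fun j => (- u ^ d j) • U j with hQ
  have hQi : LinearIndependent M Q := by
    have h4 := hUi.units_smul (fun j => Units.mk0 _ (hunit j))
    exact h4
  have hQspan : Submodule.span M (Set.range Q) = Submodule.span M (Set.range U) := by
    apply le_antisymm
    · rw [Submodule.span_le]
      rintro _ ⟨j, rfl⟩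
      exact Submodule.smul_mem _ _ (Submodule.subset_span ⟨j, rfl⟩)
    · rw [Submodule.span_le]
      rintro _ ⟨j, rfl⟩
      have h4 : U j = (- u ^ d j)⁻¹ • Q j := by
        rw [hQ]
        simp only
        rw [smul_smul, inv_mul_cancel₀ (hunit j), one_smul]
      rw [SetLike.mem_coe, h4]
      exact Submodule.smul_mem _ _ (Submodule.subset_span ⟨j, rfl⟩)
  have hQeq : ∀ j t, ∑ I ∈ expo (Fin (n + 1)) (d j),
      algebraMap κ M (binK L₀ L₁ d (cc t) j I) * mon γ I = - Q j t := by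
    intro j t
    rw [binK_apply, bin_eval (hLh ζ₀) (hLh ζ₁), hLe, hLe, hQ, ← hu, ← hv]
    simp only
    rw [Pi.smul_apply, hU]
    simp only
    rw [mulVec_bpw, smul_eq_mul, neg_mul, neg_neg, Finset.mul_sum]
    refine Finset.sum_congr rfl fun i _ => ?_
    have h3 : u ^ d j = u ^ (d j - (i : ℕ)) * u ^ (i : ℕ) := by
      rw [← pow_add]
      congr 1
      have := i.2
      omega
    rw [h3, div_pow, Matrix.map_apply]
    show algebraMap κ M (cc t ⟨j, i⟩) * _ = _ * (algebraMap κ M (cc t ⟨j, i⟩) * _)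
    field_simp
  have hgW : ∀ j t, ∑ k, gg j k * W' t (γ k) = Q j t := by
    intro j t
    rw [hgder j (W' t) fun u => by rw [hkM, hWκ', hWk, map_zero], neg_eq_iff_eq_neg, ← hQeq j t]
    refine Finset.sum_congr rfl fun I hI => ?_
    rw [haM]
    simp only
    rw [hWκ', hWa t j I hI]
  -- the inequalities
  have hglob := wedge_globalK D hDκ' hDX (fun i => E (i₀.succAbove i))
    (fun i u => ⟨_, hEκ _ u⟩) (fun i => ⟨0, by rw [hEX, map_zero]⟩) W' (fun I u => ⟨_, hWκ' _ u⟩)
    (fun I => ⟨0, by rw [hWX', map_zero]⟩) hg0 hgD (fun j i => hgE j _) hgW hQi hindM hT hγT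
    (hDT D fun u => by rw [hkM, hDκ'])
    (fun i => hDT _ fun u => by rw [hkM, hEκ, hδk, map_zero])
    (fun I => hDT _ fun u => by rw [hkM, hWκ', hWk, map_zero])
  obtain ⟨S, hS⟩ := exists_right_inv (C := C') hccli
  have htr : ∀ c : κ, v / u ≠ algebraMap κ M c := by
    intro c hc
    exact hz (hc ▸ isAlgebraic_algebraMap c)
  have hQh := ht_bpw_map d hMff htr C' S hS (c := s) (by rw [Fintype.card_fin]; exact hN)
  rw [← hU] at hQh
  rw [hQspan] at hglob
  have hsd : (s : ℤ) ≤ ∑ j, (d j : ℤ) := by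
    have h3 : s ≤ ∑ j, d j := by omega
    exact_mod_cast h3
  have hQh' : ((∑ j, (d j : ℤ)) - s) * height κ γ ≤
      ((∑ j, (d j : ℤ)) - s) * height κ ![1, v / u] :=
    mul_le_mul_of_nonneg_left hγz (by linarith)
  have hgen' : pointField (RatFunc κ) γ = ⊤ := by
    rw [eq_top_iff, ← hgen, IntermediateField.adjoin_le_iff, Set.singleton_subset_iff]
    have hmem : ∀ ξ : Fin (n + 1) → κ, (∑ j, φ (ξ j) * γ j) / γ l ∈ pointField (RatFunc κ) γ := by
      intro ξ
      rw [Finset.sum_div]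
      refine sum_mem fun j _ => ?_
      rw [mul_div_assoc]
      refine mul_mem ?_ (IntermediateField.subset_adjoin _ _ ⟨j, l, rfl⟩)
      have h5 : φ (ξ j) = algebraMap (RatFunc κ) M (algebraMap κ[X] (RatFunc κ) (C (ξ j))) := by
        rw [← IsScalarTower.algebraMap_apply κ[X] (RatFunc κ) M, hφ,
          IsScalarTower.algebraMap_apply κ κ[X] M]
        rfl
      rw [h5]
      exact (pointField (RatFunc κ) γ).algebraMap_mem _
    have h6 : Y = ((∑ j, φ (ξ₂ j) * γ j) / γ l) / ((∑ j, φ (ξ₀ j) * γ j) / γ l) := by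
      rw [r0, r2]
      field_simp
    rw [h6]
    exact div_mem (hmem ξ₂) (hmem ξ₀)
  have hram := ram_le hγ hgen'
  have hfin' : (Module.finrank (RatFunc κ) M : ℤ) ≤ b := by
    rw [hfin]
    exact_mod_cast hfdeg.trans hboxA.1
  have h7 : ((∑ j, (d j : ℤ)) - s) * height κ γ ≤ (m + q + 3 + 2 * (b - 1)) * height κ γ := by
    have h8 : 2 * ((Module.finrank (RatFunc κ) M : ℤ) - 1) * height κ γ ≤
        2 * ((b : ℤ) - 1) * height κ γ := by
      apply mul_le_mul_of_nonneg_right _ hpos.le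
      linarith
    linarith
  have h9 := le_of_mul_le_mul_right h7 hpos
  have h10 : ((m + q + 2 + 2 * b + s : ℕ) : ℤ) ≤ ((∑ j, d j : ℕ) : ℤ) := by exact_mod_cast hd
  push_cast at h10
  linarith

end Pool.Agent.Lib.MP_44a246_ntK
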