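import Mathlib
import Pool.Agent.Lib.MP_44a246_ntU.U13
import Pool.Agent.Lib.MP_44a246_ntK.K10
import Pool.Agent.Lib.MP_44a246_ntK.K15

/-!
Step E for a generic point of a section `t_j = H_j (x)` over an algebraically closed field, if all
but `s` of the coefficients of the forms `H_j` are algebraically independent.
-/

namespace Pool.Agent.Lib.MP_44a246_ntK

open Pool.Agent.Lib.MP_44a246_ntD
open Pool.Agent.Lib.MP_44a246_ntQ
open Pool.Agent.Lib.MP_e52354_nt
open Pool.Agent.Lib.MP_44a246_nt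
open Pool.Agent.Lib.MP_44a246_ntL
open Pool.Agent.Lib.MP_44a246_ntS
open Pool.Agent.Lib.MP_44a246_ntG
open Pool.Agent.Lib.MP_44a246_ntU
open Module

universe u

/-- **Step E** over an algebraically closed field -/
theorem no_certK_closed {κ : Type u} [Field κ] [IsAlgClosed κ] [CharZero κ] {k : Type*} [Field k]
    [CharZero k] [Algebra k κ] {n m q b s : ℕ} {d : Fin (q + 1) → ℕ}
    (hd : m + q + 2 + 2 * b + s ≤ ∑ j, d j) (hs : ∀ j, s ≤ d j) {ι : Type*} {e : ι → ℕ}
    {f : ι → MvPolynomial (Fin (q + 1) ⊕ Fin (n + 1)) k}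
    (hf : ∀ i, (f i).IsWeightedHomogeneous (wtP (n + 1) d) (e i))
    (hdim : ringKrullDim (MvPolynomial (Fin (q + 1) ⊕ Fin (n + 1)) k ⧸ Ideal.span (Set.range f)) ≤
      ((m + q + 3 : ℕ) : ℕ))
    {a : Fin (q + 1) → (Fin (n + 1) →₀ ℕ) → κ}
    {P : Finset (Fin (q + 1) × (Fin (n + 1) →₀ ℕ))} (hP : P.card ≤ s)
    (ha : AlgebraicIndependent k (fun s : {s // s ∈ jexpo n d ∧ s ∉ P} => a s.1.1 s.1.2))
    {k₂ : Type*} [Field k₂] [CharZero k₂] [Algebra k k₂] [Algebra k₂ κ] [IsScalarTower k k₂ κ]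
    {a₂ : Fin (q + 1) → (Fin (n + 1) →₀ ℕ) → k₂}
    (ha₂ : ∀ j, ∀ I ∈ expo (Fin (n + 1)) (d j), algebraMap k₂ κ (a₂ j I) = a j I)
    {x : Fin (n + 1) → κ} {l : Fin (n + 1)} (hl : x l ≠ 0) {j : Fin (m + 1) → Fin (n + 1)}
    (hind : AlgebraicIndependent k₂ (fun i : Fin (m + 1) => x (j i) / x l))
    (hne : NDegP f x) :
    ¬ CertV e (aWP d a f) b x := by
  classical
  choose δ hδ using fun i : Fin (m + 1) => exists_der_indepV hind (fun i' => if i = i' then 1 else 0)
  choose W hW using fun I : Fin (q + 1) × (Fin (n + 1) →₀ ℕ) => exists_der_indepV ha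
    (fun J => if I = J.1 then (1 : κ) else 0)
  set E := (jexpo n d).filter (fun I => I ∉ P) with hE
  refine no_certK_der hd hs hf hdim δ (fun i u => ?_) (fun i j' I hI => ?_)
    (θ := ↥P) (by rwa [Fintype.card_coe])
    (fun K => (∑ I ∈ E, (W I (a K.1.1 K.1.2)) •
      (LinearMap.proj I.2 ∘ₗ LinearMap.proj I.1 : (Fin (q + 1) → (Fin (n + 1) →₀ ℕ) → κ) →ₗ[κ] κ)) -
        (LinearMap.proj K.1.2 ∘ₗ LinearMap.proj K.1.1 :
          (Fin (q + 1) → (Fin (n + 1) →₀ ℕ) → κ) →ₗ[κ] κ))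
    (fun g hg => ?_) (indep_pointV (j := j) hl δ fun i i' => ?_) hne
  · rw [IsScalarTower.algebraMap_apply k k₂ κ]
    exact (hδ i).1 _
  · rw [← ha₂ j' I hI]
    exact (hδ i).1 _
  · have hsum : ∀ y : κ, (∑ I ∈ E, g I.1 I.2 • W I : Derivation ℤ κ κ) y =
        ∑ I ∈ E, (g I.1 I.2 • W I) y := by
      intro y
      show (Derivation.coeFnAddMonoidHom (∑ I ∈ E, g I.1 I.2 • W I)) y = _
      rw [map_sum, Finset.sum_apply]
      rfl
    refine ⟨∑ I ∈ E, g I.1 I.2 • W I, fun u => ?_, fun j' J hJ => ?_⟩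
    · rw [hsum]
      refine Finset.sum_eq_zero fun I _ => ?_
      rw [Derivation.smul_apply, (hW I).1, smul_zero]
    · rw [hsum]
      by_cases hJP : (j', J) ∈ P
      · have h1 := hg ⟨(j', J), hJP⟩
        rw [LinearMap.sub_apply, LinearMap.comp_apply, LinearMap.proj_apply, LinearMap.proj_apply,
          sub_eq_zero] at h1
        rw [← h1, LinearMap.sum_apply]
        refine Finset.sum_congr rfl fun I _ => ?_
        rw [Derivation.smul_apply, LinearMap.smul_apply, LinearMap.comp_apply,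
          LinearMap.proj_apply, LinearMap.proj_apply, smul_eq_mul, smul_eq_mul, mul_comm]
      · have h2 : ∀ I ∈ E, (g I.1 I.2 • W I) (a j' J) =
            if I = (j', J) then g I.1 I.2 else 0 := by
          intro I _
          rw [Derivation.smul_apply, (hW I).2 ⟨(j', J), mem_jexpo.2 hJ, hJP⟩]
          split_ifs <;> simp
        rw [Finset.sum_congr rfl h2, Finset.sum_ite_eq' E (j', J), if_pos]
        rw [hE, Finset.mem_filter]
        exact ⟨mem_jexpo.2 hJ, hJP⟩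
  · exact (hδ i).2 i'

end Pool.Agent.Lib.MP_44a246_ntK
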