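import Mathlib
import Pool.Agent.Lib.MP_44a246_ntD.D15
import Pool.Agent.Lib.MP_44a246_ntK.K13
import Pool.Agent.Lib.MP_44a246_ntK.K18

/-!
The theorem for complete intersections of generic hypersurface sections of subvarieties of
`P (d_1, ..., d_p, 1, ..., 1)` over a function field, with the bound for the degree of the
exceptional curves as a parameter.
-/

namespace Pool.Agent.Lib.MP_44a246_ntK

open Pool.Agent.Lib.MP_44a246_ntD
open Pool.Agent.Lib.MP_44a246_ntQ
open Pool.Agent.Lib.MP_44a246_nt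
open Pool.Agent.Lib.MP_e52354_ntK
open Pool.Agent.Lib.MP_44a246_ntL
open Pool.Agent.Lib.MP_44a246_ntS
open Pool.Agent.Lib.MP_44a246_ntX
open Pool.Agent.Lib.MP_44a246_ntG
open Pool.Agent.Lib.MP_44a246_ntU
open Pool.Agent.Lib.MP_e52354_nt
open MvPolynomial Module

universe u v w

/-- the elements outside a finite set of at most `c` elements are algebraically independent -/
theorem exists_few_gen {k : Type*} {K : Type*} [Field k] [Field K] [Algebra k K] {σ : Type*}
    [DecidableEq σ] (S : Finset σ) (a : σ → K) {c : ℕ}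
    (h : (S.card : Cardinal) ≤ Algebra.trdeg k (IntermediateField.adjoin k
        (Set.range fun I : ↥S => a I.1)) + c) :
    ∃ P : Finset σ, P.card ≤ c ∧
      AlgebraicIndependent k (fun s : {s // s ∈ S ∧ s ∉ P} => a s.1) := by
  classical
  obtain ⟨J, hJ, -, hcard⟩ := exists_basis_family (k₀ := k) (fun I : ↥S => a I.1)
  rw [← hcard] at h
  have h1 : S.card ≤ Nat.card J + c := by exact_mod_cast h
  obtain ⟨P, hP1, hP2⟩ : ∃ P : Finset σ, P.card ≤ c ∧
      ∀ I : σ, ∀ hI : I ∈ S, I ∉ P → (⟨I, hI⟩ : ↥S) ∈ J := by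
    refine ⟨(Jᶜ : Set ↥S).toFinset.image Subtype.val, ?_, ?_⟩
    · refine Finset.card_image_le.trans ?_
      rw [Set.toFinset_card]
      rw [Nat.card_eq_fintype_card, ← Fintype.card_coe] at h1
      have h2 := Fintype.card_subtype_compl (fun θ => θ ∈ J)
      have h3 : Fintype.card (Jᶜ : Set ↥S) = Fintype.card {θ // ¬ θ ∈ J} :=
        Fintype.card_congr (Equiv.refl _)
      have h4 : Fintype.card J = Fintype.card {θ // θ ∈ J} := Fintype.card_congr (Equiv.refl _)
      omega
    · intro I hI hIP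
      by_contra hcon
      apply hIP
      rw [Finset.mem_image]
      exact ⟨⟨I, hI⟩, by
        rw [Set.mem_toFinset]
        exact hcon, rfl⟩
  let g : {s // s ∈ S ∧ s ∉ P} → ↥J := fun I => ⟨⟨I.1, I.2.1⟩, hP2 I.1 I.2.1 I.2.2⟩
  have hg : Function.Injective g := by
    intro I I' h
    have h2 := congrArg (fun z : ↥J => (z.1.1 : σ)) h
    exact Subtype.ext h2
  refine ⟨P, hP1, ?_⟩
  have h2 := hJ.comp g hg
  exact h2

/-- the coefficients outside a finite set of at most `c` monomials are algebraically independent -/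
theorem exists_fewK {k : Type*} {K : Type*} [Field k] [Field K] [Algebra k K] {n p c : ℕ}
    {d : Fin p → ℕ} (a : Fin p → (Fin (n + 1) →₀ ℕ) → K)
    (h : (Nat.card {I : Fin p × (Fin (n + 1) →₀ ℕ) // I.2.degree = d I.1} : Cardinal) ≤
      Algebra.trdeg k (IntermediateField.adjoin k
        (Set.range fun I : {I : Fin p × (Fin (n + 1) →₀ ℕ) // I.2.degree = d I.1} =>
          a I.1.1 I.1.2)) + c) :
    ∃ P : Finset (Fin p × (Fin (n + 1) →₀ ℕ)), P.card ≤ c ∧
      AlgebraicIndependent k (fun s : {s // s ∈ jexpo n d ∧ s ∉ P} => a s.1.1 s.1.2) := by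
  classical
  have hmem : ∀ I : Fin p × (Fin (n + 1) →₀ ℕ), I ∈ jexpo n d ↔ I.2.degree = d I.1 :=
    fun I => mem_jexpo.trans mem_expo
  have h1 : Nat.card {I : Fin p × (Fin (n + 1) →₀ ℕ) // I.2.degree = d I.1} =
      (jexpo n d).card := by
    rw [← Fintype.card_coe, ← Nat.card_eq_fintype_card]
    exact Nat.card_congr (Equiv.subtypeEquivRight fun I => (hmem I).symm)
  have h2 : (Set.range fun I : {I : Fin p × (Fin (n + 1) →₀ ℕ) // I.2.degree = d I.1} =>
      a I.1.1 I.1.2) = Set.range fun I : ↥(jexpo n d) => a I.1.1 I.1.2 := by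
    ext y
    constructor
    · rintro ⟨I, rfl⟩
      exact ⟨⟨I.1, (hmem I.1).2 I.2⟩, rfl⟩
    · rintro ⟨I, rfl⟩
      exact ⟨⟨I.1, (hmem I.1).1 I.2⟩, rfl⟩
  rw [h1, h2] at h
  exact exists_few_gen (jexpo n d) (fun s => a s.1 s.2) h

end Pool.Agent.Lib.MP_44a246_ntK
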