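import Mathlib
import Pool.Agent.Lib.MP_44a246_ntD.D17

/-!
Linear algebra: minors and several linear functionals on a space of vectors.
-/

namespace Pool.Agent.Lib.MP_44a246_ntK

open Pool.Agent.Lib.MP_44a246_ntD
open Pool.Agent.Lib.MP_44a246_ntU
open Pool.Agent.Lib.MP_e52354_nt
open Module

section

variable {M V β : Type*} [Field M] [AddCommGroup V] [Module M V] [Fintype β] [DecidableEq β]

/-- vectors of a space with independent values, and independent vectors of the kernel -/
theorem li_elimK {ρ : Type*} {v : ρ → V} (hv : LinearIndependent M v) {G : V →ₗ[M] (β → M)}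
    (hG : ∀ i, G (v i) = 0) {w₀ : β → V}
    (hw₀ : (Matrix.of fun b b' => G (w₀ b) b').det ≠ 0) :
    LinearIndependent M (Sum.elim w₀ v) := by
  have h0 : LinearIndependent M (fun b => G (w₀ b)) :=
    Matrix.linearIndependent_rows_of_det_ne_zero hw₀
  have h1 : LinearIndependent M w₀ := LinearIndependent.of_comp G h0
  refine h1.sum_type hv ?_
  rw [Submodule.disjoint_def]
  intro x hx hx'
  have hGx : G x = 0 := by
    have h2 : Submodule.span M (Set.range v) ≤ LinearMap.ker G := by
      rw [Submodule.span_le]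
      rintro _ ⟨i, rfl⟩
      exact hG i
    exact h2 hx'
  obtain ⟨c, hc⟩ := (Submodule.mem_span_range_iff_exists_fun M).1 hx
  rw [← hc, map_sum] at hGx
  simp only [map_smul] at hGx
  have h3 := (Fintype.linearIndependent_iff.1 h0) c hGx
  rw [← hc]
  simp only [h3, zero_smul, Finset.sum_const_zero]

/-- vectors with a given value -/
theorem exists_coefK {G : V →ₗ[M] (β → M)} {w₀ : β → V}
    (hw₀ : (Matrix.of fun b b' => G (w₀ b) b').det ≠ 0) (x : V) :
    ∃ c : β → M, G (x - ∑ b, c b • w₀ b) = 0 := by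
  set N : Matrix β β M := Matrix.of fun b b' => G (w₀ b) b' with hN
  have hu : IsUnit N.det := isUnit_iff_ne_zero.2 hw₀
  refine ⟨Matrix.vecMul (G x) N⁻¹, ?_⟩
  have h1 : Matrix.vecMul (Matrix.vecMul (G x) N⁻¹) N = G x := by
    rw [Matrix.vecMul_vecMul, Matrix.nonsing_inv_mul N hu, Matrix.vecMul_one]
  rw [map_sub, map_sum, sub_eq_zero]
  conv_lhs => rw [← h1]
  funext b'
  rw [Finset.sum_apply]
  simp only [map_smul, Pi.smul_apply, smul_eq_mul]
  rfl

end

/-- **The minors of the vectors `w, u` are proportional to the determinant of the functionals**,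
which vanish on the independent vectors `u`. -/
theorem exists_minorGK {M ι ρ β : Type*} [Field M] [Fintype ι] [Fintype ρ] [DecidableEq ρ]
    [Fintype β] [DecidableEq β]
    {T : Submodule M (ι → M)} {u : ρ → ι → M} (hu : LinearIndependent M u)
    {G : (ι → M) →ₗ[M] (β → M)} (hG : ∀ i, G (u i) = 0) {w₀ : β → ι → M}
    (hw₀ : (Matrix.of fun b b' => G (w₀ b) b').det ≠ 0)
    (hT : T ≤ Submodule.span M (Set.range (Sum.elim w₀ u))) :
    ∃ (J : β ⊕ ρ → ι) (lam : M), lam ≠ 0 ∧ ∀ w : β → ι → M, (∀ b, w b ∈ T) →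
      (Matrix.of fun (i : β ⊕ ρ) (k : β ⊕ ρ) => (Sum.elim w u i : ι → M) (J k)).det =
        lam * (Matrix.of fun b b' => G (w b) b').det := by
  classical
  have hv := li_elimK hu hG hw₀
  obtain ⟨J, hJ⟩ := exists_minor_neG hv
  set V₀ : Matrix (β ⊕ ρ) (β ⊕ ρ) M :=
    Matrix.of fun i k => (Sum.elim w₀ u i : ι → M) (J k) with hV₀
  set G₀ : Matrix β β M := Matrix.of fun b b' => G (w₀ b) b' with hG₀
  refine ⟨J, V₀.det / G₀.det, div_ne_zero hJ hw₀, fun w hw => ?_⟩
  have hc : ∀ b, ∃ c : β ⊕ ρ → M, ∑ s, c s • Sum.elim w₀ u s = w b := fun b =>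
    (Submodule.mem_span_range_iff_exists_fun M).1 (hT (hw b))
  choose c hc using hc
  set Cf : Matrix β β M := Matrix.of fun b b' => c b (Sum.inl b') with hCf
  set Cf' : Matrix β ρ M := Matrix.of fun b b' => c b (Sum.inr b') with hCf'
  have h1 : (Matrix.of fun (i : β ⊕ ρ) (k : β ⊕ ρ) => (Sum.elim w u i : ι → M) (J k)) =
      Matrix.fromBlocks Cf Cf' 0 1 * V₀ := by
    ext s k
    rw [Matrix.mul_apply, Fintype.sum_sum_type]
    rcases s with b | i
    · rw [Matrix.of_apply, Sum.elim_inl, ← hc b, Finset.sum_apply, Fintype.sum_sum_type]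
      rfl
    · simp only [Matrix.fromBlocks_apply₂₁, Matrix.fromBlocks_apply₂₂, Matrix.of_apply,
        Sum.elim_inr, Matrix.zero_apply, zero_mul, Finset.sum_const_zero, zero_add]
      simp only [Matrix.one_apply, ite_mul, one_mul, zero_mul, Finset.sum_ite_eq,
        Finset.mem_univ, if_true]
      rfl
  have h2 : (Matrix.of fun b b' => G (w b) b') = Cf * G₀ := by
    ext b b'
    rw [Matrix.mul_apply, Matrix.of_apply, ← hc b, map_sum, Fintype.sum_sum_type,
      Pi.add_apply, Finset.sum_apply, Finset.sum_apply]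
    simp only [map_smul, Sum.elim_inl, Sum.elim_inr, hG, Pi.zero_apply, Pi.smul_apply,
      smul_eq_mul, mul_zero, Finset.sum_const_zero, add_zero]
    rfl
  rw [h1, h2, Matrix.det_mul, Matrix.det_mul, Matrix.det_fromBlocks_zero₂₁, Matrix.det_one,
    mul_one]
  field_simp

/-- extension of independent vectors to a basis by vectors of a given set -/
theorem exists_ext_basisK {M V β : Type*} [Field M] [AddCommGroup V] [Module M V]
    [FiniteDimensional M V] [Fintype β] [DecidableEq β] {q : ℕ} {u : Fin q → V}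
    (hu : LinearIndependent M u) {S : Set V}
    {T : Submodule M V} (huT : ∀ i, u i ∈ T) (hST : ∀ s ∈ S, s ∈ T)
    {G : V →ₗ[M] (β → M)} (hG : ∀ i, G (u i) = 0) (hGS : ∀ s ∈ S, G s = 0)
    (hker : ∀ x ∈ T, G x = 0 → x ∈ Submodule.span M (Set.range u ∪ S))
    {w₀ : β → V} (hw₀T : ∀ b, w₀ b ∈ T) (hw₀ : (Matrix.of fun b b' => G (w₀ b) b').det ≠ 0) :
    ∃ (j : ℕ) (s : Fin j → V), (∀ i, s i ∈ S) ∧ LinearIndependent M (Sum.elim u s) ∧
      T ≤ Submodule.span M (Set.range (Sum.elim w₀ (Sum.elim u s))) ∧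
      q + j + Fintype.card β ≤ finrank M T := by
  classical
  obtain ⟨b, hb1, hb2, hb3, hb4⟩ := exists_linearIndepOn_id_extension
    (s := Set.range u) (t := Set.range u ∪ S) hu.linearIndepOn_id Set.subset_union_left
  have hbfin : b.Finite := hb4.linearIndependent.setFinite
  have hcfin : (b \ Set.range u).Finite := hbfin.subset Set.sdiff_subset
  have hft : Fintype ↥(b \ Set.range u) := hcfin.fintype
  let eq := Fintype.equivFin ↥(b \ Set.range u)
  set j := Fintype.card ↥(b \ Set.range u) with hj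
  let s : Fin j → V := fun i => (eq.symm i).1
  have hsb : ∀ i, s i ∈ b := fun i => (eq.symm i).2.1
  have hsu : ∀ i, s i ∉ Set.range u := fun i => (eq.symm i).2.2
  have hsS : ∀ i, s i ∈ S := fun i => (hb1 (hsb i)).resolve_left (hsu i)
  have hli : LinearIndependent M (Sum.elim u s) := by
    let f : Fin q ⊕ Fin j → b := Sum.elim (fun i => ⟨u i, hb2 ⟨i, rfl⟩⟩) fun i => ⟨s i, hsb i⟩
    have hf : Function.Injective f := by
      intro x y hxy
      rcases x with x | x <;> rcases y with y | y
      · have h1 : u x = u y := congrArg (fun z : b => (z : V)) hxy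
        rw [hu.injective h1]
      · have h1 : u x = s y := congrArg (fun z : b => (z : V)) hxy
        exact absurd ⟨x, h1⟩ (hsu y)
      · have h1 : s x = u y := congrArg (fun z : b => (z : V)) hxy
        exact absurd ⟨y, h1.symm⟩ (hsu x)
      · have h1 : s x = s y := congrArg (fun z : b => (z : V)) hxy
        have h2 : eq.symm x = eq.symm y := Subtype.ext h1
        rw [eq.symm.injective h2]
    have h1 : LinearIndependent M (fun x : b => (x : V)) := hb4
    have h2 := h1.comp f hf
    convert h2 using 1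
    funext x
    rcases x with x | x <;> rfl
  have hbr : b ⊆ Set.range (Sum.elim u s) := by
    intro x hx
    by_cases hxu : x ∈ Set.range u
    · obtain ⟨i, rfl⟩ := hxu
      exact ⟨Sum.inl i, rfl⟩
    · refine ⟨Sum.inr (eq ⟨x, hx, hxu⟩), ?_⟩
      show (eq.symm (eq ⟨x, hx, hxu⟩)).1 = x
      rw [Equiv.symm_apply_apply]
  have hGus : ∀ i, G (Sum.elim u s i) = 0 := by
    rintro (i | i)
    · exact hG i
    · exact hGS _ (hsS i)
  refine ⟨j, s, hsS, hli, ?_, ?_⟩
  · intro x hx
    obtain ⟨c, hc⟩ := exists_coefK hw₀ x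
    have h1 : x - ∑ b, c b • w₀ b ∈ Submodule.span M (Set.range u ∪ S) :=
      hker _ (T.sub_mem hx (T.sum_mem fun b _ => T.smul_mem _ (hw₀T b))) hc
    have h2 : Submodule.span M (Set.range u ∪ S) ≤
        Submodule.span M (Set.range (Sum.elim w₀ (Sum.elim u s))) := by
      rw [Submodule.span_le]
      refine hb3.trans ?_
      refine Submodule.span_mono (hbr.trans ?_)
      rintro _ ⟨i, rfl⟩
      exact ⟨Sum.inr i, rfl⟩
    have h3 : x = (x - ∑ b, c b • w₀ b) + ∑ b, c b • w₀ b := by abel
    rw [h3]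
    exact Submodule.add_mem _ (h2 h1) (Submodule.sum_mem _ fun b _ =>
      Submodule.smul_mem _ _ (Submodule.subset_span ⟨Sum.inl b, rfl⟩))
  · have hall := li_elimK hli hGus hw₀
    have h1 : finrank M (Submodule.span M (Set.range (Sum.elim w₀ (Sum.elim u s)))) ≤
        finrank M T := by
      refine Submodule.finrank_mono ?_
      rw [Submodule.span_le]
      rintro _ ⟨o, rfl⟩
      rcases o with b | (i | i)
      · exact hw₀T b
      · exact huT i
      · exact hST _ (hsS i)
    rw [finrank_span_eq_card hall, Fintype.card_sum, Fintype.card_sum, Fintype.card_fin,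
      Fintype.card_fin] at h1
    omega

end Pool.Agent.Lib.MP_44a246_ntK
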