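import Mathlib
import Pool.Agent.Lib.MP_44a246_ntK.K13
import Pool.Agent.Lib.MP_44a246_ntK.K18
import Pool.Agent.Lib.MP_44a246_ntK.K19

/-!
The theorem for complete intersections of generic hypersurface sections of subvarieties of
`P (d_1, ..., d_p, 1, ..., 1)` over a function field, with the bound for the degree of the
exceptional curves as a parameter.
-/

namespace Pool.Agent.Lib.MP_44a246_ntK

open Pool.Agent.Lib.MP_44a246_ntD
open Pool.Agent.Lib.MP_44a246_ntQ
open Pool.Agent.Lib.MP_44a246_nt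
open Pool.Agent.Lib.MP_e52354_ntK
open Pool.Agent.Lib.MP_44a246_ntL
open Pool.Agent.Lib.MP_44a246_ntS
open Pool.Agent.Lib.MP_44a246_ntX
open Pool.Agent.Lib.MP_44a246_ntG
open Pool.Agent.Lib.MP_44a246_ntU
open Pool.Agent.Lib.MP_e52354_nt
open MvPolynomial Module

universe u v w

/-- **The slope theorem for complete intersections in weighted projective varieties.** -/
theorem slope_mainK {κ : Type u} {K : Type v} [Field κ] [IsAlgClosed κ] [CharZero κ] [Field K]
    [CharZero K] [Algebra κ K] (htr : Cardinal.aleph0 ≤ Algebra.trdeg ℚ κ)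
    {t : K} (ht : Transcendental κ t) [FiniteDimensional (IntermediateField.adjoin κ {t}) K]
    {k : Type*} [Field k] [CharZero k] [Algebra k K] (hk : Algebra.trdeg ℚ k < Cardinal.aleph0)
    {n p r c s T M d₀ : ℕ} {d m : Fin p → ℕ} {ι : Type*} [Finite ι] {e : ι → ℕ}
    {f : ι → MvPolynomial (Fin p ⊕ Fin (n + 1)) k}
    (hf : ∀ i, (f i).IsWeightedHomogeneous (Sum.elim d fun _ => 1) (e i)) (hr : p < r)
    (hdim : ringKrullDim (MvPolynomial (Fin p ⊕ Fin (n + 1)) k ⧸ Ideal.span (Set.range f)) ≤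
      ((r + 1 : ℕ) : WithBot ℕ∞))
    (hT : 1 ≤ T) (hm : ∀ j, 1 ≤ m j) (hT2 : ∀ j, 2000 * T ^ 2 ≤ d j)
    (hr' : ∀ j, r + c ≤ m j * d j) (hc : ∀ j, c ≤ d j)
    (hU : ∀ j, 8500 * (T * m j) + 2 ≤ d j) (hs : ∀ j, 2500 * (T * m j * (s + 3)) ≤ d j)
    (hN : 2 * (r + c) + 6800 * (T ^ 2 * ∑ j, m j) + T * (r + c + 2 + s) ≤ T * ∑ j, d j)
    (hd₀ : ∀ j, d₀ ≤ d j) (hd₀1 : 1 ≤ d₀)
    (he : ∀ i, 2000 * ((s + 3) * (T * e i)) ≤ d₀ ^ 2 ∨ e i ≤ M)
    (H : Fin p → MvPolynomial (Fin (n + 1)) K) (hH : ∀ j, (H j).IsHomogeneous (d j))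
    (hgen : (Nat.card {I : Fin p × (Fin (n + 1) →₀ ℕ) // I.2.degree = d I.1} : Cardinal) ≤
      Algebra.trdeg k (IntermediateField.adjoin k
        (Set.range fun I : {I : Fin p × (Fin (n + 1) →₀ ℕ) // I.2.degree = d I.1} =>
          (H I.1.1).coeff I.1.2)) + c) :
    ∃ (l : ℕ) (G : Fin l → MvPolynomial (Fin (n + 1)) K), (∀ i, ∃ E, (G i).IsHomogeneous E) ∧
      ringKrullDim (MvPolynomial (Fin (n + 1)) K ⧸ Ideal.span (Set.range G)) ≤
        ((r - p : ℕ) : WithBot ℕ∞) ∧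
      ∃ C : ℕ, ∀ (L : Type w) [Field L] [Algebra K L] [FiniteDimensional K L] [Algebra κ L]
        [IsScalarTower κ K L] [Algebra k L] [IsScalarTower k K L] (x : Fin (n + 1) → L), x ≠ 0 →
        (∀ i, aeval (Sum.elim (fun j => aeval x (H j)) x : Fin p ⊕ Fin (n + 1) → L) (f i) = 0) →
        NDegP f x →
        ((s * height κ x ≤ ramDeg κ L K ∨ (d₀ : ℤ) ^ 2 * height κ x ≤
            C * finrank K L + 18 * T * M * ramDeg κ L K) ∧
          (pointField K x = ⊤ → 2 * finrank K L ≤ s + 1 →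
            36 * T * M * (finrank K L - 1) < d₀ ^ 2 →
            height κ x ≤ C * finrank K L)) ∨
          (∀ i, aeval x (G i) = 0) ∧
            CertV e (aWP d (fun j I => algebraMap K L ((H j).coeff I)) f) (2 * T) x := by
  -- the number of the forms is positive
  obtain ⟨q, rfl⟩ : ∃ q, p = q + 1 := by
    rcases Nat.eq_zero_or_pos p with h0 | h0
    · exfalso
      subst h0
      rw [Finset.univ_eq_empty, Finset.sum_empty, Finset.sum_empty] at hN
      have h1 : 0 < T * (r + c + 2 + s) := by positivity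
      omega
    · exact ⟨p - 1, by omega⟩
  obtain ⟨m', rfl⟩ : ∃ m', r = m' + q + 2 := ⟨r - (q + 2), by omega⟩
  have hm1 : 1 ≤ ∑ j, m j := by
    calc 1 ≤ m 0 := hm 0
      _ ≤ ∑ j, m j := Finset.single_le_sum (f := m) (fun _ _ => Nat.zero_le _) (Finset.mem_univ 0)
  have hd2 : m' + q + 2 + 2 * (2 * T) + c ≤ ∑ j, d j := by
    have h1 : T * (m' + q + 2 + 2 * (2 * T) + c) ≤ T * ∑ j, d j := by
      refine le_trans ?_ hN
      have e1 : T * (m' + q + 2 + 2 * (2 * T) + c) = T * (m' + q + 2 + c) + 4 * T ^ 2 := by ring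
      have e2 : T * (m' + q + 2 + c + 2 + s) = T * (m' + q + 2 + c) + T * (2 + s) := by ring
      have e3 : T ^ 2 * 1 ≤ T ^ 2 * ∑ j, m j := Nat.mul_le_mul_left _ hm1
      rw [e1, e2]
      omega
    exact Nat.le_of_mul_le_mul_left h1 (by omega)
  obtain ⟨P, hP, ha⟩ := exists_fewK (fun j I => (H j).coeff I) hgen
  have hf' : ∀ i, (f i).IsWeightedHomogeneous (wtP (n + 1) d) (e i) := hf
  have hK : IsFF κ K := ⟨t, ht, inferInstance⟩
  have hkc : Countable k := countable_of_trdeg hk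
  obtain ⟨l, G, hG1, hG2, hG3⟩ := exists_excFormsK.{v, w} (a := fun j I => (H j).coeff I)
    hd2 hc hf' hdim hP ha
  obtain ⟨C, hC⟩ := heightK_base.{u, v, w} (κ := κ) (K := K) hK htr hk (D := ∑ j, d j) hT hm hT2
    hr' hU hs hN hd₀ hd₀1
    (fun j => Finset.single_le_sum (f := d) (fun _ _ => Nat.zero_le _) (Finset.mem_univ j))
    (e := e) (M := M) he hf' hdim (a := fun j I => (H j).coeff I)
    (P := P) (by omega : m' + q + 2 + P.card ≤ m' + q + 2 + c) ha
  refine ⟨l, G, hG1, ?_, C, ?_⟩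
  · refine hG2.trans ?_
    have h1 : m' + q + 2 - (q + 1) = m' + 1 := by omega
    rw [h1]
  intro L _ _ _ _ _ _ _ x hx hfx hne
  have hfx' : ∀ i, Fval (e i) (aWP d (fun j I => algebraMap K L ((H j).coeff I)) f i) x = 0 := by
    intro i
    have h1 := hfx i
    rw [show (fun j => aeval x (H j)) =
      fun j => Fval (d j) (fun I => algebraMap K L ((H j).coeff I)) x from
      funext fun j => Pool.Agent.Lib.MP_44a246_ntU.aeval_eq_Fval (hH j) x] at h1
    rw [Fval_aWP' hf']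
    exact h1
  have hL : IsFF κ L := hK.of_finite
  have hHt : 0 ≤ height κ x := hL.height_nonneg hx
  have hRam : (0 : ℤ) ≤ ramDeg κ L K := Int.natCast_nonneg _
  have hfr : 1 ≤ finrank K L := Module.finrank_pos
  have hd1 : (1 : ℤ) ≤ d₀ := by exact_mod_cast hd₀1
  have key := hC L x hx hfx' hne
  rcases key with h | h | h
  · left
    refine ⟨Or.inl h, fun hgx h2 _ => ?_⟩
    have h3 : (ramDeg κ L K : ℤ) ≤ 2 * ((Module.finrank K L : ℤ) - 1) * height κ x := by
      refine hK.ind ?_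
      intro _ _ _ _ _ _ _ _ _
      exact (ram_point (κ := κ) (K := K) x hx hgx).1
    have h4 : 2 * (Module.finrank K L : ℤ) ≤ s + 1 := by exact_mod_cast h2
    have h5 : height κ x ≤ 0 := by nlinarith
    exact h5.trans (by positivity)
  · left
    refine ⟨Or.inr h, fun hgx h2 h8 => ?_⟩
    have h3 : (ramDeg κ L K : ℤ) ≤ 2 * ((Module.finrank K L : ℤ) - 1) * height κ x := by
      refine hK.ind ?_
      intro _ _ _ _ _ _ _ _ _
      exact (ram_point (κ := κ) (K := K) x hx hgx).1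
    have h9 : 36 * (T : ℤ) * M * ((finrank K L : ℤ) - 1) + 1 ≤ (d₀ : ℤ) ^ 2 := by
      have h10 : 36 * T * M * (finrank K L - 1) + 1 ≤ d₀ ^ 2 := h8
      have h11 : ((finrank K L - 1 : ℕ) : ℤ) = (finrank K L : ℤ) - 1 := by
        rw [Nat.cast_sub hfr, Nat.cast_one]
      rw [← h11]
      exact_mod_cast h10
    have hc : (0 : ℤ) ≤ 18 * T * M := by positivity
    have h12 := mul_le_mul_of_nonneg_left h3 hc
    have h13 := mul_le_mul_of_nonneg_right h9 hHt
    nlinarith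
  · right
    exact ⟨hG3 L x h hne, h⟩

end Pool.Agent.Lib.MP_44a246_ntK
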